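import Pool.Agent.Q201.AR.Stm3

set_option autoImplicit false

open FirstOrder FirstOrder.Language Pool.Agent.Helper227.EN

namespace Q123.AR_REIDX

open Q201.AR

open Pool.Agent.Helper578.JD Pool.Agent.Helper578.JD.Oracle

/-- job REIDX: an arithmetical system of unique names -/
theorem t_REIDX : S_REIDX := by
  intro hA hE hC D N _ _ g hD hDa
  obtain ⟨hcomp, hdec, hnot, hand, hex⟩ := hA
  obtain ⟨-, -, hpos, -, -, -, -, -⟩ := hC
  obtain ⟨hsurj, hdes⟩ := hD
  -- equality of names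
  have heq : ∀ x y : ℕ, g y = g x ↔ D (pos (ceq 0 1) [y, x]) = true := by
    intro x y
    rw [hdes, Sat_ceq]
    rfl
  -- the equality is arithmetical
  have hf : Computable fun q : ℕ × ℕ => pos (ceq 0 1) [q.2, q.1] := by
    have h1 : Computable fun q : ℕ × ℕ => ((ceq 0 1, [q.2, q.1]) : ℕ × List ℕ) := by
      refine Computable.pair (Computable.const _) ?_
      exact Computable.list_cons.comp Computable.snd
        (Computable.list_cons.comp Computable.fst (Computable.const []))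
    exact hpos.comp h1
  have hE1 : Arith fun q : ℕ × ℕ => g q.2 = g q.1 := by
    have h1 := hcomp (ℕ × ℕ) ℕ (fun n => D n = true) (fun q => pos (ceq 0 1) [q.2, q.1]) hf hDa
    have h2 : (fun q : ℕ × ℕ => g q.2 = g q.1) =
        fun q : ℕ × ℕ => D (pos (ceq 0 1) [q.2, q.1]) = true := by
      funext q
      exact propext (heq q.1 q.2)
    rw [h2]
    exact h1
  have hlt : Arith fun q : ℕ × ℕ => q.2 < q.1 := by
    refine hdec (ℕ × ℕ) _ ?_
    have h1 : PrimrecPred fun q : ℕ × ℕ => q.2 < q.1 :=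
      Primrec.nat_lt.comp Primrec.snd Primrec.fst
    exact h1.computablePred
  have hV : Arith fun x : ℕ => ¬ ∃ y, y < x ∧ g y = g x :=
    hnot ℕ _ (hex ℕ ℕ (fun q => q.2 < q.1 ∧ g q.2 = g q.1) (hand (ℕ × ℕ) _ _ hlt hE1))
  obtain ⟨n, hn⟩ := hV
  -- representatives
  have hrep : ∀ z : N, ∃ x : ℕ, (¬ ∃ y, y < x ∧ g y = g x) ∧ g x = z := by
    classical
    intro z
    have hz : ∃ x, g x = z := hsurj z
    refine ⟨Nat.find hz, ?_, Nat.find_spec hz⟩
    rintro ⟨y, hy, hyx⟩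
    exact Nat.find_min hz hy (hyx.trans (Nat.find_spec hz))
  have hinf : {x : ℕ | ¬ ∃ y, y < x ∧ g y = g x}.Infinite := by
    intro hfin
    have h1 : (Set.univ : Set N) ⊆ g '' {x : ℕ | ¬ ∃ y, y < x ∧ g y = g x} := by
      intro z _
      obtain ⟨x, hx, hxz⟩ := hrep z
      exact ⟨x, hx, hxz⟩
    exact Set.infinite_univ ((hfin.image g).subset h1)
  obtain ⟨f, hfi, hfV, hfd⟩ := hE (Oj n) (fun x => ¬ ∃ y, y < x ∧ g y = g x) hn.1 hinf
  refine ⟨f, ⟨?_, ?_⟩, ⟨n, hfd⟩⟩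
  · intro a b hab
    have ha := (hfV (f a)).2 ⟨a, rfl⟩
    have hb := (hfV (f b)).2 ⟨b, rfl⟩
    simp only at hab
    rcases lt_trichotomy (f a) (f b) with h | h | h
    · exact absurd ⟨f a, h, hab⟩ hb
    · exact hfi h
    · exact absurd ⟨f b, h, hab.symm⟩ ha
  · intro z
    obtain ⟨x, hx, hxz⟩ := hrep z
    obtain ⟨m, hm⟩ := (hfV x).1 hx
    exact ⟨m, by simp only [hm, hxz]⟩

end Q123.AR_REIDX
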