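import Pool.Agent.Q201.AR.Stm
import Pool.Agent.Helper227.EN.Alg

set_option autoImplicit false

/-!
# Project AR (helper201), job SUCC (helper123)
-/

open FirstOrder FirstOrder.Language Pool.Agent.Helper227.EN

namespace Q123.AR_SUCC

open Q201.AR

/-- JOB SUCC -/
theorem t_SUCC : S_SUCC := by
  refine ⟨(tadd (Term.var 0) t1).equal (Term.var 1), (Term.var 0).equal t0, fun M _ _ hM => ?_⟩
  have hm : M ⊨ PAminus := hM.mono Set.subset_union_left
  obtain ⟨z, hz⟩ : ∃ z : M, z = Structure.funMap (L := LA) AF.zero ![] := ⟨_, rfl⟩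
  obtain ⟨o, ho⟩ : ∃ o : M, o = Structure.funMap (L := LA) AF.one ![] := ⟨_, rfl⟩
  obtain ⟨ad, had⟩ : ∃ ad : M → M → M, ad = fun x y => Structure.funMap (L := LA) AF.add ![x, y] :=
    ⟨_, rfl⟩
  obtain ⟨mu, hmu⟩ : ∃ mu : M → M → M, mu = fun x y => Structure.funMap (L := LA) AF.mul ![x, y] :=
    ⟨_, rfl⟩
  obtain ⟨lt, hlt⟩ : ∃ lt : M → M → Prop,
    lt = fun x y => Structure.RelMap (L := LA) AR.lt ![x, y] := ⟨_, rfl⟩
  have H : EaAx M z o ad mu lt := by
    rw [hz, ho, had, hmu, hlt]
    exact ea_ax M hm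
  refine ⟨fun x => ad x o, z, ?_, ?_, ?_, ?_⟩
  · intro x y hxy
    change ad x o = ad y o at hxy
    rcases H.tot x y with h | h | h
    · have h1 := H.la x y o h
      rw [hxy] at h1
      exact absurd h1 (H.ir _)
    · exact h
    · have h1 := H.la y x o h
      rw [hxy] at h1
      exact absurd h1 (H.ir _)
  · intro x
    constructor
    · intro hx
      have h1 : lt z x := (H.nn x).resolve_right fun h => hx h.symm
      rcases H.ds x h1 with h | h
      · obtain ⟨w, hw⟩ := H.df o x h
        exact ⟨w, by show ad w o = x; rw [H.ac]; exact hw⟩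
      · exact ⟨z, by show ad z o = x; rw [H.ac, H.az]; exact h⟩
    · rintro ⟨y, hy⟩ hx
      change ad y o = x at hy
      rw [hx] at hy
      have h1 := H.la z o y H.zo
      rw [H.ac z y, H.az, H.ac o y, hy] at h1
      rcases H.nn y with h | h
      · exact H.ir _ (H.tr _ _ _ h h1)
      · rw [← h] at h1
        exact H.ir _ h1
  · intro v
    rw [Formula.realize_equal, ea_tadd, ea_t1, had, ho]
    rfl
  · intro v
    rw [Formula.realize_equal, ea_t0, hz]
    rfl

end Q123.AR_SUCC
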