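import Mathlib
import Pool.Agent.Q82.BB.Stm

set_option autoImplicit false

/-!
# Project BB (helper82), job CVD (helper123): derivatives of the convolution
-/

open MeasureTheory Filter Topology Set

namespace Pool.Agent.Q82.BB

variable {T : ℝ} {p : ℕ} {w : ℝ → ℝ → ℂ} {Cs : ℕ → ℝ}

theorem cvd_bd (h : Adm T p w Cs) (i : ℕ) {τ : ℝ} (hτ : τ ∈ Icc 0 T) (ξ : ℝ) :
    ‖iteratedDeriv i (fun ξ => w ξ τ) ξ‖ ≤ Cs i / (1 + |ξ|) := by
  refine (h.2.2.2 i ξ τ hτ).trans ?_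
  have h0 : 0 ≤ |ξ| := abs_nonneg ξ
  have h1 : ex ξ τ ≤ 1 := by
    unfold ex
    refine Real.exp_le_one_iff.2 ?_
    have := mul_nonneg hτ.1 h0
    linarith
  have h2 : 1 + |ξ| ≤ (1 + |ξ|) ^ (p + 1) := le_self_pow₀ (by linarith) (by omega)
  have h3 : ex ξ τ / (1 + |ξ|) ^ (p + 1) ≤ 1 / (1 + |ξ|) :=
    div_le_div₀ zero_le_one h1 (by linarith) h2
  calc Cs i * (ex ξ τ / (1 + |ξ|) ^ (p + 1)) ≤ Cs i * (1 / (1 + |ξ|)) :=
        mul_le_mul_of_nonneg_left h3 (h.2.2.1 i)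
    _ = Cs i / (1 + |ξ|) := by ring

theorem cvd_prod (h : Adm T p w Cs) (i : ℕ) {τ : ℝ} (hτ : τ ∈ Icc 0 T) {ξ x : ℝ}
    (hx : |x - ξ| < 1) (η : ℝ) :
    ‖w η τ * iteratedDeriv i (fun ξ => w ξ τ) (x - η)‖ ≤
      Cs 0 * Cs i * (2 + |ξ|) * (1 + ‖η‖) ^ (-2 : ℝ) := by
  have a0 : ‖w η τ‖ ≤ Cs 0 / (1 + |η|) := by
    have := cvd_bd h 0 hτ η
    rwa [iteratedDeriv_zero] at this
  have a1 := cvd_bd h i hτ (x - η)
  have c0 := h.2.2.1 0
  have ci := h.2.2.1 i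
  have n0 : 0 ≤ |η| := abs_nonneg η
  have n1 : 0 ≤ |x - η| := abs_nonneg _
  have n2 : 0 ≤ |ξ| := abs_nonneg ξ
  have b1 : |η| ≤ |x - η| + (|x - ξ| + |ξ|) := by
    have e1 : |η| ≤ |x - η| + |x| := by
      have := abs_sub_abs_le_abs_sub η x
      rw [abs_sub_comm η x] at this
      linarith
    have e2 : |x| ≤ |x - ξ| + |ξ| := by
      have := abs_sub_abs_le_abs_sub x ξ
      linarith
    linarith
  have b2 : 1 / (1 + |x - η|) ≤ (2 + |ξ|) / (1 + |η|) := by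
    rw [div_le_div_iff₀ (by linarith) (by linarith)]
    nlinarith [mul_nonneg n1 n2]
  rw [norm_mul]
  have e : (1 + ‖η‖) ^ (-2 : ℝ) = 1 / (1 + |η|) * (1 / (1 + |η|)) := by
    rw [Real.norm_eq_abs, Real.rpow_neg (by linarith), show (2 : ℝ) = ((2 : ℕ) : ℝ) by norm_num,
      Real.rpow_natCast, sq, mul_inv, one_div]
  rw [e]
  calc ‖w η τ‖ * ‖iteratedDeriv i (fun ξ => w ξ τ) (x - η)‖ ≤
      (Cs 0 / (1 + |η|)) * (Cs i / (1 + |x - η|)) :=
        mul_le_mul a0 a1 (norm_nonneg _) (by positivity)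
    _ = Cs 0 * Cs i * (1 / (1 + |η|)) * (1 / (1 + |x - η|)) := by ring
    _ ≤ Cs 0 * Cs i * (1 / (1 + |η|)) * ((2 + |ξ|) / (1 + |η|)) :=
        mul_le_mul_of_nonneg_left b2 (by positivity)
    _ = _ := by ring

theorem cvd_int (C : ℝ) : Integrable fun η : ℝ => C * (1 + ‖η‖) ^ (-2 : ℝ) := by
  refine Integrable.const_mul ?_ C
  exact integrable_one_add_norm (by simp)

theorem cvd_cont (h : Adm T p w Cs) (i : ℕ) {τ : ℝ} (hτ : τ ∈ Icc 0 T) :
    Continuous (iteratedDeriv i (fun ξ => w ξ τ)) :=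
  (h.1 τ hτ i).continuous_iteratedDeriv i le_rfl

theorem cvd_meas (h : Adm T p w Cs) (i : ℕ) {τ : ℝ} (hτ : τ ∈ Icc 0 T) (x : ℝ) :
    AEStronglyMeasurable (fun η => w η τ * iteratedDeriv i (fun ξ => w ξ τ) (x - η)) volume := by
  have c0 := cvd_cont h 0 hτ
  rw [iteratedDeriv_zero] at c0
  have c1 := cvd_cont h i hτ
  exact (c0.mul (c1.comp (continuous_const.sub continuous_id))).aestronglyMeasurable

theorem cvd_deriv (h : Adm T p w Cs) (i : ℕ) {τ : ℝ} (hτ : τ ∈ Icc 0 T) (ξ : ℝ) :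
    HasDerivAt (fun x => ∫ η, w η τ * iteratedDeriv i (fun ξ => w ξ τ) (x - η))
      (∫ η, w η τ * iteratedDeriv (i + 1) (fun ξ => w ξ τ) (ξ - η)) ξ := by
  refine (hasDerivAt_integral_of_dominated_loc_of_deriv_le (s := Metric.ball ξ 1)
    (F := fun x η => w η τ * iteratedDeriv i (fun ξ => w ξ τ) (x - η))
    (F' := fun x η => w η τ * iteratedDeriv (i + 1) (fun ξ => w ξ τ) (x - η))
    (bound := fun η => Cs 0 * Cs (i + 1) * (2 + |ξ|) * (1 + ‖η‖) ^ (-2 : ℝ))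
    (Metric.ball_mem_nhds ξ one_pos) (Eventually.of_forall fun x => cvd_meas h i hτ x) ?_
    (cvd_meas h (i + 1) hτ ξ) (Eventually.of_forall fun η x hx => ?_) (cvd_int _)
    (Eventually.of_forall fun η x _ => ?_)).2
  · refine Integrable.mono' (cvd_int (Cs 0 * Cs i * (2 + |ξ|))) (cvd_meas h i hτ ξ)
      (Eventually.of_forall fun η => ?_)
    exact cvd_prod h i hτ (by rw [sub_self, abs_zero]; exact one_pos) η
  · rw [Metric.mem_ball, Real.dist_eq] at hx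
    exact cvd_prod h (i + 1) hτ hx η
  · refine HasDerivAt.const_mul _ ?_
    refine HasDerivAt.comp_sub_const x η ?_
    rw [iteratedDeriv_succ]
    have hc : ContDiff ℝ ((i + 1 : ℕ) : ℕ∞) (fun ξ => w ξ τ) := h.1 τ hτ (i + 1)
    have hd : Differentiable ℝ (iteratedDeriv i (fun ξ => w ξ τ)) :=
      hc.differentiable_iteratedDeriv i (by exact_mod_cast Nat.lt_succ_self i)
    exact (hd _).hasDerivAt

theorem cvd_iter (h : Adm T p w Cs) {τ : ℝ} (hτ : τ ∈ Icc 0 T) (i : ℕ) :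
    iteratedDeriv i (fun ξ => cv w w ξ τ) =
      fun ξ => ∫ η, w η τ * iteratedDeriv i (fun ξ => w ξ τ) (ξ - η) := by
  induction i with
  | zero =>
    funext ξ
    simp only [iteratedDeriv_zero]
    rfl
  | succ k ih =>
    rw [iteratedDeriv_succ, ih]
    funext ξ
    exact (cvd_deriv h k hτ ξ).deriv

/-- JOB CVD -/
theorem cvd : S_CVD := by
  intro T p w Cs _ h
  refine ⟨fun τ hτ n => ?_, fun i τ hτ ξ => ?_, fun i => ?_⟩
  · refine contDiff_of_differentiable_iteratedDeriv (n := (n : ℕ∞)) fun m _ => ?_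
    rw [cvd_iter h hτ m]
    exact fun ξ => (cvd_deriv h m hτ ξ).differentiableAt
  · rw [cvd_iter h hτ i]
  · have heq : ∀ q ∈ (univ : Set ℝ) ×ˢ Icc 0 T, iteratedDeriv i (fun ξ => cv w w ξ q.2) q.1 =
        ∫ η, w η q.2 * iteratedDeriv i (fun ξ => w ξ q.2) (q.1 - η) := by
      intro q hq
      rw [cvd_iter h hq.2 i]
    refine ContinuousOn.congr ?_ heq
    intro q0 hq0
    have hs : ∀ᶠ q in 𝓝[univ ×ˢ Icc 0 T] q0, q.2 ∈ Icc 0 T ∧ |q.1 - q0.1| < 1 := by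
      have h1 : ∀ᶠ q in 𝓝[univ ×ˢ Icc 0 T] q0, q ∈ (univ : Set ℝ) ×ˢ Icc 0 T :=
        eventually_mem_nhdsWithin
      have h2 : ∀ᶠ q : ℝ × ℝ in 𝓝[univ ×ˢ Icc 0 T] q0, |q.1 - q0.1| < 1 := by
        refine eventually_nhdsWithin_of_eventually_nhds ?_
        have hc : Continuous fun q : ℝ × ℝ => |q.1 - q0.1| := by fun_prop
        have h3 := hc.tendsto q0
        rw [sub_self, abs_zero] at h3
        exact h3.eventually (gt_mem_nhds one_pos)
      exact h1.mp (h2.mono fun q a b => ⟨b.2, a⟩)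
    refine continuousWithinAt_of_dominated
      (bound := fun η => Cs 0 * Cs i * (2 + |q0.1|) * (1 + ‖η‖) ^ (-2 : ℝ))
      (hs.mono fun q hq => cvd_meas h i hq.1 q.1)
      (hs.mono fun q hq => Eventually.of_forall fun η => cvd_prod h i hq.1 hq.2 η) (cvd_int _)
      (Eventually.of_forall fun η => ?_)
    have c0 : ContinuousWithinAt (fun q : ℝ × ℝ => w η q.2) (univ ×ˢ Icc 0 T) q0 := by
      have h1 := h.2.1 0
      simp only [iteratedDeriv_zero] at h1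
      have h2 : ContinuousOn (fun q : ℝ × ℝ => (η, q.2)) (univ ×ˢ Icc 0 T) :=
        Continuous.continuousOn (by fun_prop)
      exact (h1.comp h2 fun q hq => ⟨mem_univ _, hq.2⟩) q0 hq0
    have c1 : ContinuousWithinAt (fun q : ℝ × ℝ => iteratedDeriv i (fun ξ => w ξ q.2) (q.1 - η))
        (univ ×ˢ Icc 0 T) q0 := by
      have h1 := h.2.1 i
      have h2 : ContinuousOn (fun q : ℝ × ℝ => (q.1 - η, q.2)) (univ ×ˢ Icc 0 T) :=
        Continuous.continuousOn (by fun_prop)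
      exact (h1.comp h2 fun q hq => ⟨mem_univ _, hq.2⟩) q0 hq0
    exact c0.mul c1

end Pool.Agent.Q82.BB
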