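import Mathlib
import Pool.Agent.Q82.BB.Stm

set_option autoImplicit false

/-!
# Project BB (helper82), job W0 (helper123): the linear profile

Calculus of classes: `w0_O T N W f` means that the derivatives of order at most `N` of `f` in the first variable are
bounded by a constant times the weight `W`.
-/

open MeasureTheory Filter Topology Set

namespace Pool.Agent.Q82.BB

/-- smooth in the first variable -/
def w0_Sm (f : ℝ → ℝ → ℝ) : Prop := ∀ τ : ℝ, ContDiff ℝ (⊤ : ℕ∞) (fun ξ => f ξ τ)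

/-- derivatives up to the order `N` are bounded by `W` -/
def w0_O (T : ℝ) (N : ℕ) (W f : ℝ → ℝ → ℝ) : Prop :=
  ∀ i ≤ N, ∃ C : ℝ, 0 ≤ C ∧ ∀ τ ∈ Icc 0 T, ∀ ξ : ℝ, |iteratedDeriv i (fun ξ => f ξ τ) ξ| ≤ C * W ξ τ

variable {T : ℝ} {N : ℕ} {W V f g : ℝ → ℝ → ℝ}

theorem w0_mul (hf : w0_O T N W f) (hg : w0_O T N V g) (sf : w0_Sm f) (sg : w0_Sm g)
    (hW : ∀ ξ τ, 0 ≤ W ξ τ) : w0_O T N (fun ξ τ => W ξ τ * V ξ τ) (fun ξ τ => f ξ τ * g ξ τ) := by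
  unfold w0_O at hf hg
  choose! C hC0 hC using hf
  choose! D hD0 hD using hg
  intro i hi
  refine ⟨∑ j ∈ Finset.range (i + 1), (i.choose j : ℝ) * C j * D (i - j), ?_, fun τ hτ ξ => ?_⟩
  · refine Finset.sum_nonneg fun j hj => ?_
    rw [Finset.mem_range] at hj
    exact mul_nonneg (mul_nonneg (Nat.cast_nonneg _) (hC0 j (by omega))) (hD0 _ (by omega))
  · have h := norm_iteratedFDeriv_mul_le (𝕜 := ℝ) (sf τ) (sg τ) ξ (n := i)
      (by exact_mod_cast le_top)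
    rw [norm_iteratedFDeriv_eq_norm_iteratedDeriv, Real.norm_eq_abs] at h
    refine h.trans ?_
    rw [Finset.sum_mul]
    refine Finset.sum_le_sum fun j hj => ?_
    rw [Finset.mem_range] at hj
    rw [norm_iteratedFDeriv_eq_norm_iteratedDeriv, norm_iteratedFDeriv_eq_norm_iteratedDeriv,
      Real.norm_eq_abs, Real.norm_eq_abs]
    have c0 := hC0 j (by omega)
    calc (i.choose j : ℝ) * |iteratedDeriv j (fun ξ => f ξ τ) ξ| *
          |iteratedDeriv (i - j) (fun ξ => g ξ τ) ξ|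
        ≤ (i.choose j : ℝ) * (C j * W ξ τ) * (D (i - j) * V ξ τ) := by
          refine mul_le_mul (mul_le_mul_of_nonneg_left (hC j (by omega) τ hτ ξ)
            (Nat.cast_nonneg _)) (hD _ (by omega) τ hτ ξ) (abs_nonneg _) ?_
          exact mul_nonneg (Nat.cast_nonneg _) (mul_nonneg c0 (hW ξ τ))
      _ = _ := by ring

theorem w0_add (hf : w0_O T N W f) (hg : w0_O T N W g) (sf : w0_Sm f) (sg : w0_Sm g) :
    w0_O T N W (fun ξ τ => f ξ τ + g ξ τ) := by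
  intro i hi
  obtain ⟨C, hC0, hC⟩ := hf i hi
  obtain ⟨D, hD0, hD⟩ := hg i hi
  refine ⟨C + D, add_nonneg hC0 hD0, fun τ hτ ξ => ?_⟩
  have h := iteratedDeriv_add (n := i) (x := ξ) (f := fun ξ => f ξ τ) (g := fun ξ => g ξ τ)
    ((sf τ).contDiffAt.of_le (by exact_mod_cast le_top))
    ((sg τ).contDiffAt.of_le (by exact_mod_cast le_top))
  have e : (fun ξ => f ξ τ + g ξ τ) = (fun ξ => f ξ τ) + fun ξ => g ξ τ := rfl
  rw [e, h, add_mul]
  exact (abs_add_le _ _).trans (add_le_add (hC τ hτ ξ) (hD τ hτ ξ))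

theorem w0_mono (hf : w0_O T N W f) {K : ℝ} (hK : 0 ≤ K)
    (h : ∀ τ ∈ Icc 0 T, ∀ ξ, W ξ τ ≤ K * V ξ τ) : w0_O T N V f := by
  intro i hi
  obtain ⟨C, hC0, hC⟩ := hf i hi
  refine ⟨C * K, mul_nonneg hC0 hK, fun τ hτ ξ => (hC τ hτ ξ).trans ?_⟩
  rw [mul_assoc]
  exact mul_le_mul_of_nonneg_left (h τ hτ ξ) hC0

theorem w0_const (c : ℝ) : w0_O T N (fun _ _ => 1) (fun _ _ => c) := by
  intro i _
  refine ⟨|c|, abs_nonneg c, fun τ _ ξ => ?_⟩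
  rw [iteratedDeriv_const]
  split_ifs
  · rw [mul_one]
  · rw [abs_zero, mul_one]
    exact abs_nonneg c

theorem w0_smul (c : ℝ) (hf : w0_O T N W f) (sf : w0_Sm f) :
    w0_O T N W (fun ξ τ => c * f ξ τ) := by
  have h := w0_mul (w0_const (T := T) (N := N) c) hf (fun _ => contDiff_const) sf
    (fun _ _ => zero_le_one)
  simpa only [one_mul] using h

theorem w0_succ {C : ℝ} (hC : 0 ≤ C) (hb : ∀ τ ∈ Icc 0 T, ∀ ξ, |f ξ τ| ≤ C * W ξ τ)
    (hd : ∀ τ ξ, HasDerivAt (fun ξ => f ξ τ) (g ξ τ) ξ) (hg : w0_O T N W g) :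
    w0_O T (N + 1) W f := by
  intro i hi
  cases i with
  | zero =>
    refine ⟨C, hC, fun τ hτ ξ => ?_⟩
    rw [iteratedDeriv_zero]
    exact hb τ hτ ξ
  | succ k =>
    obtain ⟨D, hD, h⟩ := hg k (by omega)
    refine ⟨D, hD, fun τ hτ ξ => ?_⟩
    have e : deriv (fun ξ => f ξ τ) = fun ξ => g ξ τ := funext fun ξ => (hd τ ξ).deriv
    rw [iteratedDeriv_succ', e]
    exact h τ hτ ξ

theorem w0_base {C : ℝ} (hC : 0 ≤ C) (hb : ∀ τ ∈ Icc 0 T, ∀ ξ, |f ξ τ| ≤ C * W ξ τ) :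
    w0_O T 0 W f := by
  intro i hi
  have : i = 0 := by omega
  subst this
  refine ⟨C, hC, fun τ hτ ξ => ?_⟩
  rw [iteratedDeriv_zero]
  exact hb τ hτ ξ

/-- the weight `(1 + |ξ|) ^ m` -/
noncomputable def w0_pw (m : ℤ) (ξ _τ : ℝ) : ℝ := (1 + |ξ|) ^ m

theorem w0_pos (ξ : ℝ) : 0 < 1 + |ξ| := by positivity

theorem w0_pw_nonneg (m : ℤ) (ξ τ : ℝ) : 0 ≤ w0_pw m ξ τ := (zpow_pos (w0_pos ξ) m).le

theorem w0_pw_mul (m k : ℤ) : (fun ξ τ => w0_pw m ξ τ * w0_pw k ξ τ) = w0_pw (m + k) := by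
  funext ξ τ
  unfold w0_pw
  rw [zpow_add₀ (w0_pos ξ).ne']

theorem w0_pw_le {m k : ℤ} (h : m ≤ k) (hf : w0_O T N (w0_pw m) f) : w0_O T N (w0_pw k) f := by
  refine w0_mono hf zero_le_one fun τ _ ξ => ?_
  rw [one_mul]
  exact zpow_le_zpow_right₀ (by linarith [abs_nonneg ξ]) h

theorem w0_one : (fun _ _ => 1 : ℝ → ℝ → ℝ) = w0_pw 0 := by
  funext ξ τ
  unfold w0_pw
  rw [zpow_zero]

theorem w0_pmul {m k l : ℤ} (hf : w0_O T N (w0_pw m) f) (hg : w0_O T N (w0_pw k) g) (sf : w0_Sm f)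
    (sg : w0_Sm g) (h : m + k ≤ l) : w0_O T N (w0_pw l) (fun ξ τ => f ξ τ * g ξ τ) := by
  have a := w0_mul hf hg sf sg (w0_pw_nonneg m)
  rw [w0_pw_mul] at a
  exact w0_pw_le h a

/-! ### basic functions -/

theorem w0_id : w0_O T N (w0_pw 1) (fun ξ _ => ξ) := by
  have hb : ∀ τ ∈ Icc 0 T, ∀ ξ : ℝ, |ξ| ≤ 1 * w0_pw 1 ξ τ := by
    intro τ _ ξ
    unfold w0_pw
    rw [zpow_one]
    linarith
  cases N with
  | zero => exact w0_base zero_le_one hb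
  | succ n =>
    refine w0_succ (g := fun _ _ => 1) zero_le_one hb (fun τ ξ => hasDerivAt_id' ξ) ?_
    have h := w0_const (T := T) (N := n) 1
    rw [w0_one] at h
    exact w0_pw_le (by norm_num) h

theorem w0_pow {m : ℤ} (hf : w0_O T N (w0_pw m) f) (sf : w0_Sm f) (k : ℕ) :
    w0_O T N (w0_pw (k * m)) (fun ξ τ => f ξ τ ^ k) := by
  induction k with
  | zero =>
    simp only [pow_zero, Nat.cast_zero, zero_mul]
    have h := w0_const (T := T) (N := N) 1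
    rwa [w0_one] at h
  | succ n ih =>
    simp only [pow_succ]
    refine w0_pmul ih hf (fun τ => (sf τ).pow n) sf ?_
    push_cast
    linarith

theorem w0_cs : w0_O T N (w0_pw 0) (fun ξ _ => Real.cos ξ) ∧
    w0_O T N (w0_pw 0) (fun ξ _ => Real.sin ξ) := by
  have hb1 : ∀ τ ∈ Icc 0 T, ∀ ξ : ℝ, |Real.cos ξ| ≤ 1 * w0_pw 0 ξ τ := by
    intro τ _ ξ
    unfold w0_pw
    rw [zpow_zero, one_mul]
    exact Real.abs_cos_le_one ξ
  have hb2 : ∀ τ ∈ Icc 0 T, ∀ ξ : ℝ, |Real.sin ξ| ≤ 1 * w0_pw 0 ξ τ := by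
    intro τ _ ξ
    unfold w0_pw
    rw [zpow_zero, one_mul]
    exact Real.abs_sin_le_one ξ
  induction N with
  | zero => exact ⟨w0_base zero_le_one hb1, w0_base zero_le_one hb2⟩
  | succ n ih =>
    refine ⟨w0_succ (g := fun ξ _ => (-1) * Real.sin ξ) zero_le_one hb1 (fun τ ξ => ?_) ?_,
      w0_succ (g := fun ξ _ => Real.cos ξ) zero_le_one hb2 (fun τ ξ => Real.hasDerivAt_sin ξ) ih.1⟩
    · rw [neg_one_mul]
      exact Real.hasDerivAt_cos ξ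
    · exact w0_smul (-1) ih.2 fun _ => Real.contDiff_sin

theorem w0_cpt {b : ℝ → ℝ} (hb : ContDiff ℝ (⊤ : ℕ∞) b) (hc : HasCompactSupport b) :
    w0_O T N (w0_pw 0) (fun ξ _ => b ξ) := by
  intro i _
  have h1 : HasCompactSupport (iteratedDeriv i b) := by
    induction i with
    | zero => rwa [iteratedDeriv_zero]
    | succ k ih =>
      rw [iteratedDeriv_succ]
      exact (ih (by omega)).deriv
  have h2 : Continuous (iteratedDeriv i b) := hb.continuous_iteratedDeriv i (by exact_mod_cast le_top)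
  obtain ⟨C, hC⟩ := h2.bounded_above_of_compact_support h1
  refine ⟨C, (norm_nonneg _).trans (hC 0), fun τ _ ξ => ?_⟩
  unfold w0_pw
  rw [zpow_zero, mul_one]
  exact hC ξ

/-! ### inverse square roots -/

theorem w0_isq {F F' : ℝ → ℝ} {s : ℕ} (hF : ContDiff ℝ (⊤ : ℕ∞) F)
    (hd : ∀ ξ, HasDerivAt F (F' ξ) ξ) (sF' : ContDiff ℝ (⊤ : ℕ∞) F')
    (hF' : ∀ N, w0_O T N (w0_pw (2 * s)) (fun ξ _ => F' ξ)) {c : ℝ} (hc : 0 < c)
    (hlow : ∀ ξ, (c * (1 + |ξ|) ^ s) ^ 2 ≤ F ξ) :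
    w0_O T N (w0_pw (-s)) (fun ξ _ => (√(F ξ))⁻¹) := by
  have hpos : ∀ ξ, 0 < F ξ := fun ξ => lt_of_lt_of_le
    (pow_pos (mul_pos hc (pow_pos (w0_pos ξ) s)) 2) (hlow ξ)
  have hsm : w0_Sm (fun ξ _ => (√(F ξ))⁻¹) := fun _ =>
    (hF.sqrt fun ξ => (hpos ξ).ne').inv fun ξ => (Real.sqrt_pos.2 (hpos ξ)).ne'
  have hb : ∀ τ ∈ Icc 0 T, ∀ ξ : ℝ, |(√(F ξ))⁻¹| ≤ c⁻¹ * w0_pw (-s) ξ τ := by
    intro τ _ ξ
    have p0 := pow_pos (w0_pos ξ) s
    have h1 : c * (1 + |ξ|) ^ s ≤ √(F ξ) := by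
      apply Real.le_sqrt_of_sq_le
      exact hlow ξ
    unfold w0_pw
    rw [abs_of_nonneg (inv_nonneg.2 (Real.sqrt_nonneg _)), zpow_neg, zpow_natCast, ← mul_inv]
    exact inv_anti₀ (mul_pos hc p0) h1
  induction N with
  | zero => exact w0_base (inv_nonneg.2 hc.le) hb
  | succ n ih =>
    refine w0_succ (g := fun ξ _ => (-(1 / 2)) * (F' ξ * ((√(F ξ))⁻¹) ^ 3)) (inv_nonneg.2 hc.le) hb
      (fun τ ξ => ?_) ?_
    · have h1 := ((hd ξ).sqrt (hpos ξ).ne').inv (Real.sqrt_pos.2 (hpos ξ)).ne'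
      refine h1.congr_deriv ?_
      have h2 := (Real.sqrt_pos.2 (hpos ξ)).ne'
      field_simp
    · refine w0_smul _ ?_ fun τ => sF'.mul ((hsm τ).pow 3)
      refine w0_pmul (hF' n) (w0_pow ih hsm 3) (fun _ => sF') (fun τ => (hsm τ).pow 3) ?_
      push_cast
      linarith

/-! ### the functions -/

/-- an auxiliary cut-off -/
noncomputable def w0_b : ContDiffBump (0 : ℝ) := ⟨3 / 2, 2, by norm_num, by norm_num⟩

theorem w0_b_one {ξ : ℝ} (h : |ξ| ≤ 3 / 2) : w0_b ξ = 1 := by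
  apply ContDiffBump.one_of_mem_closedBall
  rw [Metric.mem_closedBall, dist_zero_right, Real.norm_eq_abs]
  exact h

theorem w0_b_zero {ξ : ℝ} (h : 2 ≤ |ξ|) : w0_b ξ = 0 := by
  apply ContDiffBump.zero_of_le_dist
  rw [dist_zero_right, Real.norm_eq_abs]
  exact h

theorem w0_chi_one {ξ : ℝ} (h : |ξ| ≤ 2) : chi ξ = 1 := by
  unfold chi
  apply ContDiffBump.one_of_mem_closedBall
  rw [Metric.mem_closedBall, dist_zero_right, Real.norm_eq_abs]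
  exact h

theorem w0_db : ContDiff ℝ (⊤ : ℕ∞) (fun ξ : ℝ => deriv w0_b ξ) := by
  have h : ContDiff ℝ (⊤ : ℕ∞) w0_b := w0_b.contDiff
  exact (contDiff_infty_iff_deriv.1 h).2

/-- `mu`, made positive -/
noncomputable def w0_m (ξ : ℝ) : ℝ := mu ξ + w0_b ξ

/-- the square, made positive -/
noncomputable def w0_n (ξ : ℝ) : ℝ := ξ ^ 2 + w0_b ξ

theorem w0_m_smooth : ContDiff ℝ (⊤ : ℕ∞) w0_m := by
  unfold w0_m mu
  exact ((contDiff_id.pow 4).sub (contDiff_id.pow 2)).add w0_b.contDiff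

theorem w0_n_smooth : ContDiff ℝ (⊤ : ℕ∞) w0_n := by
  unfold w0_n
  exact (contDiff_id.pow 2).add w0_b.contDiff

theorem w0_b_deriv (ξ : ℝ) : HasDerivAt w0_b (deriv w0_b ξ) ξ := by
  have h : ContDiff ℝ 1 w0_b := w0_b.contDiff
  exact (h.differentiable one_ne_zero ξ).hasDerivAt

theorem w0_m_deriv (ξ : ℝ) : HasDerivAt w0_m (4 * ξ ^ 3 + (-2) * ξ + deriv w0_b ξ) ξ := by
  have h := (((hasDerivAt_pow 4 ξ).sub (hasDerivAt_pow 2 ξ)).add (w0_b_deriv ξ))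
  refine h.congr_deriv ?_
  push_cast
  ring

theorem w0_n_deriv (ξ : ℝ) : HasDerivAt w0_n (2 * ξ + deriv w0_b ξ) ξ := by
  have h := (hasDerivAt_pow 2 ξ).add (w0_b_deriv ξ)
  refine h.congr_deriv ?_
  push_cast
  ring

theorem w0_db_O (N : ℕ) : w0_O T N (w0_pw 0) (fun ξ _ => deriv w0_b ξ) :=
  w0_cpt w0_db w0_b.hasCompactSupport.deriv

theorem w0_m'_smooth : ContDiff ℝ (⊤ : ℕ∞) (fun ξ : ℝ => 4 * ξ ^ 3 + (-2) * ξ + deriv w0_b ξ) :=
  ((contDiff_const.mul (contDiff_id.pow 3)).add (contDiff_const.mul contDiff_id)).add w0_db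

theorem w0_n'_smooth : ContDiff ℝ (⊤ : ℕ∞) (fun ξ : ℝ => 2 * ξ + deriv w0_b ξ) :=
  (contDiff_const.mul contDiff_id).add w0_db

theorem w0_m'_O (N : ℕ) : w0_O T N (w0_pw (2 * (2 : ℕ)))
    (fun ξ _ => 4 * ξ ^ 3 + (-2) * ξ + deriv w0_b ξ) := by
  have s1 : w0_Sm (fun ξ _ => ξ) := fun _ => contDiff_id
  have a := w0_smul 4 (w0_pow (w0_id (T := T) (N := N)) s1 3) fun τ => (s1 τ).pow 3
  have b := w0_smul (-2) (w0_id (T := T) (N := N)) s1
  have c := w0_db_O (T := T) N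
  refine w0_add (w0_add (w0_pw_le (by norm_num) a) (w0_pw_le (by norm_num) b) ?_ ?_)
    (w0_pw_le (by norm_num) c) ?_ fun _ => w0_db
  · exact fun τ => contDiff_const.mul ((s1 τ).pow 3)
  · exact fun τ => contDiff_const.mul (s1 τ)
  · exact fun τ => (contDiff_const.mul ((s1 τ).pow 3)).add (contDiff_const.mul (s1 τ))

theorem w0_n'_O (N : ℕ) : w0_O T N (w0_pw (2 * (1 : ℕ))) (fun ξ _ => 2 * ξ + deriv w0_b ξ) := by
  have s1 : w0_Sm (fun ξ _ => ξ) := fun _ => contDiff_id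
  have b := w0_smul 2 (w0_id (T := T) (N := N)) s1
  have c := w0_db_O (T := T) N
  exact w0_add (w0_pw_le (by norm_num) b) (w0_pw_le (by norm_num) c)
    (fun τ => contDiff_const.mul (s1 τ)) fun _ => w0_db

theorem w0_m_low (ξ : ℝ) : ((1 / 10) * (1 + |ξ|) ^ 2) ^ 2 ≤ w0_m ξ := by
  unfold w0_m mu
  obtain ⟨t, ht⟩ : ∃ t, t = |ξ| := ⟨_, rfl⟩
  have h2 : ξ ^ 2 = t ^ 2 := by rw [ht, sq_abs]
  have h4 : ξ ^ 4 = t ^ 4 := by
    calc ξ ^ 4 = (ξ ^ 2) ^ 2 := by ring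
      _ = (t ^ 2) ^ 2 := by rw [h2]
      _ = t ^ 4 := by ring
  have ht0 : 0 ≤ t := by rw [ht]; exact abs_nonneg ξ
  rw [h2, h4, ← ht]
  rcases le_total t (3 / 2) with h | h
  · rw [w0_b_one (by rw [← ht]; exact h)]
    have e1 : (1 + t) ^ 2 ≤ 25 / 4 := by nlinarith
    have e2 : ((1 / 10) * (1 + t) ^ 2) ^ 2 ≤ (5 / 8) ^ 2 := by
      refine pow_le_pow_left₀ (by positivity) (by linarith) 2
    nlinarith [sq_nonneg (t ^ 2 - 1 / 2)]
  · have hb := w0_b.nonneg' ξ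
    have e1 : (1 + t) ^ 2 ≤ (5 / 3 * t) ^ 2 := pow_le_pow_left₀ (by linarith) (by linarith) 2
    have e2 : ((1 / 10) * (1 + t) ^ 2) ^ 2 ≤ ((1 / 10) * (5 / 3 * t) ^ 2) ^ 2 :=
      pow_le_pow_left₀ (by positivity) (by linarith) 2
    have e3 : 9 / 4 ≤ t ^ 2 := by nlinarith
    have e4 : ((1 / 10) * (5 / 3 * t) ^ 2) ^ 2 ≤ t ^ 4 - t ^ 2 := by
      have : ((1 / 10) * (5 / 3 * t) ^ 2) ^ 2 = 25 / 324 * (t ^ 2 * t ^ 2) := by ring
      rw [this]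
      have : t ^ 4 = t ^ 2 * t ^ 2 := by ring
      rw [this]
      nlinarith
    linarith

theorem w0_n_low (ξ : ℝ) : ((1 / 10) * (1 + |ξ|) ^ 1) ^ 2 ≤ w0_n ξ := by
  unfold w0_n
  obtain ⟨t, ht⟩ : ∃ t, t = |ξ| := ⟨_, rfl⟩
  have h2 : ξ ^ 2 = t ^ 2 := by rw [ht, sq_abs]
  have ht0 : 0 ≤ t := by rw [ht]; exact abs_nonneg ξ
  rw [h2, ← ht, pow_one]
  rcases le_total t (3 / 2) with h | h
  · rw [w0_b_one (by rw [← ht]; exact h)]
    nlinarith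
  · have hb := w0_b.nonneg' ξ
    nlinarith

theorem w0_m_pos (ξ : ℝ) : 0 < w0_m ξ :=
  lt_of_lt_of_le (pow_pos (mul_pos (by norm_num) (pow_pos (w0_pos ξ) 2)) 2) (w0_m_low ξ)

theorem w0_n_pos (ξ : ℝ) : 0 < w0_n ξ :=
  lt_of_lt_of_le (pow_pos (mul_pos (by norm_num) (pow_pos (w0_pos ξ) 1)) 2) (w0_n_low ξ)

/-- `1 / |ξ|` -/
noncomputable def w0_k (ξ : ℝ) : ℝ := (√(w0_n ξ))⁻¹

/-- `1 / lam` -/
noncomputable def w0_r (ξ : ℝ) : ℝ := (√(w0_m ξ))⁻¹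

theorem w0_k_smooth : ContDiff ℝ (⊤ : ℕ∞) w0_k :=
  (w0_n_smooth.sqrt fun ξ => (w0_n_pos ξ).ne').inv fun ξ => (Real.sqrt_pos.2 (w0_n_pos ξ)).ne'

theorem w0_r_smooth : ContDiff ℝ (⊤ : ℕ∞) w0_r :=
  (w0_m_smooth.sqrt fun ξ => (w0_m_pos ξ).ne').inv fun ξ => (Real.sqrt_pos.2 (w0_m_pos ξ)).ne'

theorem w0_k_O (N : ℕ) : w0_O T N (w0_pw (-1)) (fun ξ _ => w0_k ξ) :=
  w0_isq (s := 1) w0_n_smooth w0_n_deriv w0_n'_smooth w0_n'_O (c := 1 / 10) (by norm_num) w0_n_low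

theorem w0_r_O (N : ℕ) : w0_O T N (w0_pw (-2)) (fun ξ _ => w0_r ξ) :=
  w0_isq (s := 2) w0_m_smooth w0_m_deriv w0_m'_smooth w0_m'_O (c := 1 / 10) (by norm_num) w0_m_low

/-- the derivative of `lam` -/
noncomputable def w0_l' (ξ : ℝ) : ℝ :=
  (1 / 2) * ((4 * ξ ^ 3 + (-2) * ξ + deriv w0_b ξ) * w0_r ξ)

theorem w0_l'_smooth : ContDiff ℝ (⊤ : ℕ∞) w0_l' := contDiff_const.mul (w0_m'_smooth.mul w0_r_smooth)

theorem w0_l'_O (N : ℕ) : w0_O T N (w0_pw 2) (fun ξ _ => w0_l' ξ) := by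
  refine w0_smul _ ?_ fun _ => w0_m'_smooth.mul w0_r_smooth
  exact w0_pmul (w0_m'_O N) (w0_r_O N) (fun _ => w0_m'_smooth) (fun _ => w0_r_smooth) (by norm_num)

theorem w0_l_deriv (ξ : ℝ) : HasDerivAt (fun ξ => √(w0_m ξ)) (w0_l' ξ) ξ := by
  refine ((w0_m_deriv ξ).sqrt (w0_m_pos ξ).ne').congr_deriv ?_
  unfold w0_l' w0_r
  have := (Real.sqrt_pos.2 (w0_m_pos ξ)).ne'
  field_simp

/-- the exponential -/
noncomputable def w0_e (ξ τ : ℝ) : ℝ := Real.exp (-(√(w0_m ξ) * τ))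

theorem w0_e_smooth : w0_Sm w0_e := fun _ =>
  Real.contDiff_exp.comp ((w0_m_smooth.sqrt fun ξ => (w0_m_pos ξ).ne').mul contDiff_const).neg

/-- the weight -/
noncomputable def w0_M (ξ τ : ℝ) : ℝ := 1 + |τ| * (1 + |ξ|) ^ 2

theorem w0_M_one (ξ τ : ℝ) : 1 ≤ w0_M ξ τ := by
  unfold w0_M
  have : 0 ≤ |τ| * (1 + |ξ|) ^ 2 := by positivity
  linarith

theorem w0_e_O (N : ℕ) : w0_O T N (fun ξ τ => w0_M ξ τ ^ N * w0_e ξ τ) w0_e := by
  have hb : ∀ (n : ℕ), ∀ τ ∈ Icc 0 T, ∀ ξ, |w0_e ξ τ| ≤ 1 * (w0_M ξ τ ^ n * w0_e ξ τ) := by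
    intro n τ _ ξ
    have h0 : 0 < w0_e ξ τ := Real.exp_pos _
    rw [abs_of_pos h0, one_mul]
    have := one_le_pow₀ (w0_M_one ξ τ) (n := n)
    nlinarith
  induction N with
  | zero => exact w0_base zero_le_one (hb 0)
  | succ n ih =>
    refine w0_succ (g := fun ξ τ => (w0_l' ξ * -τ) * w0_e ξ τ) zero_le_one (hb (n + 1))
      (fun τ ξ => ?_) ?_
    · have h1 : HasDerivAt (fun ξ => -(√(w0_m ξ) * τ)) (w0_l' ξ * -τ) ξ := by
        refine (((w0_l_deriv ξ).mul_const τ).neg).congr_deriv ?_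
        ring
      have h2 := h1.exp
      refine h2.congr_deriv ?_
      rw [mul_comm]
      rfl
    · have ht : w0_O T n (fun _ τ => |τ|) (fun _ τ => -τ) := by
        intro i _
        refine ⟨1, zero_le_one, fun τ _ ξ => ?_⟩
        rw [iteratedDeriv_const]
        split_ifs
        · rw [abs_neg, one_mul]
        · rw [abs_zero, one_mul]
          exact abs_nonneg τ
      have h1 := w0_mul (w0_l'_O (T := T) n) ht (fun _ => w0_l'_smooth) (fun _ => contDiff_const)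
        (w0_pw_nonneg 2)
      have h2 : w0_O T n w0_M (fun ξ τ => w0_l' ξ * -τ) := by
        refine w0_mono h1 zero_le_one fun τ _ ξ => ?_
        unfold w0_pw w0_M
        rw [show (2 : ℤ) = ((2 : ℕ) : ℤ) from rfl, zpow_natCast]
        linarith [mul_comm |τ| ((1 + |ξ|) ^ 2)]
      have h3 := w0_mul h2 ih (fun _ => w0_l'_smooth.mul contDiff_const) w0_e_smooth
        (fun ξ τ => zero_le_one.trans (w0_M_one ξ τ))
      refine w0_mono h3 zero_le_one fun τ _ ξ => le_of_eq ?_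
      rw [one_mul, pow_succ]
      ring

/-- `1 / ξ` -/
noncomputable def w0_u (ξ : ℝ) : ℝ := ξ * (w0_k ξ) ^ 2

theorem w0_u_smooth : ContDiff ℝ (⊤ : ℕ∞) w0_u := contDiff_id.mul (w0_k_smooth.pow 2)

theorem w0_u_O (N : ℕ) : w0_O T N (w0_pw (-1)) (fun ξ _ => w0_u ξ) :=
  w0_pmul w0_id (w0_pow (w0_k_O N) (fun _ => w0_k_smooth) 2) (fun _ => contDiff_id)
    (fun _ => w0_k_smooth.pow 2) (by norm_num)

/-- the amplitude -/
noncomputable def w0_g (p : ℕ) (ξ : ℝ) : ℝ :=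
  (2 + (-2) * chi ξ) * Real.cos ξ * (w0_k ξ * w0_u ξ ^ p)

theorem w0_chi_sm : ContDiff ℝ (⊤ : ℕ∞) chi := bump.contDiff

theorem w0_chi_O (N : ℕ) : w0_O T N (w0_pw 0) (fun ξ _ => 2 + (-2) * chi ξ) := by
  have h1 : w0_O T N (w0_pw 0) (fun ξ _ => chi ξ) := w0_cpt w0_chi_sm bump.hasCompactSupport
  have h2 := w0_smul (-2) h1 fun _ => w0_chi_sm
  have h3 := w0_const (T := T) (N := N) 2
  rw [w0_one] at h3
  exact w0_add h3 h2 (fun _ => contDiff_const) fun _ => contDiff_const.mul w0_chi_sm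

theorem w0_chi_smooth : ContDiff ℝ (⊤ : ℕ∞) (fun ξ => 2 + (-2) * chi ξ) :=
  contDiff_const.add (contDiff_const.mul w0_chi_sm)

theorem w0_g_smooth (p : ℕ) : ContDiff ℝ (⊤ : ℕ∞) (w0_g p) :=
  (w0_chi_smooth.mul Real.contDiff_cos).mul (w0_k_smooth.mul (w0_u_smooth.pow p))

theorem w0_g_O (p N : ℕ) : w0_O T N (w0_pw (-(p + 1))) (fun ξ _ => w0_g p ξ) := by
  refine w0_pmul (m := 0) (k := -(p + 1)) (w0_pmul (w0_chi_O N) w0_cs.1 (fun _ => w0_chi_smooth)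
    (fun _ => Real.contDiff_cos) (by norm_num)) (w0_pmul (w0_k_O N)
    (w0_pow (w0_u_O N) (fun _ => w0_u_smooth) p) (fun _ => w0_k_smooth)
    (fun _ => w0_u_smooth.pow p) (by linarith)) (fun _ => w0_chi_smooth.mul Real.contDiff_cos)
    (fun _ => w0_k_smooth.mul (w0_u_smooth.pow p)) (by linarith)

/-! ### the profile -/

theorem w0_eq (p : ℕ) (ε ξ τ : ℝ) :
    w0 p ε ξ τ = (Complex.I ^ p)⁻¹ * ((ε * (w0_g p ξ * w0_e ξ τ) : ℝ) : ℂ) := by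
  unfold w0 w0_g
  rcases le_or_gt |ξ| 2 with h | h
  · rw [w0_chi_one h]
    simp
  · have hb : w0_b ξ = 0 := w0_b_zero h.le
    have hm : w0_m ξ = mu ξ := by
      unfold w0_m
      rw [hb, add_zero]
    have hn : w0_n ξ = ξ ^ 2 := by
      unfold w0_n
      rw [hb, add_zero]
    have hξ : ξ ≠ 0 := by
      intro h0
      rw [h0, abs_zero] at h
      linarith
    have hk : w0_k ξ = |ξ|⁻¹ := by
      unfold w0_k
      rw [hn, Real.sqrt_sq_eq_abs]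
    have hu : w0_u ξ = ξ⁻¹ := by
      unfold w0_u
      rw [hk, inv_pow, sq_abs]
      field_simp
    have he : w0_e ξ τ = Real.exp (-(lam ξ * τ)) := by
      unfold w0_e lam
      rw [hm]
    rw [hk, hu, he]
    push_cast
    rw [mul_pow, mul_inv, inv_pow]
    ring

theorem w0_prod_smooth (p : ℕ) : w0_Sm (fun ξ τ => w0_g p ξ * w0_e ξ τ) := fun τ =>
  (w0_g_smooth p).mul (w0_e_smooth τ)

theorem w0_iter (p : ℕ) (ε τ : ℝ) (i : ℕ) : iteratedDeriv i (fun ξ => w0 p ε ξ τ) =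
    fun ξ => (Complex.I ^ p)⁻¹ *
      ((ε * iteratedDeriv i (fun ξ => w0_g p ξ * w0_e ξ τ) ξ : ℝ) : ℂ) := by
  induction i with
  | zero =>
    funext ξ
    simp only [iteratedDeriv_zero]
    exact w0_eq p ε ξ τ
  | succ k ih =>
    rw [iteratedDeriv_succ, ih]
    funext ξ
    have hd : Differentiable ℝ (iteratedDeriv k (fun ξ => w0_g p ξ * w0_e ξ τ)) :=
      (w0_prod_smooth p τ).differentiable_iteratedDeriv k (by exact_mod_cast WithTop.coe_lt_top _)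
    have h1 : HasDerivAt (iteratedDeriv k (fun ξ => w0_g p ξ * w0_e ξ τ))
        (iteratedDeriv (k + 1) (fun ξ => w0_g p ξ * w0_e ξ τ) ξ) ξ := by
      rw [iteratedDeriv_succ]
      exact (hd ξ).hasDerivAt
    have h2 := ((h1.const_mul ε).ofReal_comp).const_mul (Complex.I ^ p)⁻¹
    exact h2.deriv

theorem w0_joint {F : ℝ × ℝ → ℝ} (hF : ContDiff ℝ (⊤ : ℕ∞) F) (i : ℕ) :
    ContDiff ℝ (⊤ : ℕ∞) (fun q : ℝ × ℝ => iteratedDeriv i (fun ξ => F (ξ, q.2)) q.1) := by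
  induction i with
  | zero =>
    simp only [iteratedDeriv_zero]
    exact hF
  | succ k ih =>
    have hdiff : Differentiable ℝ (fun q : ℝ × ℝ => iteratedDeriv k (fun ξ => F (ξ, q.2)) q.1) :=
      ih.differentiable (by simp)
    have e : (fun q : ℝ × ℝ => iteratedDeriv (k + 1) (fun ξ => F (ξ, q.2)) q.1) =
        fun q : ℝ × ℝ => fderiv ℝ (fun q : ℝ × ℝ => iteratedDeriv k (fun ξ => F (ξ, q.2)) q.1) q
          ((1 : ℝ), (0 : ℝ)) := by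
      funext q
      rw [iteratedDeriv_succ]
      have h1 : HasDerivAt (fun x : ℝ => (x, q.2)) ((1 : ℝ), (0 : ℝ)) q.1 :=
        (hasDerivAt_id q.1).prodMk (hasDerivAt_const q.1 q.2)
      have h2 := (hdiff (q.1, q.2)).hasFDerivAt.comp_hasDerivAt q.1 h1
      exact h2.deriv
    rw [e]
    exact (ih.fderiv_right (by simp)).clm_apply contDiff_const

theorem w0_dec (N : ℕ) : ∃ K : ℝ, 0 ≤ K ∧ ∀ τ ξ : ℝ, 0 ≤ τ → 2 ≤ |ξ| →
    w0_M ξ τ ^ N * w0_e ξ τ ≤ K * ex ξ τ := by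
  obtain ⟨c, hc⟩ : ∃ c : ℝ, c = 7 / 10 / ((N : ℝ) + 1) := ⟨_, rfl⟩
  have hN : (0 : ℝ) < (N : ℝ) + 1 := by positivity
  have hc0 : 0 < c := by
    rw [hc]
    positivity
  have hcN : N * c ≤ 7 / 10 := by
    rw [hc, mul_div_assoc', div_le_iff₀ hN]
    nlinarith
  refine ⟨(1 + 9 / (4 * c)) ^ N, by positivity, fun τ ξ hτ hξ => ?_⟩
  obtain ⟨t, ht⟩ : ∃ t, t = |ξ| := ⟨_, rfl⟩
  obtain ⟨y, hy⟩ : ∃ y, y = τ * t ^ 2 := ⟨_, rfl⟩
  rw [← ht] at hξ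
  have ht0 : 0 ≤ t := by linarith
  have hy0 : 0 ≤ y := by
    rw [hy]
    positivity
  have hM : w0_M ξ τ ≤ 1 + 9 / 4 * y := by
    unfold w0_M
    rw [abs_of_nonneg hτ, ← ht, hy]
    have : (1 + t) ^ 2 ≤ 9 / 4 * t ^ 2 := by nlinarith
    nlinarith
  have hA : 1 + 9 / 4 * y ≤ (1 + 9 / (4 * c)) * Real.exp (c * y) := by
    have h1 := Real.add_one_le_exp (c * y)
    have h2 : 1 + 9 / 4 * y ≤ (1 + 9 / (4 * c)) * (c * y + 1) := by
      have h3 : (1 + 9 / (4 * c)) * (c * y + 1) = 1 + 9 / 4 * y + c * y + 9 / (4 * c) := by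
        field_simp
        ring
      rw [h3]
      have : 0 ≤ c * y := by positivity
      have : 0 ≤ 9 / (4 * c) := by positivity
      linarith
    exact h2.trans (mul_le_mul_of_nonneg_left h1 (by positivity))
  have hMN : w0_M ξ τ ^ N ≤ (1 + 9 / (4 * c)) ^ N * Real.exp (7 / 10 * y) := by
    calc w0_M ξ τ ^ N ≤ ((1 + 9 / (4 * c)) * Real.exp (c * y)) ^ N :=
          pow_le_pow_left₀ (zero_le_one.trans (w0_M_one ξ τ)) (hM.trans hA) N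
      _ = (1 + 9 / (4 * c)) ^ N * Real.exp (N * (c * y)) := by rw [mul_pow, ← Real.exp_nat_mul]
      _ ≤ (1 + 9 / (4 * c)) ^ N * Real.exp (7 / 10 * y) := by
          refine mul_le_mul_of_nonneg_left (Real.exp_le_exp.2 ?_) (by positivity)
          nlinarith
  have hlam : 4 / 5 * t ^ 2 ≤ √(w0_m ξ) := by
    apply Real.le_sqrt_of_sq_le
    unfold w0_m mu
    have hb := w0_b.nonneg' ξ
    have h2 : ξ ^ 2 = t ^ 2 := by rw [ht, sq_abs]
    have h4 : ξ ^ 4 = t ^ 2 * t ^ 2 := by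
      calc ξ ^ 4 = ξ ^ 2 * ξ ^ 2 := by ring
        _ = t ^ 2 * t ^ 2 := by rw [h2]
    rw [h2, h4]
    have h5 : 4 ≤ t ^ 2 := by nlinarith
    nlinarith
  have hE : w0_e ξ τ ≤ Real.exp (-(4 / 5 * y)) := by
    unfold w0_e
    refine Real.exp_le_exp.2 ?_
    rw [hy]
    nlinarith
  have hex : Real.exp (-(1 / 10 * y)) ≤ ex ξ τ := by
    unfold ex
    refine Real.exp_le_exp.2 ?_
    rw [← ht, hy]
    have : τ * t ≤ τ * t ^ 2 := mul_le_mul_of_nonneg_left (by nlinarith) hτ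
    nlinarith [mul_nonneg hτ ht0]
  calc w0_M ξ τ ^ N * w0_e ξ τ ≤
      ((1 + 9 / (4 * c)) ^ N * Real.exp (7 / 10 * y)) * Real.exp (-(4 / 5 * y)) :=
        mul_le_mul hMN hE (Real.exp_pos _).le (by positivity)
    _ = (1 + 9 / (4 * c)) ^ N * Real.exp (-(1 / 10 * y)) := by
        rw [mul_assoc, ← Real.exp_add]
        congr 2
        ring
    _ ≤ (1 + 9 / (4 * c)) ^ N * ex ξ τ := mul_le_mul_of_nonneg_left hex (by positivity)

theorem w0_small (p i : ℕ) (τ : ℝ) {ξ : ℝ} (h : |ξ| < 2) :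
    iteratedDeriv i (fun ξ => w0_g p ξ * w0_e ξ τ) ξ = 0 := by
  have h1 : (fun ξ => w0_g p ξ * w0_e ξ τ) =ᶠ[𝓝 ξ] fun _ => 0 := by
    have h2 : ∀ᶠ x : ℝ in 𝓝 ξ, |x| < 2 := continuous_abs.continuousAt.eventually_lt_const h
    refine h2.mono fun x hx => ?_
    show w0_g p x * w0_e x τ = 0
    unfold w0_g
    rw [w0_chi_one hx.le]
    ring
  rw [Filter.EventuallyEq.iteratedDeriv_eq i h1, iteratedDeriv_const]
  split_ifs <;> rfl

/-- JOB W0 -/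
theorem w01 : S_W0 := by
  intro T p hT
  have hO : ∀ i : ℕ, ∃ C : ℝ, 0 ≤ C ∧ ∀ τ ∈ Icc 0 T, ∀ ξ : ℝ,
      |iteratedDeriv i (fun ξ => w0_g p ξ * w0_e ξ τ) ξ| ≤
        C * (w0_pw (-(p + 1)) ξ τ * (w0_M ξ τ ^ i * w0_e ξ τ)) := fun i =>
    w0_mul (w0_g_O p i) (w0_e_O i) (fun _ => w0_g_smooth p) w0_e_smooth (w0_pw_nonneg _) i le_rfl
  choose C hC0 hC using hO
  choose K hK0 hK using w0_dec
  have hnorm : ‖(Complex.I ^ p)⁻¹‖ = 1 := by
    rw [norm_inv, norm_pow, Complex.norm_I, one_pow, inv_one]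
  refine ⟨fun i => C i * K i, fun ε hε => ⟨⟨fun τ _ n => ?_, fun i => ?_, fun i => ?_,
    fun i ξ τ hτ => ?_⟩, fun ξ τ => ?_⟩⟩
  · have e : (fun ξ => w0 p ε ξ τ) =
        fun ξ => (Complex.I ^ p)⁻¹ * ((ε * (w0_g p ξ * w0_e ξ τ) : ℝ) : ℂ) :=
      funext fun ξ => w0_eq p ε ξ τ
    rw [e]
    have h1 : ContDiff ℝ (⊤ : ℕ∞) (fun ξ => ε * (w0_g p ξ * w0_e ξ τ)) :=
      contDiff_const.mul (w0_prod_smooth p τ)
    have h2 : ContDiff ℝ (⊤ : ℕ∞) (fun ξ => ((ε * (w0_g p ξ * w0_e ξ τ) : ℝ) : ℂ)) :=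
      Complex.ofRealCLM.contDiff.comp h1
    exact (contDiff_const.mul h2).of_le (by exact_mod_cast le_top)
  · have hF : ContDiff ℝ (⊤ : ℕ∞) (fun q : ℝ × ℝ => w0_g p q.1 * w0_e q.1 q.2) := by
      refine ((w0_g_smooth p).comp contDiff_fst).mul ?_
      have hs : ContDiff ℝ (⊤ : ℕ∞) (fun ξ => √(w0_m ξ)) :=
        w0_m_smooth.sqrt fun ξ => (w0_m_pos ξ).ne'
      exact Real.contDiff_exp.comp ((hs.comp contDiff_fst).mul contDiff_snd).neg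
    have h1 := (w0_joint hF i).continuous
    have e : (fun q : ℝ × ℝ => iteratedDeriv i (fun ξ => w0 p ε ξ q.2) q.1) =
        fun q : ℝ × ℝ => (Complex.I ^ p)⁻¹ *
          ((ε * iteratedDeriv i (fun ξ => w0_g p ξ * w0_e ξ q.2) q.1 : ℝ) : ℂ) := by
      funext q
      rw [w0_iter]
    rw [e]
    exact (continuous_const.mul (Complex.continuous_ofReal.comp (continuous_const.mul h1))).continuousOn
  · exact mul_nonneg hε.le (mul_nonneg (hC0 i) (hK0 i))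
  · rw [w0_iter]
    show ‖(Complex.I ^ p)⁻¹ *
      ((ε * iteratedDeriv i (fun ξ => w0_g p ξ * w0_e ξ τ) ξ : ℝ) : ℂ)‖ ≤ _
    rw [norm_mul, hnorm, one_mul, Complex.norm_real, norm_mul, Real.norm_eq_abs,
      abs_of_pos hε, mul_assoc, Real.norm_eq_abs]
    refine mul_le_mul_of_nonneg_left ?_ hε.le
    have hex : 0 < ex ξ τ := Real.exp_pos _
    have hp : 0 < (1 + |ξ|) ^ (p + 1) := pow_pos (w0_pos ξ) _
    rcases lt_or_ge |ξ| 2 with h | h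
    · rw [w0_small p i τ h, abs_zero]
      exact mul_nonneg (mul_nonneg (hC0 i) (hK0 i)) (div_nonneg hex.le hp.le)
    · refine (hC i τ hτ ξ).trans ?_
      rw [mul_assoc]
      refine mul_le_mul_of_nonneg_left ?_ (hC0 i)
      have h1 := hK i τ ξ hτ.1 h
      have h2 : w0_pw (-(p + 1)) ξ τ = 1 / (1 + |ξ|) ^ (p + 1) := by
        unfold w0_pw
        rw [zpow_neg, one_div]
        congr 1
      rw [h2]
      calc 1 / (1 + |ξ|) ^ (p + 1) * (w0_M ξ τ ^ i * w0_e ξ τ) ≤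
          1 / (1 + |ξ|) ^ (p + 1) * (K i * ex ξ τ) :=
            mul_le_mul_of_nonneg_left h1 (by positivity)
        _ = K i * (ex ξ τ / (1 + |ξ|) ^ (p + 1)) := by ring
  · unfold w0
    have h1 : chi (-ξ) = chi ξ := bump.neg ξ
    have h2 : lam (-ξ) = lam ξ := by
      unfold lam mu
      congr 1
      ring
    rw [h1, h2, Real.cos_neg, abs_neg, map_mul, Complex.conj_ofReal, map_inv₀, map_pow, map_mul,
      Complex.conj_I, Complex.conj_ofReal]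
    push_cast
    rw [mul_neg, neg_mul]

end Pool.Agent.Q82.BB
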