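import Pool.Agent.Q82.CW.Stm

/-!
# Job CW-EN (helper123): the energy estimate
-/

set_option autoImplicit false

open MeasureTheory Filter Topology Set
open scoped ContDiff

namespace Pool.Agent.Q82.CW

theorem en_ch_smooth : ContDiff ℝ ∞ ch := bmp.contDiff
theorem en_ch_cont : Continuous ch := bmp.continuous
theorem en_ch_nonneg (x : ℝ) : 0 ≤ ch x := bmp.nonneg
theorem en_ch_le (x : ℝ) : ch x ≤ 1 := bmp.le_one
theorem en_ch_zero {x : ℝ} (h : 4 / 5 ≤ |x - 5|) : ch x = 0 :=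
  bmp.zero_of_le_dist (by rw [Real.dist_eq]; exact h)
theorem en_ch_one {x : ℝ} (h : |x - 5| ≤ 1 / 2) : ch x = 1 :=
  bmp.one_of_mem_closedBall (by rw [Metric.mem_closedBall, Real.dist_eq]; exact h)
theorem en_ch_supp : HasCompactSupport ch := bmp.hasCompactSupport
theorem en_dch_cont : Continuous (deriv ch) := en_ch_smooth.continuous_deriv (by simp)
theorem en_dch_supp : HasCompactSupport (deriv ch) := en_ch_supp.deriv
theorem en_dch_zero {x : ℝ} (h : 4 / 5 < |x - 5|) : deriv ch x = 0 := by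
  have h1 : ch =ᶠ[𝓝 x] fun _ => (0 : ℝ) := by
    have ho : IsOpen {y : ℝ | 4 / 5 < |y - 5|} :=
      isOpen_lt continuous_const ((continuous_id.sub continuous_const).abs)
    filter_upwards [ho.mem_nhds h] with y hy
    exact en_ch_zero (le_of_lt hy)
  rw [h1.deriv_eq, deriv_const]

theorem en_L1 {f k : ℝ → ℝ} (hf : MemLp f 2) (hk : Continuous k) (hs : HasCompactSupport k) :
    Integrable (fun x => f x * k x) :=
  hf.integrable_mul (q := 2) (hk.memLp_of_hasCompactSupport hs)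

theorem en_L2 {f g k : ℝ → ℝ} (hf : MemLp f 2) (hg : MemLp g 2) (hk : Continuous k)
    (hs : HasCompactSupport k) : Integrable (fun x => f x * g x * k x) := by
  obtain ⟨C, hC⟩ := hk.bounded_above_of_compact_support hs
  exact (hf.integrable_mul (q := 2) hg).mul_bdd hk.aestronglyMeasurable (ae_of_all _ hC)

theorem en_Df_mem {f : ℝ → ℝ} (hf : MemLp f 2) (h : ℝ) : MemLp (Df h f) 2 := by
  have h1 : MemLp (fun x => f (x + h)) 2 :=
    hf.comp_measurePreserving (measurePreserving_add_right volume h)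
  exact h1.sub hf

/-- integrals of functions vanishing outside of an interval -/
theorem en_restr {f : ℝ → ℝ} {a b : ℝ} (hab : a ≤ b) (hf : ∀ x, x ∉ Icc a b → f x = 0) :
    ∫ x, f x = ∫ x in a..b, f x := by
  rw [intervalIntegral.integral_of_le hab, ← integral_Icc_eq_integral_Ioc,
    setIntegral_eq_integral_of_forall_compl_eq_zero hf]

/-- Cauchy-Schwarz on an interval -/
theorem en_CS {f : ℝ → ℝ} {a b : ℝ} (hab : a ≤ b) (hf : IntervalIntegrable f volume a b)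
    (hf2 : IntervalIntegrable (fun x => f x ^ 2) volume a b) :
    (∫ x in a..b, f x) ^ 2 ≤ (b - a) * ∫ x in a..b, f x ^ 2 := by
  rcases hab.eq_or_lt with h | h
  · rw [h, intervalIntegral.integral_same]
    simp
  have hp : 0 < b - a := by linarith
  obtain ⟨m, hm⟩ : ∃ m, m = (∫ x in a..b, f x) / (b - a) := ⟨_, rfl⟩
  have h1 : 0 ≤ ∫ x in a..b, (f x ^ 2 - 2 * m * f x + m ^ 2) := by
    apply intervalIntegral.integral_nonneg hab
    intro x _
    nlinarith [sq_nonneg (f x - m)]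
  have h2 : ∫ x in a..b, (f x ^ 2 - 2 * m * f x + m ^ 2) =
      (∫ x in a..b, f x ^ 2) - 2 * m * (∫ x in a..b, f x) + m ^ 2 * (b - a) := by
    rw [intervalIntegral.integral_add (hf2.sub (hf.const_mul _)) intervalIntegrable_const,
      intervalIntegral.integral_sub hf2 (hf.const_mul _), intervalIntegral.integral_const_mul,
      intervalIntegral.integral_const]
    simp only [smul_eq_mul]
    ring
  rw [h2] at h1
  have h3 : (∫ x in a..b, f x) = m * (b - a) := by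
    rw [hm]
    field_simp
  rw [h3] at h1 ⊢
  nlinarith

theorem en_loc {f : ℝ → ℝ} (hf : MemLp f 2) (a b : ℝ) : IntervalIntegrable f volume a b := by
  have h1 : LocallyIntegrable f volume := hf.locallyIntegrable (by norm_num)
  exact (h1.integrableOn_isCompact isCompact_uIcc).intervalIntegrable

theorem en_loc2 {f : ℝ → ℝ} (hf : MemLp f 2) (a b : ℝ) :
    IntervalIntegrable (fun x => f x ^ 2) volume a b :=
  hf.integrable_sq.intervalIntegrable

/-- the product rule for integrals of `L²` functions -/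
theorem en_prod {u β χ : ℝ → ℝ} (hβ : MemLp β 2) (hχ : ContDiff ℝ ∞ χ)
    (hu : ∀ x y : ℝ, u y - u x = ∫ s in x..y, β s) (a x : ℝ) :
    ∫ s in a..x, (deriv χ s * u s + χ s * β s) = χ x * u x - χ a * u a := by
  have hi := en_loc hβ a x
  have hu' : u = fun y => u a + ∫ s in a..y, β s := by
    funext y
    rw [← hu a y]
    ring
  have huac : AbsolutelyContinuousOnInterval u a x := by
    have h1 := hi.absolutelyContinuousOnInterval_intervalIntegral (c := a) (by simp)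
    have h2 : AbsolutelyContinuousOnInterval (fun _ : ℝ => u a) a x :=
      (contDiff_const (n := 1)).contDiffOn.absolutelyContinuousOnInterval
    rw [hu']
    exact h2.add h1
  have hχac : AbsolutelyContinuousOnInterval χ a x :=
    (hχ.of_le (by simp) : ContDiff ℝ 1 χ).contDiffOn.absolutelyContinuousOnInterval
  rw [← AbsolutelyContinuousOnInterval.integral_deriv_mul_eq_sub hχac huac]
  apply intervalIntegral.integral_congr_ae
  filter_upwards [hi.ae_hasDerivAt_integral] with s hs hsx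
  have h3 := hs (uIoc_subset_uIcc hsx) a (by simp)
  have h4 : deriv u s = β s := by
    rw [hu']
    exact (h3.const_add (u a)).deriv
  rw [h4]

/-- monotonicity in the interval -/
theorem en_sub {f : ℝ → ℝ} (h0 : ∀ x, 0 ≤ f x) (hf : ∀ a b : ℝ, IntervalIntegrable f volume a b)
    {a b c d : ℝ} (hca : c ≤ a) (_ : a ≤ b) (hbd : b ≤ d) :
    ∫ x in a..b, f x ≤ ∫ x in c..d, f x := by
  have h1 : (∫ x in c..a, f x) + ∫ x in a..b, f x = ∫ x in c..b, f x :=
    intervalIntegral.integral_add_adjacent_intervals (hf _ _) (hf _ _)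
  have h2 : (∫ x in c..b, f x) + ∫ x in b..d, f x = ∫ x in c..d, f x :=
    intervalIntegral.integral_add_adjacent_intervals (hf _ _) (hf _ _)
  have h3 : 0 ≤ ∫ x in c..a, f x := intervalIntegral.integral_nonneg hca fun x _ => h0 x
  have h4 : 0 ≤ ∫ x in b..d, f x := intervalIntegral.integral_nonneg hbd fun x _ => h0 x
  linarith

theorem en_P {w b : ℝ → ℝ} {η h : ℝ} (mb : MemLp b 2) (cw : Continuous w)
    (ftc : ∀ x y : ℝ, w y - w x = ∫ s in x..y, b s) (hb : ∫ x in (4 : ℝ)..6, b x ^ 2 ≤ η ^ 2)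
    (h0 : 0 < h) (h1 : h ≤ 1 / 10) :
    ∫ x in (21 / 5 : ℝ)..(29 / 5), Df h w x ^ 2 ≤ h ^ 2 * η ^ 2 := by
  have hi := en_loc2 mb
  obtain ⟨B, hB⟩ : ∃ B : ℝ → ℝ, B = fun x => ∫ s in (0 : ℝ)..x, b s ^ 2 := ⟨_, rfl⟩
  have hBc : Continuous B := by
    rw [hB]
    exact intervalIntegral.continuous_primitive hi 0
  have hBs : ∀ x y, B y - B x = ∫ s in x..y, b s ^ 2 := by
    intro x y
    rw [hB]
    exact intervalIntegral.integral_interval_sub_left (hi _ _) (hi _ _)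
  have hBm : ∀ x y, x ≤ y → B x ≤ B y := by
    intro x y hxy
    have h2 := hBs x y
    have h3 : 0 ≤ ∫ s in x..y, b s ^ 2 := intervalIntegral.integral_nonneg hxy fun s _ => sq_nonneg _
    linarith
  have hpt : ∀ x : ℝ, Df h w x ^ 2 ≤ h * (B (x + h) - B x) := by
    intro x
    have h2 := en_CS (show x ≤ x + h by linarith) (en_loc mb _ _) (hi _ _)
    rw [← ftc, ← hBs] at h2
    have h3 : x + h - x = h := by ring
    rw [h3] at h2
    exact h2
  have hDc : Continuous (Df h w) := (cw.comp (continuous_id.add continuous_const)).sub cw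
  have hBh : Continuous fun x => B (x + h) := hBc.comp (continuous_id.add continuous_const)
  have h4 : ∫ x in (21 / 5 : ℝ)..(29 / 5), Df h w x ^ 2 ≤
      ∫ x in (21 / 5 : ℝ)..(29 / 5), h * (B (x + h) - B x) :=
    intervalIntegral.integral_mono_on (by norm_num) ((hDc.pow 2).intervalIntegrable _ _)
      ((continuous_const.mul (hBh.sub hBc)).intervalIntegrable _ _) fun x _ => hpt x
  have h5 : ∫ x in (21 / 5 : ℝ)..(29 / 5), h * (B (x + h) - B x) =
      h * ((∫ x in (29 / 5 : ℝ)..(29 / 5 + h), B x) - ∫ x in (21 / 5 : ℝ)..(21 / 5 + h), B x) := by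
    rw [intervalIntegral.integral_const_mul,
      intervalIntegral.integral_sub (hBh.intervalIntegrable _ _) (hBc.intervalIntegrable _ _),
      intervalIntegral.integral_comp_add_right (fun x => B x) h]
    congr 1
    have e1 : (∫ x in (21 / 5 : ℝ)..(21 / 5 + h), B x) + ∫ x in (21 / 5 + h)..(29 / 5 + h), B x =
        ∫ x in (21 / 5 : ℝ)..(29 / 5 + h), B x :=
      intervalIntegral.integral_add_adjacent_intervals (hBc.intervalIntegrable _ _)
        (hBc.intervalIntegrable _ _)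
    have e2 : (∫ x in (21 / 5 : ℝ)..(29 / 5), B x) + ∫ x in (29 / 5 : ℝ)..(29 / 5 + h), B x =
        ∫ x in (21 / 5 : ℝ)..(29 / 5 + h), B x :=
      intervalIntegral.integral_add_adjacent_intervals (hBc.intervalIntegrable _ _)
        (hBc.intervalIntegrable _ _)
    linarith
  have h6 : ∫ x in (29 / 5 : ℝ)..(29 / 5 + h), B x ≤ h * B (29 / 5 + h) := by
    have := intervalIntegral.integral_mono_on (μ := volume) (show (29 / 5 : ℝ) ≤ 29 / 5 + h by linarith)
      (hBc.intervalIntegrable _ _) (intervalIntegrable_const (c := B (29 / 5 + h)))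
      fun x hx => hBm _ _ hx.2
    rw [intervalIntegral.integral_const, smul_eq_mul] at this
    linarith [show (29 / 5 + h - 29 / 5) * B (29 / 5 + h) = h * B (29 / 5 + h) by ring]
  have h7 : h * B (21 / 5) ≤ ∫ x in (21 / 5 : ℝ)..(21 / 5 + h), B x := by
    have := intervalIntegral.integral_mono_on (μ := volume) (show (21 / 5 : ℝ) ≤ 21 / 5 + h by linarith)
      (intervalIntegrable_const (c := B (21 / 5))) (hBc.intervalIntegrable _ _)
      fun x hx => hBm _ _ hx.1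
    rw [intervalIntegral.integral_const, smul_eq_mul] at this
    linarith [show (21 / 5 + h - 21 / 5) * B (21 / 5) = h * B (21 / 5) by ring]
  have h8 : B (29 / 5 + h) - B (21 / 5) ≤ η ^ 2 := by
    rw [hBs]
    exact (en_sub (fun x => sq_nonneg _) hi (by norm_num) (by linarith) (by linarith)).trans hb
  calc ∫ x in (21 / 5 : ℝ)..(29 / 5), Df h w x ^ 2
      ≤ h * ((∫ x in (29 / 5 : ℝ)..(29 / 5 + h), B x) - ∫ x in (21 / 5 : ℝ)..(21 / 5 + h), B x) := by
        rw [← h5]; exact h4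
    _ ≤ h * (h * B (29 / 5 + h) - h * B (21 / 5)) :=
        mul_le_mul_of_nonneg_left (by linarith) h0.le
    _ = h ^ 2 * (B (29 / 5 + h) - B (21 / 5)) := by ring
    _ ≤ h ^ 2 * η ^ 2 := mul_le_mul_of_nonneg_left h8 (sq_nonneg h)

theorem en_dist {x : ℝ} (hx : x ∉ Icc (21 / 5 : ℝ) (29 / 5)) : 4 / 5 < |x - 5| := by
  rw [mem_Icc, not_and_or, not_le, not_le] at hx
  rw [lt_abs]
  rcases hx with h | h
  · right; linarith
  · left; linarith

theorem en_S {u β : ℝ → ℝ} {C1 : ℝ} (hC1 : ∀ x, |deriv ch x| ≤ C1) (hβ : MemLp β 2)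
    (uc : Continuous u) (hu : ∀ x y : ℝ, u y - u x = ∫ s in x..y, β s) :
    ∀ x ∈ Icc (21 / 5 : ℝ) (29 / 5), (ch x * u x) ^ 2 ≤ 16 / 5 *
      (C1 ^ 2 * (∫ x in (21 / 5 : ℝ)..(29 / 5), u x ^ 2) + ∫ x, β x ^ 2 * ch x ^ 2) := by
  intro x hx
  have h1 := en_prod hβ en_ch_smooth hu (21 / 5) x
  have hz : ch (21 / 5) = 0 := en_ch_zero (by rw [le_abs]; right; norm_num)
  rw [hz, zero_mul, sub_zero] at h1
  have m1 : MemLp (fun s => deriv ch s * u s) 2 :=
    (en_dch_cont.mul uc).memLp_of_hasCompactSupport en_dch_supp.mul_right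
  have m2 : MemLp (fun s => ch s * β s) 2 := by
    refine hβ.of_le (en_ch_cont.aestronglyMeasurable.mul hβ.1) (ae_of_all _ fun s => ?_)
    rw [norm_mul]
    have h2 : ‖ch s‖ ≤ 1 := by
      rw [Real.norm_of_nonneg (en_ch_nonneg s)]
      exact en_ch_le s
    nlinarith [norm_nonneg (β s)]
  have m3 : MemLp (fun s => deriv ch s * u s + ch s * β s) 2 := m1.add m2
  have h2 := en_CS hx.1 (en_loc m3 _ _) (en_loc2 m3 _ _)
  rw [h1] at h2
  have h3 : ∫ s in (21 / 5 : ℝ)..x, (deriv ch s * u s + ch s * β s) ^ 2 ≤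
      ∫ s in (21 / 5 : ℝ)..(29 / 5), (deriv ch s * u s + ch s * β s) ^ 2 :=
    en_sub (fun s => sq_nonneg _) (en_loc2 m3) le_rfl hx.1 hx.2
  have h4 : ∫ s in (21 / 5 : ℝ)..(29 / 5), (deriv ch s * u s + ch s * β s) ^ 2 ≤
      ∫ s in (21 / 5 : ℝ)..(29 / 5), (2 * C1 ^ 2 * u s ^ 2 + 2 * (ch s * β s) ^ 2) := by
    refine intervalIntegral.integral_mono_on (by norm_num) (en_loc2 m3 _ _)
      (((continuous_const.mul (uc.pow 2)).intervalIntegrable _ _).add
        ((en_loc2 m2 _ _).const_mul 2)) fun s _ => ?_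
    have h5 : (deriv ch s) ^ 2 ≤ C1 ^ 2 := by
      rw [← sq_abs (deriv ch s)]
      exact pow_le_pow_left₀ (abs_nonneg _) (hC1 s) 2
    nlinarith [sq_nonneg (deriv ch s * u s - ch s * β s), mul_le_mul_of_nonneg_right h5 (sq_nonneg (u s))]
  have iu : IntervalIntegrable (fun s => 2 * C1 ^ 2 * u s ^ 2) volume (21 / 5) (29 / 5) :=
    (continuous_const.mul (uc.pow 2)).intervalIntegrable _ _
  have h5 : ∫ s in (21 / 5 : ℝ)..(29 / 5), (2 * C1 ^ 2 * u s ^ 2 + 2 * (ch s * β s) ^ 2) =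
      2 * C1 ^ 2 * (∫ x in (21 / 5 : ℝ)..(29 / 5), u x ^ 2) +
        2 * ∫ s in (21 / 5 : ℝ)..(29 / 5), (ch s * β s) ^ 2 := by
    rw [intervalIntegral.integral_add iu
        ((en_loc2 m2 _ _).const_mul 2), intervalIntegral.integral_const_mul,
      intervalIntegral.integral_const_mul]
  have h6 : ∫ s in (21 / 5 : ℝ)..(29 / 5), (ch s * β s) ^ 2 = ∫ x, β x ^ 2 * ch x ^ 2 := by
    rw [en_restr (f := fun x => β x ^ 2 * ch x ^ 2) (show (21 / 5 : ℝ) ≤ 29 / 5 by norm_num)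
      fun x hx => by rw [en_ch_zero (en_dist hx).le]; ring]
    refine intervalIntegral.integral_congr fun s _ => ?_
    ring
  rw [h6] at h5
  have h7 : 0 ≤ ∫ s in (21 / 5 : ℝ)..(29 / 5), (deriv ch s * u s + ch s * β s) ^ 2 :=
    intervalIntegral.integral_nonneg (by norm_num) fun s _ => sq_nonneg _
  calc (ch x * u x) ^ 2
      ≤ (x - 21 / 5) * ∫ s in (21 / 5 : ℝ)..x, (deriv ch s * u s + ch s * β s) ^ 2 := h2
    _ ≤ (x - 21 / 5) * ∫ s in (21 / 5 : ℝ)..(29 / 5), (deriv ch s * u s + ch s * β s) ^ 2 :=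
        mul_le_mul_of_nonneg_left h3 (by linarith [hx.1])
    _ ≤ 8 / 5 * ∫ s in (21 / 5 : ℝ)..(29 / 5), (deriv ch s * u s + ch s * β s) ^ 2 :=
        mul_le_mul_of_nonneg_right (by linarith [hx.2]) h7
    _ ≤ _ := by linarith

/-- the estimate at a fixed time -/
theorem en_fix {C1 δ η : ℝ} (hC1 : ∀ x, |deriv ch x| ≤ C1) (hδ : 0 < δ)
    (hη1 : η ^ 2 ≤ 1) (hη2 : (1 + 2 / δ) * (16 / 5) * η ^ 2 ≤ δ / 8) {w b c : ℝ → ℝ} {h : ℝ}
    (mb : MemLp b 2) (mc : MemLp c 2) (cw : Continuous w)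
    (ftc : ∀ x y : ℝ, w y - w x = ∫ s in x..y, b s)
    (hw : ∀ x ∈ Icc (4 : ℝ) 6, -(3 * δ / 2) ≤ w x ∧ w x ≤ -(δ / 2))
    (hb : ∫ x in (4 : ℝ)..6, b x ^ 2 ≤ η ^ 2) (h0 : 0 < h) (h1 : h ≤ 1 / 10) :
    3 / 4 * (∫ x, Df h c x ^ 2 * ch x ^ 2) + δ / 8 * (∫ x, Df h b x ^ 2 * ch x ^ 2) -
        (31 + 6 * δ + (18 * δ + 1) * C1 ^ 2 + δ / 8 * C1 ^ 2) * h ^ 2 ≤
      (∫ x, Df h c x ^ 2 * ch x ^ 2) - 5 * (∫ x, Df h c x * (ch x ^ 2 * Df h w x)) -
        (∫ x, Df h (fun y => w y * b y) x *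
          (2 * ch x * deriv ch x * Df h w x + ch x ^ 2 * Df h b x)) +
        (∫ x, Df h (fun y => 2 * w y ^ 2 - 6 * w y) x * (ch x ^ 2 * Df h w x)) ∧
    (∫ x, ch x ^ 2 * Df h w x ^ 2) ≤ h ^ 2 := by
  obtain ⟨u, hu⟩ : ∃ u, u = Df h w := ⟨_, rfl⟩
  obtain ⟨β, hβ⟩ : ∃ β, β = Df h b := ⟨_, rfl⟩
  obtain ⟨γ, hγ⟩ : ∃ γ, γ = Df h c := ⟨_, rfl⟩
  have mβ : MemLp β 2 := by rw [hβ]; exact en_Df_mem mb h
  have mγ : MemLp γ 2 := by rw [hγ]; exact en_Df_mem mc h
  have wh : Continuous fun x => w (x + h) := cw.comp (continuous_id.add continuous_const)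
  have uc : Continuous u := by rw [hu]; exact wh.sub cw
  have uftc : ∀ x y : ℝ, u y - u x = ∫ s in x..y, β s := by
    intro x y
    have e1 : ∫ s in x..y, b (s + h) = ∫ s in (x + h)..(y + h), b s :=
      intervalIntegral.integral_comp_add_right b h
    have i1 : IntervalIntegrable (fun s => b (s + h)) volume x y :=
      en_loc (mb.comp_measurePreserving (measurePreserving_add_right volume h)) x y
    have e2 : ∫ s in x..y, β s = (∫ s in x..y, b (s + h)) - ∫ s in x..y, b s := by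
      rw [hβ]
      exact intervalIntegral.integral_sub i1 (en_loc mb x y)
    rw [e2, e1, ← ftc, ← ftc, hu]
    unfold Df
    ring
  rw [← hu, ← hβ, ← hγ]
  have hP : ∫ x in (21 / 5 : ℝ)..(29 / 5), u x ^ 2 ≤ h ^ 2 := by
    rw [hu]
    refine (en_P mb cw ftc hb h0 h1).trans ?_
    nlinarith [sq_nonneg h]
  have hP0 : 0 ≤ ∫ x in (21 / 5 : ℝ)..(29 / 5), u x ^ 2 :=
    intervalIntegral.integral_nonneg (by norm_num) fun x _ => sq_nonneg _
  obtain ⟨P, hPd⟩ : ∃ P, P = ∫ x in (21 / 5 : ℝ)..(29 / 5), u x ^ 2 := ⟨_, rfl⟩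
  rw [← hPd] at hP hP0
  obtain ⟨Y, hYd⟩ : ∃ Y, Y = ∫ x, β x ^ 2 * ch x ^ 2 := ⟨_, rfl⟩
  obtain ⟨X, hXd⟩ : ∃ X, X = ∫ x, γ x ^ 2 * ch x ^ 2 := ⟨_, rfl⟩
  have hY0 : 0 ≤ Y := by rw [hYd]; exact integral_nonneg fun x => by positivity
  have hS := en_S hC1 mβ uc uftc
  rw [← hPd, ← hYd] at hS
  -- supports
  have s1 : HasCompactSupport fun x => ch x ^ 2 :=
    HasCompactSupport.intro (isCompact_Icc (a := (21 / 5 : ℝ)) (b := 29 / 5))
      fun x hx => by rw [en_ch_zero (en_dist hx).le]; ring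
  have cc := en_ch_cont
  have cd := en_dch_cont
  -- the four small integrals
  have i1 : Integrable fun x => γ x ^ 2 * ch x ^ 2 := by
    have := en_L2 mγ mγ (cc.pow 2) s1
    refine this.congr (ae_of_all _ fun x => ?_)
    change γ x * γ x * ch x ^ 2 = γ x ^ 2 * ch x ^ 2
    ring
  have i2 : Integrable fun x => β x ^ 2 * ch x ^ 2 := by
    have := en_L2 mβ mβ (cc.pow 2) s1
    refine this.congr (ae_of_all _ fun x => ?_)
    change β x * β x * ch x ^ 2 = β x ^ 2 * ch x ^ 2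
    ring
  have i3 : Integrable fun x => ch x ^ 2 * u x ^ 2 :=
    ((cc.pow 2).mul (uc.pow 2)).integrable_of_hasCompactSupport s1.mul_right
  have s2 : HasCompactSupport fun x => deriv ch x ^ 2 :=
    HasCompactSupport.intro (isCompact_Icc (a := (21 / 5 : ℝ)) (b := 29 / 5))
      fun x hx => by rw [en_dch_zero (en_dist hx)]; ring
  have i4 : Integrable fun x => deriv ch x ^ 2 * u x ^ 2 :=
    ((cd.pow 2).mul (uc.pow 2)).integrable_of_hasCompactSupport s2.mul_right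
  have i5 : Integrable fun x => b x ^ 2 * (ch x ^ 2 * u x ^ 2) := by
    have := en_L2 mb mb ((cc.pow 2).mul (uc.pow 2)) s1.mul_right
    refine this.congr (ae_of_all _ fun x => ?_)
    change b x * b x * (ch x ^ 2 * u x ^ 2) = b x ^ 2 * (ch x ^ 2 * u x ^ 2)
    ring
  have b3 : ∫ x, ch x ^ 2 * u x ^ 2 ≤ P := by
    rw [en_restr (f := fun x => ch x ^ 2 * u x ^ 2) (show (21 / 5 : ℝ) ≤ 29 / 5 by norm_num)
      fun x hx => by rw [en_ch_zero (en_dist hx).le]; ring, hPd]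
    refine intervalIntegral.integral_mono_on (by norm_num)
      (((cc.pow 2).mul (uc.pow 2)).intervalIntegrable _ _) ((uc.pow 2).intervalIntegrable _ _)
      fun x _ => ?_
    have h2 : ch x ^ 2 ≤ 1 := by nlinarith [en_ch_nonneg x, en_ch_le x]
    change ch x ^ 2 * u x ^ 2 ≤ u x ^ 2
    nlinarith [mul_le_mul_of_nonneg_right h2 (sq_nonneg (u x))]
  have b4 : ∫ x, deriv ch x ^ 2 * u x ^ 2 ≤ C1 ^ 2 * P := by
    rw [en_restr (f := fun x => deriv ch x ^ 2 * u x ^ 2) (show (21 / 5 : ℝ) ≤ 29 / 5 by norm_num)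
      fun x hx => by rw [en_dch_zero (en_dist hx)]; ring, hPd,
      ← intervalIntegral.integral_const_mul]
    refine intervalIntegral.integral_mono_on (by norm_num)
      (((cd.pow 2).mul (uc.pow 2)).intervalIntegrable _ _)
      ((continuous_const.mul (uc.pow 2)).intervalIntegrable _ _) fun x _ => ?_
    have h5 : (deriv ch x) ^ 2 ≤ C1 ^ 2 := by
      rw [← sq_abs (deriv ch x)]
      exact pow_le_pow_left₀ (abs_nonneg _) (hC1 x) 2
    exact mul_le_mul_of_nonneg_right h5 (sq_nonneg (u x))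
  have b5 : ∫ x, b x ^ 2 * (ch x ^ 2 * u x ^ 2) ≤ 16 / 5 * (C1 ^ 2 * P + Y) * η ^ 2 := by
    have hS0 : 0 ≤ 16 / 5 * (C1 ^ 2 * P + Y) := by positivity
    rw [en_restr (f := fun x => b x ^ 2 * (ch x ^ 2 * u x ^ 2))
      (show (21 / 5 : ℝ) ≤ 29 / 5 by norm_num)
      fun x hx => by rw [en_ch_zero (en_dist hx).le]; ring]
    calc ∫ x in (21 / 5 : ℝ)..(29 / 5), b x ^ 2 * (ch x ^ 2 * u x ^ 2)
        ≤ ∫ x in (21 / 5 : ℝ)..(29 / 5), 16 / 5 * (C1 ^ 2 * P + Y) * b x ^ 2 := by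
          refine intervalIntegral.integral_mono_on (by norm_num) i5.intervalIntegrable
            ((en_loc2 mb _ _).const_mul _) fun x hx => ?_
          have h2 := hS x hx
          rw [mul_pow] at h2
          change b x ^ 2 * (ch x ^ 2 * u x ^ 2) ≤ 16 / 5 * (C1 ^ 2 * P + Y) * b x ^ 2
          nlinarith [mul_le_mul_of_nonneg_left h2 (sq_nonneg (b x))]
      _ = 16 / 5 * (C1 ^ 2 * P + Y) * ∫ x in (21 / 5 : ℝ)..(29 / 5), b x ^ 2 :=
          intervalIntegral.integral_const_mul _ _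
      _ ≤ 16 / 5 * (C1 ^ 2 * P + Y) * η ^ 2 := by
          refine mul_le_mul_of_nonneg_left (le_trans ?_ hb) hS0
          exact en_sub (fun x => sq_nonneg _) (en_loc2 mb) (by norm_num) (by norm_num) (by norm_num)
  refine ⟨?_, b3.trans hP⟩
  -- the integrands
  have j2 : Integrable fun x => γ x * (ch x ^ 2 * u x) := en_L1 mγ ((cc.pow 2).mul uc) s1.mul_right
  have k3 : (fun x => Df h (fun y => w y * b y) x *
      (2 * ch x * deriv ch x * u x + ch x ^ 2 * β x)) = fun x =>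
      β x * (w (x + h) * (2 * ch x * deriv ch x * u x)) + β x * β x * (w (x + h) * ch x ^ 2) +
        b x * (u x * (2 * ch x * deriv ch x * u x)) + b x * β x * (ch x ^ 2 * u x) := by
    funext x
    have e1 : Df h (fun y => w y * b y) x = w (x + h) * β x + u x * b x := by
      rw [hβ, hu]
      unfold Df
      ring
    rw [e1]
    ring
  have s3 : HasCompactSupport fun x => 2 * ch x * deriv ch x * u x :=
    HasCompactSupport.intro (isCompact_Icc (a := (21 / 5 : ℝ)) (b := 29 / 5))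
      fun x hx => by rw [en_dch_zero (en_dist hx)]; ring
  have c3 : Continuous fun x => 2 * ch x * deriv ch x * u x :=
    ((continuous_const.mul cc).mul cd).mul uc
  have t1 : Integrable fun x => β x * (w (x + h) * (2 * ch x * deriv ch x * u x)) :=
    en_L1 mβ (wh.mul c3) s3.mul_left
  have t2 : Integrable fun x => β x * β x * (w (x + h) * ch x ^ 2) :=
    en_L2 mβ mβ (wh.mul (cc.pow 2)) s1.mul_left
  have t3 : Integrable fun x => b x * (u x * (2 * ch x * deriv ch x * u x)) :=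
    en_L1 mb (uc.mul c3) s3.mul_left
  have t4 : Integrable fun x => b x * β x * (ch x ^ 2 * u x) :=
    en_L2 mb mβ ((cc.pow 2).mul uc) s1.mul_right
  have j3 : Integrable fun x => Df h (fun y => w y * b y) x *
      (2 * ch x * deriv ch x * u x + ch x ^ 2 * β x) := by
    rw [k3]
    exact ((t1.add t2).add t3).add t4
  have j4 : Integrable fun x => Df h (fun y => 2 * w y ^ 2 - 6 * w y) x * (ch x ^ 2 * u x) := by
    have c5 : Continuous fun y => 2 * w y ^ 2 - 6 * w y :=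
      (continuous_const.mul (cw.pow 2)).sub (continuous_const.mul cw)
    have c4 : Continuous (Df h (fun y => 2 * w y ^ 2 - 6 * w y)) :=
      (c5.comp (continuous_id.add continuous_const)).sub c5
    have s4 : HasCompactSupport fun x => ch x ^ 2 * u x := s1.mul_right
    exact (c4.mul ((cc.pow 2).mul uc)).integrable_of_hasCompactSupport s4.mul_left
  have m1 : Integrable fun x => γ x ^ 2 * ch x ^ 2 - 5 * (γ x * (ch x ^ 2 * u x)) :=
    i1.sub (j2.const_mul 5)
  have m2 : Integrable fun x => γ x ^ 2 * ch x ^ 2 - 5 * (γ x * (ch x ^ 2 * u x)) -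
      Df h (fun y => w y * b y) x * (2 * ch x * deriv ch x * u x + ch x ^ 2 * β x) := m1.sub j3
  have n1 : Integrable fun x => 3 / 4 * (γ x ^ 2 * ch x ^ 2) + δ / 4 * (β x ^ 2 * ch x ^ 2) :=
    (i1.const_mul _).add (i2.const_mul _)
  have n2 : Integrable fun x => 3 / 4 * (γ x ^ 2 * ch x ^ 2) + δ / 4 * (β x ^ 2 * ch x ^ 2) -
      (31 + 6 * δ) * (ch x ^ 2 * u x ^ 2) := n1.sub (i3.const_mul _)
  have n3 : Integrable fun x => 3 / 4 * (γ x ^ 2 * ch x ^ 2) + δ / 4 * (β x ^ 2 * ch x ^ 2) -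
      (31 + 6 * δ) * (ch x ^ 2 * u x ^ 2) - (18 * δ + 1) * (deriv ch x ^ 2 * u x ^ 2) :=
    n2.sub (i4.const_mul _)
  have n4 : Integrable fun x => 3 / 4 * (γ x ^ 2 * ch x ^ 2) + δ / 4 * (β x ^ 2 * ch x ^ 2) -
      (31 + 6 * δ) * (ch x ^ 2 * u x ^ 2) - (18 * δ + 1) * (deriv ch x ^ 2 * u x ^ 2) -
      (1 + 2 / δ) * (b x ^ 2 * (ch x ^ 2 * u x ^ 2)) := n3.sub (i5.const_mul _)
  have hJ : ∫ x, (γ x ^ 2 * ch x ^ 2 - 5 * (γ x * (ch x ^ 2 * u x)) -
        Df h (fun y => w y * b y) x * (2 * ch x * deriv ch x * u x + ch x ^ 2 * β x) +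
        Df h (fun y => 2 * w y ^ 2 - 6 * w y) x * (ch x ^ 2 * u x)) =
      (∫ x, γ x ^ 2 * ch x ^ 2) - 5 * (∫ x, γ x * (ch x ^ 2 * u x)) -
        (∫ x, Df h (fun y => w y * b y) x *
          (2 * ch x * deriv ch x * u x + ch x ^ 2 * β x)) +
        (∫ x, Df h (fun y => 2 * w y ^ 2 - 6 * w y) x * (ch x ^ 2 * u x)) := by
    rw [integral_add m2 j4, integral_sub m1 j3, integral_sub i1 (j2.const_mul 5),
      integral_const_mul]
  have hL : ∫ x, (3 / 4 * (γ x ^ 2 * ch x ^ 2) + δ / 4 * (β x ^ 2 * ch x ^ 2) -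
        (31 + 6 * δ) * (ch x ^ 2 * u x ^ 2) - (18 * δ + 1) * (deriv ch x ^ 2 * u x ^ 2) -
        (1 + 2 / δ) * (b x ^ 2 * (ch x ^ 2 * u x ^ 2))) =
      3 / 4 * X + δ / 4 * Y - (31 + 6 * δ) * (∫ x, ch x ^ 2 * u x ^ 2) -
        (18 * δ + 1) * (∫ x, deriv ch x ^ 2 * u x ^ 2) -
        (1 + 2 / δ) * ∫ x, b x ^ 2 * (ch x ^ 2 * u x ^ 2) := by
    rw [integral_sub n3 (i5.const_mul _), integral_sub n2 (i4.const_mul _),
      integral_sub n1 (i3.const_mul _),
      integral_add (i1.const_mul _) (i2.const_mul _), integral_const_mul, integral_const_mul,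
      integral_const_mul, integral_const_mul, integral_const_mul, hXd, hYd]
  have hLJ : ∫ x, (3 / 4 * (γ x ^ 2 * ch x ^ 2) + δ / 4 * (β x ^ 2 * ch x ^ 2) -
        (31 + 6 * δ) * (ch x ^ 2 * u x ^ 2) - (18 * δ + 1) * (deriv ch x ^ 2 * u x ^ 2) -
        (1 + 2 / δ) * (b x ^ 2 * (ch x ^ 2 * u x ^ 2))) ≤
      ∫ x, (γ x ^ 2 * ch x ^ 2 - 5 * (γ x * (ch x ^ 2 * u x)) -
        Df h (fun y => w y * b y) x * (2 * ch x * deriv ch x * u x + ch x ^ 2 * β x) +
        Df h (fun y => 2 * w y ^ 2 - 6 * w y) x * (ch x ^ 2 * u x)) := by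
    refine integral_mono n4 (m2.add j4) fun x => ?_
    change 3 / 4 * (γ x ^ 2 * ch x ^ 2) + δ / 4 * (β x ^ 2 * ch x ^ 2) -
        (31 + 6 * δ) * (ch x ^ 2 * u x ^ 2) - (18 * δ + 1) * (deriv ch x ^ 2 * u x ^ 2) -
        (1 + 2 / δ) * (b x ^ 2 * (ch x ^ 2 * u x ^ 2)) ≤
      γ x ^ 2 * ch x ^ 2 - 5 * (γ x * (ch x ^ 2 * u x)) -
        Df h (fun y => w y * b y) x * (2 * ch x * deriv ch x * u x + ch x ^ 2 * β x) +
        Df h (fun y => 2 * w y ^ 2 - 6 * w y) x * (ch x ^ 2 * u x)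
    have e1 : Df h (fun y => w y * b y) x = w (x + h) * β x + u x * b x := by
      rw [hβ, hu]
      unfold Df
      ring
    have e2 : Df h (fun y => 2 * w y ^ 2 - 6 * w y) x = u x * (2 * (w (x + h) + w x) - 6) := by
      rw [hu]
      unfold Df
      ring
    rw [e1, e2]
    by_cases hx : x ∈ Icc (21 / 5 : ℝ) (29 / 5)
    · have w1 := hw x ⟨by linarith [hx.1], by linarith [hx.2]⟩
      have w2 := hw (x + h) ⟨by linarith [hx.1], by linarith [hx.2]⟩
      generalize w (x + h) = p at *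
      generalize w x = r at *
      generalize γ x = G at *
      generalize β x = B at *
      generalize u x = U at *
      generalize ch x = q at *
      generalize deriv ch x = q' at *
      generalize b x = z at *
      have a1 : 0 ≤ q ^ 2 * (G / 2 - 5 * U) ^ 2 := by positivity
      have a2 : 0 ≤ δ / 8 * (q * B) ^ 2 - 2 * p * (q * B) * (q' * U) + 18 * δ * (q' * U) ^ 2 := by
        have f1 : |2 * p| ≤ 3 * δ := by
          rw [abs_le]
          constructor <;> linarith [w2.1, w2.2]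
        have f2 : 2 * p * (q * B) * (q' * U) ≤ 3 * δ * (|q * B| * |q' * U|) := by
          calc 2 * p * (q * B) * (q' * U) = (2 * p) * ((q * B) * (q' * U)) := by ring
            _ ≤ |(2 * p) * ((q * B) * (q' * U))| := le_abs_self _
            _ = |2 * p| * (|q * B| * |q' * U|) := by rw [abs_mul, abs_mul (q * B)]
            _ ≤ 3 * δ * (|q * B| * |q' * U|) := mul_le_mul_of_nonneg_right f1 (by positivity)
        have f3 : 0 ≤ δ / 8 * (|q * B| - 12 * |q' * U|) ^ 2 := by positivity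
        rw [← sq_abs (q * B), ← sq_abs (q' * U)]
        nlinarith [f2, f3]
      have a3 : 0 ≤ (-p - δ / 2) * (q ^ 2 * B ^ 2) :=
        mul_nonneg (by linarith [w2.2]) (by positivity)
      have a4 : 0 ≤ (q' * U - z * q * U) ^ 2 := sq_nonneg _
      have a5 : 0 ≤ δ / 8 * (q ^ 2 * B ^ 2) - U * z * q ^ 2 * B + 2 / δ * (z ^ 2 * (q ^ 2 * U ^ 2)) := by
        have f4 : δ / 8 * (q ^ 2 * B ^ 2) - U * z * q ^ 2 * B + 2 / δ * (z ^ 2 * (q ^ 2 * U ^ 2)) =
            δ / 8 * (q ^ 2 * (B - 4 / δ * (z * U)) ^ 2) := by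
          field_simp
          ring
        rw [f4]
        positivity
      have a6 : 0 ≤ (2 * (p + r) + 6 * δ) * (q ^ 2 * U ^ 2) :=
        mul_nonneg (by linarith [w1.1, w2.1]) (by positivity)
      nlinarith [a1, a2, a3, a4, a5, a6]
    · rw [en_ch_zero (en_dist hx).le, en_dch_zero (en_dist hx)]
      have e3 : 3 / 4 * (γ x ^ 2 * (0 : ℝ) ^ 2) + δ / 4 * (β x ^ 2 * (0 : ℝ) ^ 2) -
          (31 + 6 * δ) * ((0 : ℝ) ^ 2 * u x ^ 2) - (18 * δ + 1) * ((0 : ℝ) ^ 2 * u x ^ 2) -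
          (1 + 2 / δ) * (b x ^ 2 * ((0 : ℝ) ^ 2 * u x ^ 2)) = 0 := by ring
      rw [e3]
      apply le_of_eq
      ring
  rw [hJ, hL] at hLJ
  rw [← hXd] at hLJ ⊢
  refine le_trans ?_ hLJ
  have q1 : (31 + 6 * δ) * (∫ x, ch x ^ 2 * u x ^ 2) ≤ (31 + 6 * δ) * P :=
    mul_le_mul_of_nonneg_left b3 (by positivity)
  have q2 : (18 * δ + 1) * (∫ x, deriv ch x ^ 2 * u x ^ 2) ≤ (18 * δ + 1) * (C1 ^ 2 * P) :=
    mul_le_mul_of_nonneg_left b4 (by positivity)
  have q3 : (1 + 2 / δ) * (∫ x, b x ^ 2 * (ch x ^ 2 * u x ^ 2)) ≤ δ / 8 * (C1 ^ 2 * P + Y) := by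
    calc (1 + 2 / δ) * (∫ x, b x ^ 2 * (ch x ^ 2 * u x ^ 2))
        ≤ (1 + 2 / δ) * (16 / 5 * (C1 ^ 2 * P + Y) * η ^ 2) :=
          mul_le_mul_of_nonneg_left b5 (by positivity)
      _ = ((1 + 2 / δ) * (16 / 5) * η ^ 2) * (C1 ^ 2 * P + Y) := by ring
      _ ≤ δ / 8 * (C1 ^ 2 * P + Y) := mul_le_mul_of_nonneg_right hη2 (by positivity)
  have q4 : (31 + 6 * δ + (18 * δ + 1) * C1 ^ 2 + δ / 8 * C1 ^ 2) * P ≤
      (31 + 6 * δ + (18 * δ + 1) * C1 ^ 2 + δ / 8 * C1 ^ 2) * h ^ 2 :=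
    mul_le_mul_of_nonneg_left hP (by positivity)
  rw [← hYd]
  nlinarith [q1, q2, q3, q4]

theorem en_int {f : ℝ → ℝ} (mf : MemLp f 2) : Integrable fun x => f x ^ 2 * ch x ^ 2 := by
  have s1 : HasCompactSupport fun x => ch x ^ 2 :=
    HasCompactSupport.intro (isCompact_Icc (a := (21 / 5 : ℝ)) (b := 29 / 5))
      fun x hx => by rw [en_ch_zero (en_dist hx).le]; ring
  have := en_L2 mf mf (en_ch_cont.pow 2) s1
  refine this.congr (ae_of_all _ fun x => ?_)
  change f x * f x * ch x ^ 2 = f x ^ 2 * ch x ^ 2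
  ring

theorem en_FF {w c : ℝ → ℝ} (mc : MemLp c 2) (cw : Continuous w) (h s : ℝ) {t : ℝ} (ht : 0 < t) :
    2 / t * s * (∫ x, Df h c x * (ch x ^ 2 * Df h w x)) ≤
      1 / 2 * s ^ 2 * (∫ x, Df h c x ^ 2 * ch x ^ 2) +
        2 / t ^ 2 * ∫ x, ch x ^ 2 * Df h w x ^ 2 := by
  have uc : Continuous (Df h w) := (cw.comp (continuous_id.add continuous_const)).sub cw
  have mγ := en_Df_mem mc h
  have s1 : HasCompactSupport fun x => ch x ^ 2 :=
    HasCompactSupport.intro (isCompact_Icc (a := (21 / 5 : ℝ)) (b := 29 / 5))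
      fun x hx => by rw [en_ch_zero (en_dist hx).le]; ring
  have i1 := en_int mγ
  have i2 : Integrable fun x => Df h c x * (ch x ^ 2 * Df h w x) :=
    en_L1 mγ ((en_ch_cont.pow 2).mul uc) s1.mul_right
  have i3 : Integrable fun x => ch x ^ 2 * Df h w x ^ 2 :=
    ((en_ch_cont.pow 2).mul (uc.pow 2)).integrable_of_hasCompactSupport s1.mul_right
  rw [← integral_const_mul, ← integral_const_mul, ← integral_const_mul,
    ← integral_add (i1.const_mul _) (i3.const_mul _)]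
  refine integral_mono (i2.const_mul _) ((i1.const_mul _).add (i3.const_mul _)) fun x => ?_
  change 2 / t * s * (Df h c x * (ch x ^ 2 * Df h w x)) ≤
    1 / 2 * s ^ 2 * (Df h c x ^ 2 * ch x ^ 2) + 2 / t ^ 2 * (ch x ^ 2 * Df h w x ^ 2)
  have e : 1 / 2 * s ^ 2 * (Df h c x ^ 2 * ch x ^ 2) + 2 / t ^ 2 * (ch x ^ 2 * Df h w x ^ 2) -
      2 / t * s * (Df h c x * (ch x ^ 2 * Df h w x)) =
      1 / 2 * (ch x ^ 2 * (s * Df h c x - 2 * Df h w x / t) ^ 2) := by
    field_simp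
    ring
  have e2 : 0 ≤ 1 / 2 * (ch x ^ 2 * (s * Df h c x - 2 * Df h w x / t) ^ 2) := by positivity
  linarith

theorem en_I {f : ℝ → ℝ} (mf : MemLp f 2) :
    ∫ x in (4.5 : ℝ)..5.5, f x ^ 2 ≤ ∫ x, f x ^ 2 * ch x ^ 2 := by
  have i1 := en_int mf
  rw [en_restr (f := fun x => f x ^ 2 * ch x ^ 2) (show (21 / 5 : ℝ) ≤ 29 / 5 by norm_num)
      fun x hx => by rw [en_ch_zero (en_dist hx).le]; ring]
  have e1 : ∫ x in (4.5 : ℝ)..5.5, f x ^ 2 = ∫ x in (4.5 : ℝ)..5.5, f x ^ 2 * ch x ^ 2 := by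
    refine intervalIntegral.integral_congr fun x hx => ?_
    rw [uIcc_of_le (by norm_num)] at hx
    have h1 : |x - 5| ≤ 1 / 2 := by
      rw [abs_le]
      constructor
      · have := hx.1
        norm_num at this
        linarith
      · have := hx.2
        norm_num at this
        linarith
    change f x ^ 2 = f x ^ 2 * ch x ^ 2
    rw [en_ch_one h1]
    ring
  rw [e1]
  exact en_sub (fun x => by positivity) (fun a b => i1.intervalIntegrable) (by norm_num)
    (by norm_num) (by norm_num)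

/-- job EN -/
theorem en1 (h1 : S_SUP) (h2 : S_F) : S_EN := by
  intro w b c hS δ κ hI
  have hI' := hI
  obtain ⟨hδ, hκ, hw0, hc0⟩ := hI'
  obtain ⟨C1, hC1⟩ := en_dch_cont.bounded_above_of_compact_support en_dch_supp
  have hC1' : ∀ x, |deriv ch x| ≤ C1 := fun x => hC1 x
  obtain ⟨A, hA⟩ : ∃ A, A = (1 + 2 / δ) * (16 / 5) := ⟨_, rfl⟩
  have hA0 : 0 < A := by rw [hA]; positivity
  obtain ⟨η, hη⟩ : ∃ η, η = min (min 1 (δ / 2)) (δ / (8 * A)) := ⟨_, rfl⟩
  have hη0 : 0 < η := by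
    rw [hη]
    exact lt_min (lt_min one_pos (by positivity)) (by positivity)
  have hηa : η ≤ 1 := by rw [hη]; exact (min_le_left _ _).trans (min_le_left _ _)
  have hηb : η ≤ δ / 2 := by rw [hη]; exact (min_le_left _ _).trans (min_le_right _ _)
  have hηc : η ≤ δ / (8 * A) := by rw [hη]; exact min_le_right _ _
  have hη1 : η ^ 2 ≤ 1 := by nlinarith
  have hη2 : (1 + 2 / δ) * (16 / 5) * η ^ 2 ≤ δ / 8 := by
    rw [← hA]
    calc A * η ^ 2 ≤ A * η := mul_le_mul_of_nonneg_left (by nlinarith) hA0.le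
      _ ≤ A * (δ / (8 * A)) := mul_le_mul_of_nonneg_left hηc hA0.le
      _ = δ / 8 := by field_simp
  obtain ⟨t0, ht0, hsup⟩ := (h1 w b c hS).2 δ κ hI η hη0
  obtain ⟨C, hC⟩ : ∃ C, C = 31 + 6 * δ + (18 * δ + 1) * C1 ^ 2 + δ / 8 * C1 ^ 2 + 2 / t0 ^ 2 :=
    ⟨_, rfl⟩
  have hC0 : 0 < C := by rw [hC]; positivity
  refine ⟨t0 / 2, 4 * (4 + 8 / δ) * (C * t0), by positivity, by positivity, fun h hh0 hh1 => ?_⟩
  obtain ⟨cF, cG, hFG⟩ := h2 w b c hS h hh0 hh1
  -- the value at time zero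
  have hF0 : FF w c h 0 = 0 := by
    unfold FF
    have : ∀ x, Df h (c 0) x * (ch x ^ 2 * Df h (w 0) x) = 0 := by
      intro x
      by_cases hx : x ∈ Icc (21 / 5 : ℝ) (29 / 5)
      · have e1 := hw0 x ⟨by linarith [hx.1], by linarith [hx.2]⟩
        have e2 := hw0 (x + h) ⟨by linarith [hx.1], by linarith [hx.2]⟩
        have e3 : Df h (w 0) x = 0 := by
          unfold Df
          rw [e1, e2]
          ring
        rw [e3]
        ring
      · rw [en_ch_zero (en_dist hx).le]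
        ring
    simp only [this, integral_zero]
  -- the pointwise inequality
  have hpt : ∀ τ ∈ Icc 0 t0, (1 - τ / t0) ^ 2 * (1 / 4 * (∫ x, Df h (c τ) x ^ 2 * ch x ^ 2) +
      δ / 8 * ∫ x, Df h (b τ) x ^ 2 * ch x ^ 2) ≤
      (1 - τ / t0) ^ 2 * GG w b c h τ - 2 / t0 * (1 - τ / t0) * FF w c h τ + C * h ^ 2 := by
    intro τ hτ
    obtain ⟨hs1, hs2⟩ := hsup τ hτ
    have hw : ∀ x ∈ Icc (4 : ℝ) 6, -(3 * δ / 2) ≤ w τ x ∧ w τ x ≤ -(δ / 2) := by
      intro x hx
      have e1 := hs1 x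
      rw [hw0 x hx, abs_le] at e1
      constructor <;> linarith [e1.1, e1.2]
    obtain ⟨f1, f2⟩ := en_fix hC1' hδ hη1 hη2 (hS.mb τ hτ.1) (hS.mc τ hτ.1) (hS.cw τ hτ.1)
      (hS.ftc τ hτ.1) hw hs2 hh0 hh1
    have f3 := en_FF (hS.mc τ hτ.1) (hS.cw τ hτ.1) h (1 - τ / t0) ht0
    have f4 : GG w b c h τ = (∫ x, Df h (c τ) x ^ 2 * ch x ^ 2) -
        5 * (∫ x, Df h (c τ) x * (ch x ^ 2 * Df h (w τ) x)) -
        (∫ x, Df h (fun y => w τ y * b τ y) x *
          (2 * ch x * deriv ch x * Df h (w τ) x + ch x ^ 2 * Df h (b τ) x)) +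
        (∫ x, Df h (fun y => 2 * w τ y ^ 2 - 6 * w τ y) x * (ch x ^ 2 * Df h (w τ) x)) := rfl
    rw [← f4] at f1
    have f5 : FF w c h τ = ∫ x, Df h (c τ) x * (ch x ^ 2 * Df h (w τ) x) := rfl
    rw [← f5] at f3
    have hθ0 : 0 ≤ 1 - τ / t0 := by
      have : τ / t0 ≤ 1 := (div_le_one ht0).2 hτ.2
      linarith
    have hθ1 : 1 - τ / t0 ≤ 1 := by
      have : 0 ≤ τ / t0 := div_nonneg hτ.1 ht0.le
      linarith
    have hθ2 : (1 - τ / t0) ^ 2 ≤ 1 := by nlinarith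
    generalize 1 - τ / t0 = θ at *
    generalize (∫ x, Df h (c τ) x ^ 2 * ch x ^ 2) = X at *
    generalize (∫ x, Df h (b τ) x ^ 2 * ch x ^ 2) = Y at *
    generalize GG w b c h τ = G at *
    generalize FF w c h τ = F at *
    have g1 : θ ^ 2 * (3 / 4 * X + δ / 8 * Y -
        (31 + 6 * δ + (18 * δ + 1) * C1 ^ 2 + δ / 8 * C1 ^ 2) * h ^ 2) ≤ θ ^ 2 * G :=
      mul_le_mul_of_nonneg_left f1 (sq_nonneg θ)
    have g2 : θ ^ 2 * ((31 + 6 * δ + (18 * δ + 1) * C1 ^ 2 + δ / 8 * C1 ^ 2) * h ^ 2) ≤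
        1 * ((31 + 6 * δ + (18 * δ + 1) * C1 ^ 2 + δ / 8 * C1 ^ 2) * h ^ 2) :=
      mul_le_mul_of_nonneg_right hθ2 (by positivity)
    have g3 : 2 / t0 ^ 2 * (∫ x, ch x ^ 2 * Df h (w τ) x ^ 2) ≤ 2 / t0 ^ 2 * h ^ 2 :=
      mul_le_mul_of_nonneg_left f2 (by positivity)
    rw [hC]
    nlinarith [g1, g2, g3, f3]
  have hR0 : ∀ τ ∈ Icc 0 t0,
      0 ≤ (1 - τ / t0) ^ 2 * GG w b c h τ - 2 / t0 * (1 - τ / t0) * FF w c h τ + C * h ^ 2 := by
    intro τ hτ
    refine le_trans ?_ (hpt τ hτ)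
    have e1 : 0 ≤ ∫ x, Df h (c τ) x ^ 2 * ch x ^ 2 := integral_nonneg fun x => by positivity
    have e2 : 0 ≤ ∫ x, Df h (b τ) x ^ 2 * ch x ^ 2 := integral_nonneg fun x => by positivity
    positivity
  have hIcc : Icc 0 t0 ⊆ Ici (0 : ℝ) := fun x hx => hx.1
  have cθ : Continuous fun τ : ℝ => 1 - τ / t0 := by fun_prop
  have cR0 : ContinuousOn (fun τ => (1 - τ / t0) ^ 2 * GG w b c h τ -
      2 / t0 * (1 - τ / t0) * FF w c h τ) (Icc 0 t0) :=
    ((cθ.pow 2).continuousOn.mul (cG.mono hIcc)).sub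
      ((continuous_const.mul cθ).continuousOn.mul (cF.mono hIcc))
  have iR0 : IntervalIntegrable (fun τ => (1 - τ / t0) ^ 2 * GG w b c h τ -
      2 / t0 * (1 - τ / t0) * FF w c h τ) volume 0 t0 :=
    ContinuousOn.intervalIntegrable (by rw [uIcc_of_le ht0.le]; exact cR0)
  have hzero : ∫ τ in (0 : ℝ)..t0, ((1 - τ / t0) ^ 2 * GG w b c h τ -
      2 / t0 * (1 - τ / t0) * FF w c h τ) = 0 := by
    have e1 := intervalIntegral.integral_eq_sub_of_hasDerivAt_of_le
      (f := fun τ => (1 - τ / t0) ^ 2 * FF w c h τ) ht0.le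
      ((cθ.pow 2).continuousOn.mul (cF.mono hIcc)) (f' := fun τ => (1 - τ / t0) ^ 2 * GG w b c h τ -
      2 / t0 * (1 - τ / t0) * FF w c h τ) (fun τ hτ => ?_) iR0
    · rw [e1]
      simp only [div_self ht0.ne', sub_self, zero_div, sub_zero]
      rw [hF0]
      ring
    · have d1 : HasDerivAt (FF w c h) (GG w b c h τ) τ := by
        have hG : ContinuousAt (GG w b c h) τ := cG.continuousAt (Ici_mem_nhds hτ.1)
        have hm : StronglyMeasurableAtFilter (GG w b c h) (𝓝 τ) volume :=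
          ContinuousOn.stronglyMeasurableAtFilter isOpen_Ioi (cG.mono Ioi_subset_Ici_self) τ hτ.1
        have hi : IntervalIntegrable (GG w b c h) volume 0 τ := by
          apply ContinuousOn.intervalIntegrable
          rw [uIcc_of_le hτ.1.le]
          exact cG.mono fun x hx => hx.1
        have h3 := intervalIntegral.integral_hasDerivAt_right hi hm hG
        refine h3.congr_of_eventuallyEq ?_
        filter_upwards [Ioi_mem_nhds hτ.1] with s hs
        have := hFG s (le_of_lt hs)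
        rw [hF0, sub_zero] at this
        exact this
      have d2 : HasDerivAt (fun s : ℝ => (1 - s / t0) ^ 2) (2 * (1 - τ / t0) * (-(1 / t0))) τ := by
        have d3 : HasDerivAt (fun s : ℝ => 1 - s / t0) (-(1 / t0)) τ := by
          have := ((hasDerivAt_id τ).div_const t0).const_sub 1
          simpa using this
        have := d3.fun_pow 2
        simpa using this
      have d4 := d2.mul d1
      refine d4.congr_deriv ?_
      ring
  have hint : ∫ τ in (0 : ℝ)..t0, ((1 - τ / t0) ^ 2 * GG w b c h τ -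
      2 / t0 * (1 - τ / t0) * FF w c h τ + C * h ^ 2) = C * h ^ 2 * t0 := by
    rw [intervalIntegral.integral_add iR0 intervalIntegrable_const, hzero,
      intervalIntegral.integral_const, smul_eq_mul]
    ring
  obtain ⟨R, hR⟩ : ∃ R : ℝ → ℝ, R = fun τ => (1 - τ / t0) ^ 2 * GG w b c h τ -
      2 / t0 * (1 - τ / t0) * FF w c h τ + C * h ^ 2 := ⟨_, rfl⟩
  have cR : ContinuousOn R (Icc 0 t0) := by
    rw [hR]
    exact cR0.add continuousOn_const
  have iR : ∀ a b : ℝ, 0 ≤ a → a ≤ b → b ≤ t0 → IntervalIntegrable R volume a b := by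
    intro a b ha hab hb
    apply ContinuousOn.intervalIntegrable
    rw [uIcc_of_le hab]
    exact cR.mono fun x hx => ⟨ha.trans hx.1, hx.2.trans hb⟩
  have hRpos : ∀ τ ∈ Icc 0 t0, 0 ≤ R τ := by
    intro τ hτ
    rw [hR]
    exact hR0 τ hτ
  have hRint : ∫ τ in (0 : ℝ)..t0, R τ = C * h ^ 2 * t0 := by
    rw [hR]
    exact hint
  have hsplit : (∫ τ in (0 : ℝ)..(t0 / 2), R τ) + ∫ τ in (t0 / 2)..t0, R τ =
      ∫ τ in (0 : ℝ)..t0, R τ :=
    intervalIntegral.integral_add_adjacent_intervals (iR _ _ le_rfl (by linarith) (by linarith))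
      (iR _ _ (by linarith) (by linarith) le_rfl)
  have hsec : 0 ≤ ∫ τ in (t0 / 2)..t0, R τ :=
    intervalIntegral.integral_nonneg (by linarith) fun τ hτ => hRpos τ ⟨by linarith [hτ.1], hτ.2⟩
  have hfirst : ∫ τ in (0 : ℝ)..(t0 / 2), R τ ≤ C * h ^ 2 * t0 := by linarith
  have hκ0 : 0 < 4 * (4 + 8 / δ) := by positivity
  by_cases hIi : IntervalIntegrable (fun τ => (∫ x in (4.5 : ℝ)..5.5, Df h (c τ) x ^ 2) +
      ∫ x in (4.5 : ℝ)..5.5, Df h (b τ) x ^ 2) volume 0 (t0 / 2)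
  · calc ∫ τ in (0 : ℝ)..(t0 / 2), ((∫ x in (4.5 : ℝ)..5.5, Df h (c τ) x ^ 2) +
          ∫ x in (4.5 : ℝ)..5.5, Df h (b τ) x ^ 2)
        ≤ ∫ τ in (0 : ℝ)..(t0 / 2), 4 * (4 + 8 / δ) * R τ := by
          refine intervalIntegral.integral_mono_on (by linarith) hIi
            ((iR _ _ le_rfl (by linarith) (by linarith)).const_mul _) fun τ hτ => ?_
          have hτ' : τ ∈ Icc 0 t0 := ⟨hτ.1, by linarith [hτ.2]⟩
          have e1 := en_I (en_Df_mem (hS.mc τ hτ.1) h)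
          have e2 := en_I (en_Df_mem (hS.mb τ hτ.1) h)
          have e3 := hpt τ hτ'
          have e4 : R τ = (1 - τ / t0) ^ 2 * GG w b c h τ -
            2 / t0 * (1 - τ / t0) * FF w c h τ + C * h ^ 2 := by rw [hR]
          rw [← e4] at e3
          have e5 : 0 ≤ ∫ x, Df h (c τ) x ^ 2 * ch x ^ 2 := integral_nonneg fun x => by positivity
          have e6 : 0 ≤ ∫ x, Df h (b τ) x ^ 2 * ch x ^ 2 := integral_nonneg fun x => by positivity
          have e7 : 1 / 4 ≤ (1 - τ / t0) ^ 2 := by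
            have : τ / t0 ≤ 1 / 2 := by
              rw [div_le_iff₀ ht0]
              linarith [hτ.2]
            nlinarith
          generalize (1 - τ / t0) ^ 2 = q at *
          generalize (∫ x, Df h (c τ) x ^ 2 * ch x ^ 2) = X at *
          generalize (∫ x, Df h (b τ) x ^ 2 * ch x ^ 2) = Y at *
          have e8 : X + Y ≤ (4 + 8 / δ) * (1 / 4 * X + δ / 8 * Y) := by
            have f1 : (4 + 8 / δ) * (1 / 4 * X + δ / 8 * Y) =
                X + Y + (2 / δ * X + δ / 2 * Y) := by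
              field_simp
              ring
            rw [f1]
            have : 0 ≤ 2 / δ * X + δ / 2 * Y := by positivity
            linarith
          have e9 : 0 ≤ 1 / 4 * X + δ / 8 * Y := by positivity
          have e10 : 1 / 4 * (1 / 4 * X + δ / 8 * Y) ≤ R τ :=
            (mul_le_mul_of_nonneg_right e7 e9).trans e3
          have e11 : (4 + 8 / δ) * (1 / 4 * X + δ / 8 * Y) ≤ (4 + 8 / δ) * (4 * R τ) :=
            mul_le_mul_of_nonneg_left (by linarith) (by positivity)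
          change (∫ x in (4.5 : ℝ)..5.5, Df h (c τ) x ^ 2) +
            (∫ x in (4.5 : ℝ)..5.5, Df h (b τ) x ^ 2) ≤ 4 * (4 + 8 / δ) * R τ
          linarith
      _ = 4 * (4 + 8 / δ) * ∫ τ in (0 : ℝ)..(t0 / 2), R τ :=
          intervalIntegral.integral_const_mul _ _
      _ ≤ 4 * (4 + 8 / δ) * (C * h ^ 2 * t0) := mul_le_mul_of_nonneg_left hfirst hκ0.le
      _ = 4 * (4 + 8 / δ) * (C * t0) * h ^ 2 := by ring
  · rw [intervalIntegral.integral_undef hIi]
    positivity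

end Pool.Agent.Q82.CW
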