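import Pool.Agent.Q127.DJ.Stm

/-!
# Project DJ, job LTW (helper123)

The weighted Cauchy-Schwarz inequality `S_ltw` of project DJ, from `S_ce1`, `S_inn` and `S_mar`.
-/

set_option autoImplicit false

namespace Pool.Agent.Q123.DJ_LTW

open MeasureTheory Pool.Agent.Q127.DJ

theorem factor_bounds {e p q : ℝ} (he0 : 0 ≤ e) (he1 : e ≤ 1) (hp : |p| ≤ 1) (hq : |q| ≤ 1) :
    0 ≤ 1 + e * p * q ∧ 1 + e * p * q ≤ 2 := by
  have h1 : |e * p * q| ≤ 1 := by
    rw [abs_mul, abs_mul, abs_of_nonneg he0]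
    have h2 : e * |p| ≤ 1 := mul_le_one₀ he1 (abs_nonneg _) hp
    exact mul_le_one₀ h2 (abs_nonneg _) hq
  have h3 := abs_le.1 h1
  constructor <;> linarith [h3.1, h3.2]

theorem ltw (_h1 : S_ce1) (h2 : S_inn) (h3 : S_mar) : S_ltw := by
  intro μ ν _ _ m k f h a b e C C' T U u v he0 he1 hu hv
  have hgm : ∀ t, Measurable (g μ f a t) := fun t => (h2 μ m f a t).2.1.1
  have hgb : ∀ t x, |g μ f a t x| ≤ 1 := fun t => (h2 μ m f a t).2.1.2
  have hhm : ∀ t, Measurable (g ν h b t) := fun t => (h2 ν k h b t).2.1.1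
  have hhb : ∀ t x, |g ν h b t x| ≤ 1 := fun t => (h2 ν k h b t).2.1.2
  set F : (ℕ → ℕ) × (ℕ → ℕ) → ℝ := fun p => D μ ν f h a b e T U p.1 p.2 with hF
  have hFm : Measurable F := by
    simp only [hF, D]
    refine Finset.measurable_prod _ (fun t _ => ?_)
    exact measurable_const.add ((measurable_const.mul ((hgm t).comp measurable_fst)).mul ((hhm t).comp measurable_snd))
  have hF0 : ∀ p, 0 ≤ F p := fun p =>
    Finset.prod_nonneg (fun t _ => (factor_bounds he0 he1 (hgb t p.1) (hhb t p.2)).1)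
  have hF2 : ∀ p, F p ≤ ∏ _t ∈ Finset.Ico T U, (2 : ℝ) := fun p =>
    Finset.prod_le_prod (fun t _ => (factor_bounds he0 he1 (hgb t p.1) (hhb t p.2)).1)
      (fun t _ => (factor_bounds he0 he1 (hgb t p.1) (hhb t p.2)).2)
  set K : ℝ := ∏ _t ∈ Finset.Ico T U, (2 : ℝ) with hK
  have hK0 : 0 ≤ K := Finset.prod_nonneg (fun _ _ => by norm_num)
  have hFabs : ∀ p, |F p| ≤ K := fun p => by rw [abs_of_nonneg (hF0 p)]; exact hF2 p
  -- the marginals
  have hy : ∀ x, ∫ y, F (x, y) ∂ν = 1 := by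
    intro x
    have := h3 ν k h b (fun t => e * g μ f a t x) T U (fun t => by
      rw [abs_mul, abs_of_nonneg he0]; exact mul_le_one₀ he1 (abs_nonneg _) (hgb t x))
    simpa only [hF, D] using this
  have hx : ∀ y, ∫ x, F (x, y) ∂μ = 1 := by
    intro y
    have := h3 μ m f a (fun t => e * g ν h b t y) T U (fun t => by
      rw [abs_mul, abs_of_nonneg he0]; exact mul_le_one₀ he1 (abs_nonneg _) (hhb t y))
    rw [← this]
    refine integral_congr_ae (Filter.Eventually.of_forall (fun x => ?_))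
    simp only [hF, D]
    refine Finset.prod_congr rfl (fun t _ => ?_)
    ring
  -- integrability
  have hC0 : 0 ≤ C := (abs_nonneg _).trans (hu.2 (fun _ => 0))
  have hC0' : 0 ≤ C' := (abs_nonneg _).trans (hv.2 (fun _ => 0))
  have hi : ∀ (φ : (ℕ → ℕ) × (ℕ → ℕ) → ℝ) (c : ℝ), Measurable φ → (∀ p, |φ p| ≤ c) →
      Integrable (fun p => φ p * F p) (μ.prod ν) := by
    intro φ c hφ hc
    refine Integrable.of_bound (hφ.mul hFm).aestronglyMeasurable (c * K) (Filter.Eventually.of_forall (fun p => ?_))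
    rw [Real.norm_eq_abs, abs_mul]
    exact mul_le_mul (hc p) (hFabs p) (abs_nonneg _) ((abs_nonneg _).trans (hc p))
  have hum : Measurable (fun p : (ℕ → ℕ) × (ℕ → ℕ) => u p.1) := hu.1.comp measurable_fst
  have hvm : Measurable (fun p : (ℕ → ℕ) × (ℕ → ℕ) => v p.2) := hv.1.comp measurable_snd
  have hsq : ∀ (z c : ℝ), |z| ≤ c → |z ^ 2| ≤ c ^ 2 := by
    intro z c hz
    rw [abs_pow]
    exact pow_le_pow_left₀ (abs_nonneg _) hz 2
  have iA := hi (fun p => u p.1 ^ 2) (C ^ 2) (hum.pow_const 2) (fun p => hsq _ _ (hu.2 p.1))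
  have iC := hi (fun p => v p.2 ^ 2) (C' ^ 2) (hvm.pow_const 2) (fun p => hsq _ _ (hv.2 p.2))
  have iB := hi (fun p => u p.1 * v p.2) (C * C') (hum.mul hvm) (fun p => by
    rw [abs_mul]; exact mul_le_mul (hu.2 p.1) (hv.2 p.2) (abs_nonneg _) hC0)
  -- values
  have eA : ∫ p, u p.1 ^ 2 * F p ∂(μ.prod ν) = ∫ x, u x ^ 2 ∂μ := by
    rw [integral_prod _ iA]
    refine integral_congr_ae (Filter.Eventually.of_forall (fun x => ?_))
    simp only
    rw [integral_const_mul, hy x, mul_one]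
  have eC : ∫ p, v p.2 ^ 2 * F p ∂(μ.prod ν) = ∫ y, v y ^ 2 ∂ν := by
    rw [integral_prod_symm _ iC]
    refine integral_congr_ae (Filter.Eventually.of_forall (fun y => ?_))
    simp only
    rw [integral_const_mul, hx y, mul_one]
  have eB : ∫ p, u p.1 * v p.2 * F p ∂(μ.prod ν) = ∫ x, ∫ y, u x * v y * D μ ν f h a b e T U x y ∂ν ∂μ :=
    integral_prod _ iB
  rw [← eB, ← eA, ← eC]
  set A' : ℝ := ∫ p, u p.1 ^ 2 * F p ∂(μ.prod ν) with hA'
  set B' : ℝ := ∫ p, u p.1 * v p.2 * F p ∂(μ.prod ν) with hB'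
  set G' : ℝ := ∫ p, v p.2 ^ 2 * F p ∂(μ.prod ν) with hG'
  have hA0 : 0 ≤ A' := integral_nonneg (fun p => mul_nonneg (sq_nonneg _) (hF0 p))
  have hquad : ∀ s : ℝ, 0 ≤ A' * (s * s) + (2 * B') * s + G' := by
    intro s
    have hs : 0 ≤ ∫ p, (s * u p.1 + v p.2) ^ 2 * F p ∂(μ.prod ν) :=
      integral_nonneg (fun p => mul_nonneg (sq_nonneg _) (hF0 p))
    have he : ∫ p, (s * u p.1 + v p.2) ^ 2 * F p ∂(μ.prod ν) = A' * (s * s) + (2 * B') * s + G' := by
      have h4 : (fun p : (ℕ → ℕ) × (ℕ → ℕ) => (s * u p.1 + v p.2) ^ 2 * F p) = fun p =>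
          ((s * s) * (u p.1 ^ 2 * F p) + (2 * s) * (u p.1 * v p.2 * F p)) + v p.2 ^ 2 * F p := by
        funext p; ring
      have j1 : Integrable (fun p : (ℕ → ℕ) × (ℕ → ℕ) => (s * s) * (u p.1 ^ 2 * F p)) (μ.prod ν) := iA.const_mul _
      have j2 : Integrable (fun p : (ℕ → ℕ) × (ℕ → ℕ) => (2 * s) * (u p.1 * v p.2 * F p)) (μ.prod ν) := iB.const_mul _
      have j3 : Integrable (fun p : (ℕ → ℕ) × (ℕ → ℕ) =>
          (s * s) * (u p.1 ^ 2 * F p) + (2 * s) * (u p.1 * v p.2 * F p)) (μ.prod ν) := j1.add j2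
      rw [h4, integral_add j3 iC, integral_add j1 j2, integral_const_mul, integral_const_mul]
      ring
    rw [he] at hs
    exact hs
  have hd := discrim_le_zero hquad
  unfold discrim at hd
  rw [← Real.sqrt_mul hA0]
  refine Real.abs_le_sqrt ?_
  nlinarith [hd]

end Pool.Agent.Q123.DJ_LTW
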