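import Mathlib

/-!
Counting lemmas for the decay number bound.
-/

namespace Q123.Decay

open Finset

variable {V C : Type*} [Fintype V] [DecidableEq V] [DecidableEq C]

/-- vertices whose colour lies in `S` -/
def VS {m : ℕ} (f : V → Fin m) (S : Finset (Fin m)) : Finset V :=
  univ.filter (fun v => f v ∈ S)

omit [DecidableEq V] in
lemma mem_VS {m : ℕ} (f : V → Fin m) (S : Finset (Fin m)) (v : V) :
    v ∈ VS f S ↔ f v ∈ S := by simp [VS]

/-- edges of `A` inside a vertex set -/
def inside (A : Finset (Sym2 V)) (W : Finset V) : Finset (Sym2 V) :=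
  A.filter (fun e => ∀ v ∈ e, v ∈ W)

lemma mem_inside (A : Finset (Sym2 V)) (W : Finset V) (e : Sym2 V) :
    e ∈ inside A W ↔ e ∈ A ∧ ∀ v ∈ e, v ∈ W := by simp [inside]

/-- edges of `A` across two vertex sets -/
def across (A : Finset (Sym2 V)) (U W : Finset V) : Finset (Sym2 V) :=
  A.filter (fun e => (∃ v ∈ e, v ∈ U) ∧ (∃ v ∈ e, v ∈ W))

lemma mem_across (A : Finset (Sym2 V)) (U W : Finset V) (e : Sym2 V) :
    e ∈ across A U W ↔ e ∈ A ∧ (∃ v ∈ e, v ∈ U) ∧ (∃ v ∈ e, v ∈ W) := by simp [across]

/-- a clique touching `p` components contains at least `p choose 2` edges of `A` -/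
lemma choose_le_inside (G : SimpleGraph V) (g : V → C) (A : Finset (Sym2 V))
    (hA : ∀ u v, G.Adj u v → g u ≠ g v → s(u, v) ∈ A) (W : Finset V)
    (hW : ∀ u ∈ W, ∀ v ∈ W, u ≠ v → G.Adj u v) :
    (W.image g).card.choose 2 ≤ (inside A W).card := by
  classical
  obtain ⟨R, hRW, hRg, hinj⟩ : ∃ R ⊆ W, R.image g = W.image g ∧ Set.InjOn g R := by
    obtain ⟨R, hR, hb⟩ := (Set.surjOn_image g (W : Set V)).exists_bijOn_subset
    have hfin : R.Finite := W.finite_toSet.subset hR
    refine ⟨hfin.toFinset, ?_, ?_, ?_⟩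
    · intro x hx
      exact Finset.mem_coe.1 (hR ((Set.Finite.mem_toFinset hfin).1 hx))
    · apply Finset.coe_injective
      rw [Finset.coe_image, Finset.coe_image, Set.Finite.coe_toFinset]
      exact hb.image_eq
    · rw [Set.Finite.coe_toFinset]
      exact hb.injOn
  rw [← hRg, Finset.card_image_of_injOn hinj, ← Sym2.card_image_offDiag]
  apply Finset.card_le_card
  intro e he
  rw [Finset.mem_image] at he
  obtain ⟨⟨x, y⟩, hxy, rfl⟩ := he
  rw [Finset.mem_offDiag] at hxy
  obtain ⟨hx, hy, hne⟩ := hxy
  rw [mem_inside]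
  refine ⟨hA x y (hW x (hRW hx) y (hRW hy) hne) ?_, ?_⟩
  · intro h
    exact hne (hinj (by simpa using hx) (by simpa using hy) h)
  · intro v hv
    rcases Sym2.mem_iff.1 hv with rfl | rfl
    · exact hRW hx
    · exact hRW hy

/-- splitting the edges inside a disjoint union -/
lemma inside_union (A : Finset (Sym2 V)) (U W : Finset V) (hUW : Disjoint U W) :
    (inside A U).card + (inside A W).card + (across A U W).card ≤
      (inside A (U ∪ W)).card + (across A U W \ inside A (U ∪ W)).card := by
  classical
  have h1 : Disjoint (inside A U) (inside A W) := by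
    rw [Finset.disjoint_left]
    intro e he he'
    rw [mem_inside] at he he'
    induction e using Sym2.ind with
    | _ x y =>
      exact Finset.disjoint_left.1 hUW (he.2 x (Sym2.mem_mk_left x y))
        (he'.2 x (Sym2.mem_mk_left x y))
  have h2 : Disjoint (inside A U ∪ inside A W) (across A U W) := by
    rw [Finset.disjoint_left]
    intro e he he'
    rw [mem_across] at he'
    obtain ⟨_, ⟨v, hv, hvU⟩, ⟨w, hw, hwW⟩⟩ := he'
    rw [Finset.mem_union, mem_inside, mem_inside] at he
    rcases he with h | h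
    · exact Finset.disjoint_left.1 hUW (h.2 w hw) hwW
    · exact Finset.disjoint_left.1 hUW hvU (h.2 v hv)
  rw [← Finset.card_union_of_disjoint h1, ← Finset.card_union_of_disjoint h2]
  have h3 : (inside A U ∪ inside A W) ∪ across A U W ⊆
      inside A (U ∪ W) ∪ (across A U W \ inside A (U ∪ W)) := by
    intro e he
    rw [Finset.mem_union, Finset.mem_union] at he
    rw [Finset.mem_union]
    rcases he with (h | h) | h
    · left
      rw [mem_inside] at h ⊢
      exact ⟨h.1, fun v hv => Finset.mem_union_left _ (h.2 v hv)⟩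
    · left
      rw [mem_inside] at h ⊢
      exact ⟨h.1, fun v hv => Finset.mem_union_right _ (h.2 v hv)⟩
    · by_cases hc : e ∈ inside A (U ∪ W)
      · left; exact hc
      · right; rw [Finset.mem_sdiff]; exact ⟨h, hc⟩
  exact (Finset.card_le_card h3).trans (Finset.card_union_le _ _)

lemma across_subset_inside (A : Finset (Sym2 V)) (U W : Finset V) (hUW : Disjoint U W) :
    across A U W ⊆ inside A (U ∪ W) := by
  classical
  intro e he
  rw [mem_across] at he
  obtain ⟨hA, ⟨v, hv, hvU⟩, ⟨w, hw, hwW⟩⟩ := he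
  rw [mem_inside]
  refine ⟨hA, ?_⟩
  have hne : v ≠ w := by
    rintro rfl
    exact Finset.disjoint_left.1 hUW hvU hwW
  have he : e = s(v, w) := ((Sym2.mem_and_mem_iff hne).1 ⟨hv, hw⟩)
  subst he
  intro x hx
  rcases Sym2.mem_iff.1 hx with rfl | rfl
  · exact Finset.mem_union_left _ hvU
  · exact Finset.mem_union_right _ hwW

lemma inside_union' (A : Finset (Sym2 V)) (U W : Finset V) (hUW : Disjoint U W) :
    (inside A U).card + (inside A W).card + (across A U W).card ≤
      (inside A (U ∪ W)).card := by
  have h := inside_union A U W hUW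
  rw [Finset.sdiff_eq_empty_iff_subset.2 (across_subset_inside A U W hUW)] at h
  simpa using h

omit [Fintype V] [DecidableEq V] [DecidableEq C] in
lemma key5 (t : ℕ) : 2 * (t : ℤ) - (t.choose 2 : ℤ) ≤ 3 := by
  rcases Nat.lt_or_ge t 5 with h | h
  · interval_cases t <;> simp [Nat.choose]
  · have : 2 * t ≤ t.choose 2 := by
      rw [Nat.choose_two_right, Nat.le_div_iff_mul_le (by norm_num)]
      obtain ⟨s, rfl⟩ := Nat.exists_eq_add_of_le h
      rw [show 5 + s - 1 = 4 + s by omega]
      nlinarith
    have h' : (2 * t : ℤ) ≤ (t.choose 2 : ℤ) := by exact_mod_cast this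
    linarith

omit [Fintype V] [DecidableEq V] [DecidableEq C] in
lemma key3 (t : ℕ) : 2 * (t : ℤ) - ((t + 1).choose 2 : ℤ) ≤ 1 := by
  rcases Nat.lt_or_ge t 3 with h | h
  · interval_cases t <;> simp [Nat.choose]
  · have : 2 * t ≤ (t + 1).choose 2 := by
      rw [Nat.choose_two_right, Nat.le_div_iff_mul_le (by norm_num)]
      obtain ⟨s, rfl⟩ := Nat.exists_eq_add_of_le h
      rw [show 3 + s + 1 - 1 = 3 + s by omega]
      nlinarith
    have h' : (2 * t : ℤ) ≤ ((t + 1).choose 2 : ℤ) := by exact_mod_cast this
    linarith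

/-- The extension step: adding a clique `W` to `U`.  If `k` edges of `G` cross from `U` to `W`
then the value grows by at most `2`, and by at most `1` if there are two crossing edges. -/
lemma step (G : SimpleGraph V) (g : V → C) (A : Finset (Sym2 V))
    (hA : ∀ u v, G.Adj u v → g u ≠ g v → s(u, v) ∈ A) (U W : Finset V) (hUW : Disjoint U W)
    (hW : ∀ u ∈ W, ∀ v ∈ W, u ≠ v → G.Adj u v)
    (X : Finset (Sym2 V)) (hX : ∀ e ∈ X, ∃ u ∈ U, ∃ w ∈ W, G.Adj u w ∧ e = s(u, w))
    (k : ℕ) (hk : k ≤ 2) (hXk : k ≤ X.card) :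
    2 * (((U ∪ W).image g).card : ℤ) - ((inside A (U ∪ W)).card : ℤ) ≤
      2 * ((U.image g).card : ℤ) - ((inside A U).card : ℤ) + (3 - k) := by
  classical
  have h1 := inside_union' A U W hUW
  have h2 := choose_le_inside G g A hA W hW
  have h3 : ((U ∪ W).image g).card = (U.image g).card + ((W.image g) \ (U.image g)).card := by
    rw [Finset.image_union, ← Finset.card_union_of_disjoint Finset.disjoint_sdiff,
      Finset.union_sdiff_self_eq_union]
  set t := ((W.image g) \ (U.image g)).card with ht
  by_cases hs : Disjoint (W.image g) (U.image g)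
  · -- no common component
    have hp : (W.image g).card = t := by
      rw [ht, Finset.sdiff_eq_self_of_disjoint hs]
    have hc : k ≤ (across A U W).card := by
      refine hXk.trans (Finset.card_le_card ?_)
      intro e he
      obtain ⟨u, hu, w, hw, hadj, rfl⟩ := hX e he
      rw [mem_across]
      refine ⟨hA u w hadj ?_, ⟨u, Sym2.mem_mk_left _ _, hu⟩, ⟨w, Sym2.mem_mk_right _ _, hw⟩⟩
      intro h
      exact Finset.disjoint_left.1 hs (Finset.mem_image_of_mem g hw)
        (h ▸ Finset.mem_image_of_mem g hu)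
    rw [hp] at h2
    have key := key5 t
    have h1' : ((inside A U).card : ℤ) + (t.choose 2 : ℤ) + k ≤ ((inside A (U ∪ W)).card : ℤ) := by
      have : (inside A U).card + t.choose 2 + k ≤ (inside A (U ∪ W)).card := by omega
      exact_mod_cast this
    rw [h3]
    push_cast
    linarith
  · -- a common component
    have hp : t + 1 ≤ (W.image g).card := by
      rw [Finset.not_disjoint_iff] at hs
      obtain ⟨x, hx, hx'⟩ := hs
      rw [ht]
      apply Finset.card_lt_card
      rw [Finset.ssubset_iff_of_subset Finset.sdiff_subset]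
      exact ⟨x, hx, by simp [hx']⟩
    have hch : (t + 1).choose 2 ≤ (inside A W).card := (Nat.choose_le_choose 2 hp).trans h2
    have key := key3 t
    have h1' : ((inside A U).card : ℤ) + ((t + 1).choose 2 : ℤ) ≤
        ((inside A (U ∪ W)).card : ℤ) := by
      have : (inside A U).card + (t + 1).choose 2 ≤ (inside A (U ∪ W)).card := by omega
      exact_mod_cast this
    have hk' : (k : ℤ) ≤ 2 := by exact_mod_cast hk
    rw [h3]
    push_cast
    linarith

lemma VS_insert {m : ℕ} (f : V → Fin m) (S : Finset (Fin m)) (i : Fin m) :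
    VS f (insert i S) = VS f S ∪ VS f {i} := by
  ext v
  simp only [mem_VS, Finset.mem_insert, Finset.mem_union, Finset.mem_singleton]
  tauto

omit [DecidableEq V] in
lemma VS_disjoint {m : ℕ} (f : V → Fin m) (S : Finset (Fin m)) (i : Fin m) (hi : i ∉ S) :
    Disjoint (VS f S) (VS f {i}) := by
  rw [Finset.disjoint_left]
  intro v hv hv'
  rw [mem_VS] at hv hv'
  rw [Finset.mem_singleton] at hv'
  exact hi (hv' ▸ hv)

lemma grow (G : SimpleGraph V) (g : V → C) (A : Finset (Sym2 V))
    (hA : ∀ u v, G.Adj u v → g u ≠ g v → s(u, v) ∈ A)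
    (hconn : ∀ U : Finset V, U.Nonempty → U ≠ univ → ∃ u ∈ U, ∃ w ∉ U, G.Adj u w)
    {m : ℕ} (f : V → Fin m) (hf : ∀ u v, u ≠ v → f u = f v → G.Adj u v) :
    ∀ n, 1 ≤ n → n ≤ (univ.image f).card → ∃ S ⊆ univ.image f, S.card = n ∧
      2 * (((VS f S).image g).card : ℤ) - ((inside A (VS f S)).card : ℤ) ≤ 2 * n + 1 := by
  intro n hn
  induction n, hn using Nat.le_induction with
  | base =>
    intro h1
    obtain ⟨i, hi⟩ := Finset.card_pos.1 (lt_of_lt_of_le Nat.zero_lt_one h1)
    refine ⟨{i}, by simpa using hi, by simp, ?_⟩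
    have h2 := choose_le_inside G g A hA (VS f {i}) (by
      intro u hu v hv huv
      rw [mem_VS, Finset.mem_singleton] at hu hv
      exact hf u v huv (hu.trans hv.symm))
    have h3 := key5 ((VS f {i}).image g).card
    have h4 : ((((VS f {i}).image g).card.choose 2 : ℕ) : ℤ) ≤
      ((inside A (VS f {i})).card : ℤ) := by exact_mod_cast h2
    push_cast
    linarith
  | succ n hn ih =>
    intro hle
    obtain ⟨S, hS, hcard, hval⟩ := ih (by omega)
    have hSne : S.Nonempty := by
      rw [← Finset.card_pos]; omega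
    have hne1 : (VS f S).Nonempty := by
      obtain ⟨i, hi⟩ := hSne
      obtain ⟨v, _, hv⟩ := Finset.mem_image.1 (hS hi)
      exact ⟨v, by rw [mem_VS, hv]; exact hi⟩
    have hne2 : VS f S ≠ univ := by
      intro h
      have : univ.image f ⊆ S := by
        intro i hi
        obtain ⟨v, _, hv⟩ := Finset.mem_image.1 hi
        have : v ∈ VS f S := by rw [h]; exact Finset.mem_univ v
        rw [mem_VS, hv] at this
        exact this
      have := Finset.card_le_card this
      omega
    obtain ⟨u, hu, w, hw, hadj⟩ := hconn _ hne1 hne2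
    have hwS : f w ∉ S := by rwa [mem_VS] at hw
    refine ⟨insert (f w) S, ?_, ?_, ?_⟩
    · intro i hi
      rcases Finset.mem_insert.1 hi with rfl | h
      · exact Finset.mem_image_of_mem f (Finset.mem_univ w)
      · exact hS h
    · rw [Finset.card_insert_of_notMem hwS, hcard]
    · rw [VS_insert]
      have := step G g A hA (VS f S) (VS f {f w}) (VS_disjoint f S _ hwS) (by
        intro a ha b hb hab
        rw [mem_VS, Finset.mem_singleton] at ha hb
        exact hf a b hab (ha.trans hb.symm)) {s(u, w)} (by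
        intro e he
        rw [Finset.mem_singleton] at he
        exact ⟨u, hu, w, by rw [mem_VS]; simp, hadj, he⟩) 1 (by norm_num) (by simp)
      push_cast at this ⊢
      linarith

lemma inside_univ (A : Finset (Sym2 V)) : inside A univ = A := by
  ext e; simp [mem_inside]

omit [DecidableEq V] in
lemma VS_image {m : ℕ} (f : V → Fin m) : VS f (univ.image f) = univ := by
  ext v; simp [mem_VS]

/-- the bound for connected graphs -/
lemma bound_one [Nonempty V] (G : SimpleGraph V) (g : V → C) (A : Finset (Sym2 V))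
    (hA : ∀ u v, G.Adj u v → g u ≠ g v → s(u, v) ∈ A)
    (hconn : ∀ U : Finset V, U.Nonempty → U ≠ univ → ∃ u ∈ U, ∃ w ∉ U, G.Adj u w)
    {m : ℕ} (f : V → Fin m) (hf : ∀ u v, u ≠ v → f u = f v → G.Adj u v) :
    2 * ((univ.image g).card : ℤ) - (A.card : ℤ) ≤ 2 * m + 1 := by
  have h1 : 1 ≤ (univ.image f).card := by
    rw [Nat.succ_le_iff, Finset.card_pos]
    exact Finset.image_nonempty.2 Finset.univ_nonempty
  obtain ⟨S, hS, hc, hv⟩ := grow G g A hA hconn f hf _ h1 le_rfl
  have hS' := Finset.eq_of_subset_of_card_le hS (by rw [hc])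
  subst hS'
  rw [VS_image, inside_univ] at hv
  have h2 : (univ.image f).card ≤ m := by
    simpa using Finset.card_le_univ (univ.image f)
  have h3 : ((univ.image f).card : ℤ) ≤ m := by exact_mod_cast h2
  linarith

/-- complete graphs -/
lemma bound_complete (G : SimpleGraph V) (g : V → C) (A : Finset (Sym2 V))
    (hA : ∀ u v, G.Adj u v → g u ≠ g v → s(u, v) ∈ A)
    (hcomp : ∀ u v, u ≠ v → G.Adj u v) (hV : Fintype.card V ≠ 3)
    (hcut : ∀ U : Finset V, U.Nonempty → U ≠ univ → ∃ X : Finset (Sym2 V), 2 ≤ X.card ∧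
      ∀ e ∈ X, ∃ u ∈ U, ∃ w ∉ U, G.Adj u w ∧ e = s(u, w)) :
    2 * ((univ.image g).card : ℤ) - (A.card : ℤ) ≤ 2 := by
  classical
  have hch := choose_le_inside G g A hA univ (fun u _ v _ h => hcomp u v h)
  rw [inside_univ] at hch
  obtain ⟨c, hc⟩ : ∃ c, c = (univ.image g).card := ⟨_, rfl⟩
  rw [← hc] at hch ⊢
  rcases Nat.lt_or_ge c 2 with h | h
  · have : (c : ℤ) ≤ 1 := by exact_mod_cast (by omega : c ≤ 1)
    have h0 : (0 : ℤ) ≤ (A.card : ℤ) := by positivity
    linarith
  rcases Nat.lt_or_ge c 4 with h4 | h4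
  · obtain rfl | rfl : c = 2 ∨ c = 3 := by omega
    · -- two components
      have : 2 ≤ A.card := by
        obtain ⟨x, y, hxy, hxy'⟩ := Finset.card_eq_two.1 hc.symm
        have hx : x ∈ univ.image g := by rw [hxy']; simp
        have hy : y ∈ univ.image g := by rw [hxy']; simp
        obtain ⟨v, _, hv⟩ := Finset.mem_image.1 hx
        obtain ⟨w, _, hw⟩ := Finset.mem_image.1 hy
        obtain ⟨X, hX, hX'⟩ := hcut (univ.filter (fun a => g a = x)) ⟨v, by simp [hv]⟩ (by
          intro h
          have : w ∈ univ.filter (fun a => g a = x) := by rw [h]; simp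
          simp only [Finset.mem_filter, Finset.mem_univ, true_and] at this
          exact hxy (this.symm.trans hw))
        refine hX.trans (Finset.card_le_card ?_)
        intro e he
        obtain ⟨a, ha, b, hb, hadj, rfl⟩ := hX' e he
        apply hA a b hadj
        simp only [Finset.mem_filter, Finset.mem_univ, true_and] at ha hb
        rw [ha]
        exact fun h => hb h.symm
      have : (2 : ℤ) ≤ (A.card : ℤ) := by exact_mod_cast this
      push_cast
      linarith
    · -- three components
      have : 4 ≤ A.card := by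
        obtain ⟨x', y', z', hxy, hxz, hyz, himg⟩ := Finset.card_eq_three.1 hc.symm
        have hx : x' ∈ univ.image g := by rw [himg]; simp
        have hy : y' ∈ univ.image g := by rw [himg]; simp
        have hz : z' ∈ univ.image g := by rw [himg]; simp
        obtain ⟨x, _, rfl⟩ := Finset.mem_image.1 hx
        obtain ⟨y, _, rfl⟩ := Finset.mem_image.1 hy
        obtain ⟨z, _, rfl⟩ := Finset.mem_image.1 hz
        have hxy0 : x ≠ y := fun h => hxy (by rw [h])
        have hxz0 : x ≠ z := fun h => hxz (by rw [h])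
        have hyz0 : y ≠ z := fun h => hyz (by rw [h])
        obtain ⟨w, hw⟩ : ∃ w, w ∉ ({x, y, z} : Finset V) := by
          by_contra hcon
          push Not at hcon
          have h1 : ({x, y, z} : Finset V) = univ := by
            ext v; simpa using hcon v
          apply hV
          rw [← Finset.card_univ, ← h1, Finset.card_eq_three]
          exact ⟨x, y, z, hxy0, hxz0, hyz0, rfl⟩
        simp only [Finset.mem_insert, Finset.mem_singleton, not_or] at hw
        obtain ⟨hwx, hwy, hwz⟩ := hw
        obtain ⟨v, hv, hvw⟩ : ∃ v, (v = x ∨ v = y) ∧ g w ≠ g v := by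
          by_cases h : g w = g x
          · exact ⟨y, Or.inr rfl, by rw [h]; exact hxy⟩
          · exact ⟨x, Or.inl rfl, h⟩
        have hwv : w ≠ v := fun h => hvw (by rw [h])
        have hsub : ({s(x, y), s(x, z), s(y, z), s(w, v)} : Finset (Sym2 V)) ⊆ A := by
          intro e he
          simp only [Finset.mem_insert, Finset.mem_singleton] at he
          rcases he with rfl | rfl | rfl | rfl
          · exact hA _ _ (hcomp _ _ hxy0) hxy
          · exact hA _ _ (hcomp _ _ hxz0) hxz
          · exact hA _ _ (hcomp _ _ hyz0) hyz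
          · exact hA _ _ (hcomp _ _ hwv) hvw
        refine le_trans ?_ (Finset.card_le_card hsub)
        rw [Finset.card_insert_of_notMem, Finset.card_insert_of_notMem,
          Finset.card_insert_of_notMem, Finset.card_singleton]
        · simp only [Finset.mem_singleton, Sym2.eq_iff]
          rintro (⟨rfl, _⟩ | ⟨_, rfl⟩)
          · exact hwy rfl
          · exact hwz rfl
        · simp only [Finset.mem_insert, Finset.mem_singleton, Sym2.eq_iff]
          rintro ((⟨h, _⟩ | ⟨h, _⟩) | (⟨h, _⟩ | ⟨_, h⟩))
          · exact hxy0 h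
          · exact hxz0 h
          · exact hwx h.symm
          · exact hwz h.symm
        · simp only [Finset.mem_insert, Finset.mem_singleton, Sym2.eq_iff]
          rintro ((⟨_, h⟩ | ⟨h, _⟩) | (⟨h, _⟩ | ⟨h, _⟩) | (⟨h, _⟩ | ⟨_, h⟩))
          · exact hyz0 h
          · exact hxz0 h
          · exact hxy0 h
          · exact hxz0 h
          · exact hwx h.symm
          · exact hwy h.symm
      have : (4 : ℤ) ≤ (A.card : ℤ) := by exact_mod_cast this
      push_cast
      linarith
  · have : 2 * c ≤ c.choose 2 + 2 := by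
      rcases Nat.lt_or_ge c 5 with h5 | h5
      · obtain rfl : c = 4 := by omega
        decide
      · have : 2 * c ≤ c.choose 2 := by
          rw [Nat.choose_two_right, Nat.le_div_iff_mul_le (by norm_num)]
          obtain ⟨s, rfl⟩ := Nat.exists_eq_add_of_le h5
          rw [show 5 + s - 1 = 4 + s by omega]
          nlinarith
        omega
    have h' : 2 * c ≤ A.card + 2 := by omega
    have : (2 * c : ℤ) ≤ (A.card : ℤ) + 2 := by exact_mod_cast h'
    linarith

/-- the bound for 2-edge-connected graphs -/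
lemma bound_two [Nonempty V] (G : SimpleGraph V) (g : V → C) (A : Finset (Sym2 V))
    (hA : ∀ u v, G.Adj u v → g u ≠ g v → s(u, v) ∈ A)
    (hcut : ∀ U : Finset V, U.Nonempty → U ≠ univ → ∃ X : Finset (Sym2 V), 2 ≤ X.card ∧
      ∀ e ∈ X, ∃ u ∈ U, ∃ w ∉ U, G.Adj u w ∧ e = s(u, w))
    (hK : ¬ ((∀ u v, u ≠ v → G.Adj u v) ∧ Fintype.card V = 3))
    {m : ℕ} (f : V → Fin m) (hf : ∀ u v, u ≠ v → f u = f v → G.Adj u v) :
    2 * ((univ.image g).card : ℤ) - (A.card : ℤ) ≤ 2 * m := by
  classical
  have hconn : ∀ U : Finset V, U.Nonempty → U ≠ univ → ∃ u ∈ U, ∃ w ∉ U, G.Adj u w := by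
    intro U h1 h2
    obtain ⟨X, hX, hX'⟩ := hcut U h1 h2
    obtain ⟨e, he⟩ := Finset.card_pos.1 (by omega : 0 < X.card)
    obtain ⟨u, hu, w, hw, hadj, _⟩ := hX' e he
    exact ⟨u, hu, w, hw, hadj⟩
  have h1 : 1 ≤ (univ.image f).card := by
    rw [Nat.succ_le_iff, Finset.card_pos]
    exact Finset.image_nonempty.2 Finset.univ_nonempty
  have h2 : (univ.image f).card ≤ m := by
    simpa using Finset.card_le_univ (univ.image f)
  have h3 : ((univ.image f).card : ℤ) ≤ m := by exact_mod_cast h2
  rcases Nat.lt_or_ge (univ.image f).card 2 with h | h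
  · have hone : (univ.image f).card = 1 := by omega
    obtain ⟨i, hi⟩ := Finset.card_eq_one.1 hone
    have hcomp : ∀ u v, u ≠ v → G.Adj u v := by
      intro u v huv
      apply hf u v huv
      have hu : f u ∈ univ.image f := Finset.mem_image_of_mem f (Finset.mem_univ u)
      have hv : f v ∈ univ.image f := Finset.mem_image_of_mem f (Finset.mem_univ v)
      rw [hi, Finset.mem_singleton] at hu hv
      rw [hu, hv]
    have := bound_complete G g A hA hcomp (fun h => hK ⟨hcomp, h⟩) hcut
    have hm : (1 : ℤ) ≤ m := by exact_mod_cast (by omega : 1 ≤ m)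
    linarith
  · obtain ⟨S, hS, hc, hv⟩ := grow G g A hA hconn f hf ((univ.image f).card - 1) (by omega)
      (by omega)
    have hd : (univ.image f \ S).card = 1 := by
      rw [Finset.card_sdiff_of_subset hS]; omega
    obtain ⟨i, hi⟩ := Finset.card_eq_one.1 hd
    have hi1 : i ∈ univ.image f \ S := by rw [hi]; simp
    rw [Finset.mem_sdiff] at hi1
    have hins : insert i S = univ.image f := by
      apply Finset.eq_of_subset_of_card_le
      · intro x hx
        rcases Finset.mem_insert.1 hx with rfl | h
        · exact hi1.1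
        · exact hS h
      · rw [Finset.card_insert_of_notMem hi1.2]; omega
    have hUne : (VS f S).Nonempty := by
      obtain ⟨j, hj⟩ := Finset.card_pos.1 (by omega : 0 < S.card)
      obtain ⟨v, _, hv⟩ := Finset.mem_image.1 (hS hj)
      exact ⟨v, by rw [mem_VS, hv]; exact hj⟩
    have hUne2 : VS f S ≠ univ := by
      intro h
      obtain ⟨v, _, hv⟩ := Finset.mem_image.1 hi1.1
      have : v ∈ VS f S := by rw [h]; exact Finset.mem_univ v
      rw [mem_VS, hv] at this
      exact hi1.2 this
    obtain ⟨X, hX, hX'⟩ := hcut _ hUne hUne2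
    have := step G g A hA (VS f S) (VS f {i}) (VS_disjoint f S _ hi1.2) (by
        intro a ha b hb hab
        rw [mem_VS, Finset.mem_singleton] at ha hb
        exact hf a b hab (ha.trans hb.symm)) X (by
        intro e he
        obtain ⟨u, hu, w, hw, hadj, rfl⟩ := hX' e he
        refine ⟨u, hu, w, ?_, hadj, rfl⟩
        rw [mem_VS] at hw ⊢
        rw [Finset.mem_singleton]
        have hw' : f w ∈ insert i S := by
          rw [hins]; exact Finset.mem_image_of_mem f (Finset.mem_univ w)
        rcases Finset.mem_insert.1 hw' with h | h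
        · exact h
        · exact absurd h hw) 2 le_rfl hX
    rw [← VS_insert, hins, VS_image, inside_univ] at this
    have hcast : (((univ.image f).card - 1 : ℕ) : ℤ) = ((univ.image f).card : ℤ) - 1 := by
      rw [Nat.cast_sub h1]; simp
    rw [hcast] at hv
    push_cast at this
    linarith

end Q123.Decay
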