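import Pool.Agent.Q127.KI.Stm

set_option autoImplicit false

namespace Q123.KI_CLS

open Pool.Agent.Q127.KI

theorem Sk_eq (k : ℕ) : Sk k =
    ⋃ r : Fin (L k), ⋂ j : ℤ, ⋃ s : Fin (N k), {w | Blk k w ((r.val : ℤ) + j * L k) s} := by
  ext w
  simp only [Set.mem_iUnion, Set.mem_iInter, Set.mem_setOf_eq]
  constructor
  · rintro ⟨r, hr⟩
    have hL : (0 : ℤ) < L k := by exact_mod_cast L_pos k
    have h0 := Int.emod_nonneg r hL.ne'
    have h1 := Int.emod_lt_of_pos r hL
    have h2 := Int.emod_add_mul_ediv r (L k)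
    refine ⟨⟨(r % L k).toNat, by omega⟩, fun j => ?_⟩
    obtain ⟨s, hs⟩ := hr (j - r / L k)
    refine ⟨s, ?_⟩
    have h3 : (((r % L k).toNat : ℕ) : ℤ) + j * L k = r + (j - r / L k) * L k := by
      rw [Int.toNat_of_nonneg h0]
      linarith [mul_comm (L k : ℤ) (r / L k), sub_mul j (r / L k) (L k : ℤ)]
    change Blk k w ((((r % L k).toNat : ℕ) : ℤ) + j * L k) s
    rw [h3]
    exact hs
  · rintro ⟨r, hr⟩
    exact ⟨r.val, hr⟩

/-- job CLS -/
theorem cls : S_cls := by
  intro k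
  rw [Sk_eq]
  refine isClosed_iUnion_of_finite fun r => isClosed_iInter fun j =>
    isClosed_iUnion_of_finite fun s => ?_
  have h : {w : ℤ → Bool | Blk k w ((r.val : ℤ) + j * L k) s} =
      ⋂ (i : ℕ) (_ : i < L k), {w : ℤ → Bool | w ((r.val : ℤ) + j * L k + i) = ex k s i} := by
    ext w
    simp only [Blk, Set.mem_setOf_eq, Set.mem_iInter]
  rw [h]
  exact isClosed_iInter fun i => isClosed_iInter fun _ =>
    isClosed_eq (continuous_apply _) continuous_const

end Q123.KI_CLS
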