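import Pool.Agent.Q127.KI.Stm

set_option autoImplicit false

namespace Q123.KI_INJ

open Pool.Agent.Q127.KI

/-- job INJ -/
theorem inj : S_inj := by
  intro k
  induction k with
  | zero =>
    intro s s' h
    apply e0.injective
    funext j
    have h1 := h j.val j.isLt
    have hj : (⟨j.val % 4, Nat.mod_lt _ (by norm_num)⟩ : Fin 4) = j :=
      Fin.ext (Nat.mod_eq_of_lt j.isLt)
    simp only [ex] at h1
    rw [hj] at h1
    exact h1
  | succ k ih =>
    intro s s' h
    apply (e k).injective
    apply Equiv.ext
    intro j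
    apply ih
    intro i hi
    have hL := L_pos k
    have hlt : j.val * L k + i < L (k + 1) := by
      have h2 : (j.val + 1) * L k ≤ N k * L k := Nat.mul_le_mul_right _ j.isLt
      have h3 : L (k + 1) = N k * L k := rfl
      rw [h3]
      linarith [Nat.succ_mul j.val (L k)]
    have h1 := h (j.val * L k + i) hlt
    have h4 : (j.val * L k + i) / L k = j.val := by
      rw [mul_comm, Nat.mul_add_div hL, Nat.div_eq_of_lt hi, add_zero]
    have h5 : (j.val * L k + i) % L k = i := by
      rw [mul_comm, Nat.mul_add_mod, Nat.mod_eq_of_lt hi]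
    have h6 : (⟨(j.val * L k + i) / L k % N k, Nat.mod_lt _ (N_pos k)⟩ : Fin (N k)) = j := by
      apply Fin.ext
      change (j.val * L k + i) / L k % N k = j.val
      rw [h4, Nat.mod_eq_of_lt j.isLt]
    simp only [ex] at h1
    rw [h6, h5] at h1
    exact h1

end Q123.KI_INJ
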