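import Pool.Agent.Q61.MH.Stm

set_option autoImplicit false

open Real

namespace Q123.MH_RLIM

open Pool.Agent.Q61.MH

/-- job RLIM -/
theorem rlim : S_rlim := by
  intro c hc0 hcL
  have hL : 0 < Real.log 3 := Real.log_pos (by norm_num)
  obtain ⟨L, hLd⟩ : ∃ L, L = Real.log 3 := ⟨_, rfl⟩
  rw [← hLd] at hL hcL
  have hcL1 : c / L < 1 := (div_lt_one hL).2 hcL
  have hcL0 : 0 < c / L := div_pos hc0 hL
  obtain ⟨δ, hδ⟩ : ∃ δ, δ = (1 - c / L) / 2 := ⟨_, rfl⟩
  have hδ0 : 0 < δ := by rw [hδ]; linarith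
  have hδ1 : δ < 1 / 2 := by rw [hδ]; linarith
  have hd : 0 < 1 - δ := by linarith
  obtain ⟨c', hc'⟩ : ∃ c', c' = c / (1 - δ) := ⟨_, rfl⟩
  have hc'0 : 0 < c' := by rw [hc']; exact div_pos hc0 hd
  have hc'L : c' < L := by
    rw [hc', div_lt_iff₀ hd]
    have h1 : c / L < 1 - δ := by rw [hδ]; linarith
    rw [div_lt_iff₀ hL] at h1
    linarith
  have hη : 0 < 3 - Real.exp ((c' + L) / 2) := by
    have h1 : Real.exp ((c' + L) / 2) < Real.exp L := Real.exp_lt_exp.2 (by linarith)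
    rw [hLd, Real.exp_log (by norm_num), ← hLd] at h1
    linarith
  refine ⟨δ, 3 - Real.exp ((c' + L) / 2), hδ0, hδ1, hη, ?_⟩
  obtain ⟨K0, hK0⟩ := exists_nat_ge (6 + 20 * c' / (L - c') + 1 / c)
  refine ⟨K0, fun k hk j hj1 hj2 => ?_⟩
  have hkr : 6 + 20 * c' / (L - c') + 1 / c ≤ (k : ℝ) := hK0.trans (by exact_mod_cast hk)
  have hLc : 0 < L - c' := by linarith
  have t1 : 0 < 20 * c' / (L - c') := by positivity
  have t2 : 0 < 1 / c := by positivity
  have k6 : (6 : ℝ) ≤ k := by linarith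
  have kc : 1 / c ≤ (k : ℝ) := by linarith
  have kL : 20 * c' / (L - c') ≤ (k : ℝ) := by linarith
  have hck : 1 ≤ c * k := by
    rw [div_le_iff₀ hc0] at kc
    linarith
  have hjk : (k : ℝ) / 2 ≤ j := by nlinarith
  have hj3 : (3 : ℝ) ≤ j := by linarith
  refine ⟨hck, by exact_mod_cast hj3, ?_⟩
  have hj0 : (0 : ℝ) < j := by linarith
  have hmm : 0 < mm j := by
    unfold mm
    nlinarith
  have hnn : 0 < nn j + 1 := by
    unfold nn
    positivity
  have hb0 : 0 ≤ (nn j + 1) / mm j := (div_pos hnn hmm).le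
  have hb1 : (nn j + 1) / mm j ≤ Real.exp ((2 * j + 5) / mm j) := by
    have h1 := Real.add_one_le_exp ((2 * (j : ℝ) + 5) / mm j)
    have h2 : (nn j + 1) / mm j = (2 * (j : ℝ) + 5) / mm j + 1 := by
      rw [div_add_one hmm.ne']
      congr 1
      unfold nn mm
      ring
    rw [h2]
    exact h1
  have hx1 : (2 * (j : ℝ) + 5) / mm j ≤ (1 + 5 / j) / j := by
    rw [div_le_div_iff₀ hmm hj0]
    have h1 : (1 + 5 / (j : ℝ)) * mm j = (j + 5) * mm j / j := by
      field_simp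
    rw [h1, le_div_iff₀ hj0]
    unfold mm
    nlinarith [mul_pos hj0 hj0]
  have hx0 : 0 ≤ (2 * (j : ℝ) + 5) / mm j := by positivity
  have hcj : c * k ≤ c' * j := by
    rw [hc', div_mul_eq_mul_div, le_div_iff₀ hd]
    nlinarith
  have hexp : (2 * (j : ℝ) + 5) / mm j * (c * k - 1) ≤ (c' + L) / 2 := by
    calc (2 * (j : ℝ) + 5) / mm j * (c * k - 1)
        ≤ (2 * (j : ℝ) + 5) / mm j * (c' * j) :=
          mul_le_mul_of_nonneg_left (by linarith) hx0
      _ ≤ (1 + 5 / j) / j * (c' * j) :=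
          mul_le_mul_of_nonneg_right hx1 (by positivity)
      _ = c' * (1 + 5 / j) := by
          field_simp
      _ ≤ (c' + L) / 2 := by
          have h3 : 5 / (j : ℝ) ≤ 10 / k := by
            rw [div_le_div_iff₀ hj0 (by linarith)]
            linarith
          have h4 : c' * (10 / k) ≤ (L - c') / 2 := by
            rw [div_le_iff₀ hLc] at kL
            rw [mul_div_assoc', div_le_iff₀ (by linarith : (0 : ℝ) < k)]
            linarith
          have h5 : c' * (5 / (j : ℝ)) ≤ c' * (10 / k) :=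
            mul_le_mul_of_nonneg_left h3 hc'0.le
          nlinarith
  calc ((nn j + 1) / mm j) ^ (c * k - 1)
      ≤ (Real.exp ((2 * j + 5) / mm j)) ^ (c * k - 1) :=
        Real.rpow_le_rpow hb0 hb1 (by linarith)
    _ = Real.exp ((2 * j + 5) / mm j * (c * k - 1)) := by
        rw [← Real.exp_mul]
    _ ≤ Real.exp ((c' + L) / 2) := Real.exp_le_exp.2 hexp
    _ = 3 - (3 - Real.exp ((c' + L) / 2)) := by ring

end Q123.MH_RLIM
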