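import Pool.Agent.Q256.MP.Stm3

/-!
# Project MP of helper256, job DIMQ
-/

set_option autoImplicit false

namespace Pool.Agent.Q123.MPDIMQ

open Filter Topology Module
open Pool.Agent.W276.GE Pool.Agent.Q256.MP
open Pool.Agent.Q164.MPp (LL mem_LL count_eq box_fin)
open scoped LinearAlgebra.Projectivization

/-- evaluation of complex systems -/
noncomputable def evL {N d : ℕ} (z : Fin (N + 1) → ℂ) :
    (Fin (N + 1) × E (N + 1) d → ℂ) →ₗ[ℂ] (Fin (N + 1) → ℂ) where
  toFun g j := ∑ α : E (N + 1) d, g (j, α) * ∏ i, z i ^ α.1 i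
  map_add' g g' := by
    funext j
    simp only [Pi.add_apply, add_mul, Finset.sum_add_distrib]
  map_smul' a g := by
    funext j
    simp only [Pi.smul_apply, smul_eq_mul, RingHom.id_apply, Finset.mul_sum, mul_assoc]

theorem evL_apply {N d : ℕ} (z : Fin (N + 1) → ℂ) (g : Fin (N + 1) × E (N + 1) d → ℂ) (j) :
    evL z g j = ∑ α : E (N + 1) d, g (j, α) * ∏ i, z i ^ α.1 i := rfl

/-- the defining map -/
noncomputable def TT {N d m : ℕ} (z w : Fin m → Fin (N + 1) → ℂ) :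
    (Fin (N + 1) × E (N + 1) d → ℂ) →ₗ[ℂ]
      (∀ i : Fin m, (Fin (N + 1) → ℂ) ⧸ (Submodule.span ℂ {w i})) :=
  LinearMap.pi fun i => (Submodule.mkQ (Submodule.span ℂ {w i})) ∘ₗ evL (z i)

theorem mem_ker {N d m : ℕ} (z w : Fin m → Fin (N + 1) → ℂ) (g : Fin (N + 1) × E (N + 1) d → ℂ) :
    g ∈ LinearMap.ker (TT z w) ↔ ∀ i, ∃ c : ℂ, ∀ j, evL (z i) g j = c * w i j := by
  rw [LinearMap.mem_ker, funext_iff]
  refine forall_congr' fun i => ?_
  show Submodule.Quotient.mk (evL (z i) g) = 0 ↔ _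
  rw [Submodule.Quotient.mk_eq_zero, Submodule.mem_span_singleton]
  constructor
  · rintro ⟨c, hc⟩
    exact ⟨c, fun j => by rw [← hc]; rfl⟩
  · rintro ⟨c, hc⟩
    exact ⟨c, funext fun j => (hc j).symm⟩

theorem dim_ker {N d m : ℕ} (z w : Fin m → Fin (N + 1) → ℂ) (hw : ∀ i, w i ≠ 0) :
    QQ N d - m * N ≤ finrank ℂ (LinearMap.ker (TT (d := d) z w)) := by
  have h1 := LinearMap.finrank_range_add_finrank_ker (TT (d := d) z w)
  have h2 : finrank ℂ (Fin (N + 1) × E (N + 1) d → ℂ) = QQ N d := by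
    rw [finrank_fintype_fun_eq_card, Fintype.card_prod, Fintype.card_fin]
  have h3 : ∀ i, finrank ℂ ((Fin (N + 1) → ℂ) ⧸ (Submodule.span ℂ {w i})) = N := by
    intro i
    have h4 := Submodule.finrank_quotient_add_finrank (R := ℂ) (Submodule.span ℂ {w i})
    rw [finrank_span_singleton (hw i), finrank_fintype_fun_eq_card, Fintype.card_fin] at h4
    omega
  have h5 : finrank ℂ (LinearMap.range (TT (d := d) z w)) ≤ m * N := by
    refine (Submodule.finrank_le _).trans ?_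
    rw [Module.finrank_pi_fintype, Finset.sum_congr rfl fun i _ => h3 i, Finset.sum_const,
      Finset.card_univ, Fintype.card_fin, smul_eq_mul]
  rw [h2] at h1
  omega

/-- the conjugates -/
theorem conj_rep {N : ℕ} (τ : ℂ ≃+* ℂ) (p q : Pt N) (h : conjP τ p = q) :
    ∃ a : ℂ, a ≠ 0 ∧ ∀ j, τ (p.rep j) = a * q.rep j := by
  have h1 : Projectivization.mk ℂ (fun j => τ (p.rep j)) (conj_ne τ p) =
      Projectivization.mk ℂ q.rep q.rep_nonzero := by
    rw [Projectivization.mk_rep]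
    exact h
  rw [Projectivization.mk_eq_mk_iff] at h1
  obtain ⟨a, ha⟩ := h1
  exact ⟨a, a.ne_zero, fun j => (congrFun ha j).symm⟩

theorem stable {N d m : ℕ} (σ : Fin m → Fin m) (p : Fin m → Pt N) (hst : Stb (Gph (σ, p)))
    (τ : ℂ ≃+* ℂ) (g : Fin (N + 1) × E (N + 1) d → ℂ)
    (hg : g ∈ LinearMap.ker (TT (fun i => (p i).rep) fun i => (p (σ i)).rep)) :
    (fun x => τ (g x)) ∈ LinearMap.ker (TT (d := d) (fun i => (p i).rep) fun i => (p (σ i)).rep) := by
  rw [mem_ker] at hg ⊢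
  intro i
  obtain ⟨k, hk⟩ := hst τ.symm (p i, p (σ i)) ⟨i, rfl⟩
  have hk1 : conjP τ.symm (p i) = p k := (congrArg Prod.fst hk).symm
  have hk2 : conjP τ.symm (p (σ i)) = p (σ k) := (congrArg Prod.snd hk).symm
  obtain ⟨a, ha, ha1⟩ := conj_rep _ _ _ hk1
  obtain ⟨b, hb, hb1⟩ := conj_rep _ _ _ hk2
  obtain ⟨c, hc⟩ := hg k
  have e1 : ∀ j, (p i).rep j = τ a * τ ((p k).rep j) := fun j => by
    rw [← map_mul, ← ha1 j, RingEquiv.apply_symm_apply]
  have e2 : ∀ j, (p (σ i)).rep j = τ b * τ ((p (σ k)).rep j) := fun j => by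
    rw [← map_mul, ← hb1 j, RingEquiv.apply_symm_apply]
  have hτb : τ b ≠ 0 := (map_ne_zero τ).2 hb
  refine ⟨τ a ^ d * τ c * (τ b)⁻¹, fun j => ?_⟩
  have e3 : evL (p i).rep (fun x => τ (g x)) j = τ a ^ d * τ (evL (p k).rep g j) := by
    rw [evL_apply, evL_apply, map_sum, Finset.mul_sum]
    refine Finset.sum_congr rfl fun α _ => ?_
    rw [map_mul, map_prod]
    have e4 : ∏ x, (p i).rep x ^ α.1 x = τ a ^ d * ∏ x, τ ((p k).rep x ^ α.1 x) := by
      have hsum : ∑ x, α.1 x = d := Finset.Nat.mem_antidiagonalTuple.1 α.2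
      have hpow : τ a ^ d = ∏ x, τ a ^ α.1 x := by
        rw [Finset.prod_pow_eq_pow_sum, hsum]
      rw [hpow, ← Finset.prod_mul_distrib]
      refine Finset.prod_congr rfl fun x _ => ?_
      rw [e1 x, mul_pow, map_pow]
    rw [e4]
    ring
  rw [e3, hc j, map_mul, e2 j]
  field_simp

theorem rat_of_bot {x : ℂ} (hx : x ∈ (⊥ : Subfield ℂ)) : ∃ q : ℚ, (q : ℂ) = x := by
  rw [Subfield.bot_eq_of_charZero] at hx
  obtain ⟨q, hq⟩ := hx
  exact ⟨q, by simpa using hq⟩

/-- integral multiples of rational vectors -/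
theorem exists_int {ι : Type} [Fintype ι] (f : ι → ℂ) (hf : ∀ x, f x ∈ (⊥ : Subfield ℂ)) :
    ∃ (D : ℤ) (g : ι → ℤ), D ≠ 0 ∧ ∀ x, (g x : ℂ) = D * f x := by
  classical
  choose q hq using fun x => rat_of_bot (hf x)
  refine ⟨∏ x, ((q x).den : ℤ), fun x => (q x).num * ∏ y ∈ Finset.univ.erase x, ((q y).den : ℤ),
    Finset.prod_ne_zero_iff.2 fun x _ => by exact_mod_cast (q x).den_ne_zero, fun x => ?_⟩
  rw [← Finset.mul_prod_erase Finset.univ _ (Finset.mem_univ x), ← hq x]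
  have h1 : ((q x).num : ℂ) = (q x : ℂ) * ((q x).den : ℂ) := by
    have := Rat.mul_den_eq_num (q x)
    exact_mod_cast this.symm
  push_cast
  rw [h1]
  ring

theorem dimq : S_dimq := by
  classical
  intro N d m σ p _ hst
  obtain ⟨z, hz⟩ : ∃ z : Fin m → Fin (N + 1) → ℂ, z = fun i => (p i).rep := ⟨_, rfl⟩
  obtain ⟨w, hw⟩ : ∃ w : Fin m → Fin (N + 1) → ℂ, w = fun i => (p (σ i)).rep := ⟨_, rfl⟩
  rw [← hz, ← hw]
  have hw0 : ∀ i, w i ≠ 0 := fun i => by rw [hw]; exact (p (σ i)).rep_nonzero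
  refine (dim_ker (d := d) z w hw0).trans ?_
  obtain ⟨V, hV⟩ : ∃ V : Submodule ℂ (Fin (N + 1) × E (N + 1) d → ℂ),
      V = LinearMap.ker (TT (d := d) z w) := ⟨_, rfl⟩
  rw [← hV]
  have hdef : Pool.Agent.TH119.DR.DefOver (⊥ : Subfield ℂ) V := by
    refine Pool.Agent.TH119.MX.defOver_of_aut V fun τ _ v hv => ?_
    rw [hV, hz, hw] at hv ⊢
    exact stable σ p hst τ v hv
  obtain ⟨S, hS⟩ : ∃ S : Set (Fin (N + 1) × E (N + 1) d → ℂ),
      S = {v | v ∈ V ∧ ∀ a, v a ∈ (⊥ : Subfield ℂ)} := ⟨_, rfl⟩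
  have hspan : Submodule.span ℂ S = V := by
    apply le_antisymm
    · rw [Submodule.span_le, hS]
      exact fun v hv => hv.1
    · rw [hS]
      exact hdef
  obtain ⟨f, hfS, -, hfi⟩ := Submodule.exists_fun_fin_finrank_span_eq ℂ S
  have hfS' : ∀ i, f i ∈ V ∧ ∀ a, f i a ∈ (⊥ : Subfield ℂ) := fun i => by
    have := hfS i
    rwa [hS] at this
  choose D g hD hg using fun i => exists_int (f i) (hfS' i).2
  have hgL : ∀ i, g i ∈ LL (d := d) z w := by
    intro i
    have h1 : (fun x => (g i x : ℂ)) ∈ V := by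
      have h2 : (fun x => (g i x : ℂ)) = (D i : ℂ) • f i := by
        funext x
        rw [hg i x]
        rfl
      rw [h2]
      exact V.smul_mem _ (hfS' i).1
    rw [hV, mem_ker] at h1
    show Cf z w (fun j α => g i (j, α) : Sy N d)
    intro k
    obtain ⟨c, hc⟩ := h1 k
    exact ⟨c, fun j => hc j⟩
  have hli : LinearIndependent ℤ (fun i => (⟨g i, hgL i⟩ : LL (d := d) z w)) := by
    rw [Fintype.linearIndependent_iff]
    intro a ha
    have h1 : ∑ i, ((a i : ℂ) * (D i : ℂ)) • f i = 0 := by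
      funext x
      rw [Finset.sum_apply]
      have h2 := congrArg (fun v : LL (d := d) z w => ((v : _ → ℤ) x : ℂ)) ha
      beta_reduce at h2
      rw [Submodule.coe_sum, Finset.sum_apply] at h2
      push_cast at h2
      have h0 : (((0 : LL (d := d) z w) : Fin (N + 1) × E (N + 1) d → ℤ) x : ℂ) = 0 := by
        rw [Submodule.coe_zero, Pi.zero_apply, Int.cast_zero]
      rw [Pi.zero_apply, ← h0]
      refine Eq.trans ?_ h2
      refine Finset.sum_congr rfl fun i _ => ?_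
      show (a i : ℂ) * (D i : ℂ) * f i x = ((a i * g i x : ℤ) : ℂ)
      push_cast
      rw [hg i x]
      ring
    intro i
    have h2 := Fintype.linearIndependent_iff.1 hfi _ h1 i
    have h3 : (D i : ℂ) ≠ 0 := by exact_mod_cast hD i
    have h4 := (mul_eq_zero.1 h2).resolve_right h3
    exact_mod_cast h4
  have h5 := hli.fintype_card_le_finrank
  rw [Fintype.card_fin, hspan] at h5
  exact h5

end Pool.Agent.Q123.MPDIMQ
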