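import Pool.Agent.Q256.MP.Stm3

/-!
# Project MP of helper256, job POSI
-/

set_option autoImplicit false

namespace Pool.Agent.Q123.MPPOSI

open Filter Topology
open Pool.Agent.W276.GE Pool.Agent.Q256.MP
open Pool.Agent.Q164.MPp (LL mem_LL count_eq box_fin)

theorem ne_of_noZero {N d : ℕ} {F : Sy N d} (hF : NoZero F) :
    (fun x : Fin (N + 1) × E (N + 1) d => F x.1 x.2) ≠ 0 := by
  intro h
  have h1 : (fun _ : Fin (N + 1) => (1 : ℂ)) = 0 := by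
    apply hF
    intro i
    unfold ev
    refine Finset.sum_eq_zero fun α _ => ?_
    have h2 : F i α = 0 := congrFun h (i, α)
    rw [h2]
    simp
  have h3 := congrFun h1 0
  simp at h3

theorem posi (h1 : S_exi) (h2 : S_dimq) (h3 : S_lowc) (h4 : S_sz) (h5 : S_nzp) : S_posi := by
  classical
  intro N d m hN hm hmd σ p hp hst
  obtain ⟨F₀, hF₀, hI⟩ := h1 N d m hN hm hmd σ p hp hst
  have hd : 1 ≤ d := hm.trans hmd
  obtain ⟨P, hP1, hP2⟩ := h5 N d F₀ hd hF₀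
  obtain ⟨L, hL⟩ : ∃ L : Submodule ℤ (Fin (N + 1) × E (N + 1) d → ℤ),
      L = LL (d := d) (fun i => (p i).rep) fun i => (p (σ i)).rep := ⟨_, rfl⟩
  have hmem : ∀ F : Sy N d, (fun x : Fin (N + 1) × E (N + 1) d => F x.1 x.2) ∈ L ↔
      ∀ i, Im F (p i) (p (σ i)) := by
    intro F
    rw [hL]
    exact mem_LL F
  obtain ⟨s, hs⟩ : ∃ s, s = Module.finrank ℤ L := ⟨_, rfl⟩
  have hsQ : QQ N d - m * N ≤ s := by
    rw [hs, hL]
    exact h2 N d m σ p hp hst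
  have hs1 : 1 ≤ s := by
    rw [hs]
    have hnt : Nontrivial L := by
      refine ⟨⟨⟨_, (hmem F₀).2 hI⟩, 0, ?_⟩⟩
      intro h
      exact ne_of_noZero hF₀ (congrArg Subtype.val h)
    exact Module.finrank_pos
  obtain ⟨C, hC⟩ := h4 _ L s hs.ge P ⟨_, (hmem F₀).2 hI, hP1⟩
  obtain ⟨c, hc, hlow⟩ := h3 _ L
  rw [← hs] at hlow
  refine ⟨c / 2, by positivity, ?_⟩
  obtain ⟨K, hK⟩ := exists_nat_gt (2 * |C| / c)
  filter_upwards [eventually_ge_atTop (K + 1)] with H hH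
  have hH1 : 1 ≤ H := by omega
  have hHr : (1 : ℝ) ≤ H := by exact_mod_cast hH1
  have hKH : (K : ℝ) ≤ H := by exact_mod_cast (by omega : K ≤ H)
  have hA := hlow H hH1
  have hZ := hC H hH1
  obtain ⟨A, hAdef⟩ : ∃ A : Set (Fin (N + 1) × E (N + 1) d → ℤ),
      A = {g | (∀ i, |g i| ≤ (H : ℤ)) ∧ g ∈ L} := ⟨_, rfl⟩
  obtain ⟨Z, hZdef⟩ : ∃ Z : Set (Fin (N + 1) × E (N + 1) d → ℤ),
      Z = {g | (∀ i, |g i| ≤ (H : ℤ)) ∧ g ∈ L ∧ MvPolynomial.eval g P = 0} := ⟨_, rfl⟩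
  rw [← hAdef] at hA
  rw [← hZdef] at hZ
  have hAf : A.Finite := by
    rw [hAdef]
    exact (box_fin _).subset fun g hg => hg.1
  have hZf : Z.Finite := by
    rw [hZdef]
    exact (box_fin _).subset fun g hg => hg.1
  have hcnt : cnt N d H (fun F => ∀ i, Im F (p i) (p (σ i))) =
      ({g : Fin (N + 1) × E (N + 1) d → ℤ | (∀ i, |g i| ≤ (H : ℤ)) ∧
        (NoZero (fun j α => g (j, α) : Sy N d) ∧
          ∀ i, Im (fun j α => g (j, α) : Sy N d) (p i) (p (σ i)))}.ncard : ℝ) := by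
    unfold cnt
    rw [← count_eq H (fun F : Sy N d => NoZero F ∧ ∀ i, Im F (p i) (p (σ i)))]
  rw [hcnt]
  have hsub : A \ Z ⊆ {g : Fin (N + 1) × E (N + 1) d → ℤ | (∀ i, |g i| ≤ (H : ℤ)) ∧
        (NoZero (fun j α => g (j, α) : Sy N d) ∧
          ∀ i, Im (fun j α => g (j, α) : Sy N d) (p i) (p (σ i)))} := by
    rintro g ⟨hgA, hgZ⟩
    rw [hAdef] at hgA
    refine ⟨hgA.1, ?_, (hmem (fun j α => g (j, α))).1 hgA.2⟩
    apply hP2
    intro h0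
    apply hgZ
    rw [hZdef]
    exact ⟨hgA.1, hgA.2, h0⟩
  have hle := Set.ncard_le_ncard hsub ((box_fin (H : ℤ)).subset fun g hg => hg.1)
  have hdiff : A.ncard ≤ (A \ Z).ncard + Z.ncard := Set.ncard_le_ncard_sdiff_add_ncard A Z hZf
  have hr : (A.ncard : ℝ) ≤ ((A \ Z).ncard : ℝ) + (Z.ncard : ℝ) := by exact_mod_cast hdiff
  have hr2 : ((A \ Z).ncard : ℝ) ≤ _ := Nat.cast_le.2 hle
  refine le_trans ?_ hr2
  have hpow : (H : ℝ) ^ (QQ N d - m * N) ≤ (H : ℝ) ^ s := pow_le_pow_right₀ hHr hsQ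
  have hsplit : (H : ℝ) ^ s = (H : ℝ) * (H : ℝ) ^ (s - 1) := by
    rw [← pow_succ']
    congr 1
    omega
  have hpp : 0 < (H : ℝ) ^ (s - 1) := by positivity
  have hCc : |C| ≤ c / 2 * H := by
    have : 2 * |C| / c < H := lt_of_lt_of_le hK hKH
    rw [div_lt_iff₀ hc] at this
    linarith
  have hC2 : C * (H : ℝ) ^ (s - 1) ≤ c / 2 * (H : ℝ) ^ s := by
    rw [hsplit]
    calc C * (H : ℝ) ^ (s - 1) ≤ |C| * (H : ℝ) ^ (s - 1) :=
          mul_le_mul_of_nonneg_right (le_abs_self C) hpp.le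
      _ ≤ c / 2 * H * (H : ℝ) ^ (s - 1) := mul_le_mul_of_nonneg_right hCc hpp.le
      _ = c / 2 * (H * (H : ℝ) ^ (s - 1)) := by ring
  have h9 : c / 2 * (H : ℝ) ^ (QQ N d - m * N) ≤ c / 2 * (H : ℝ) ^ s :=
    mul_le_mul_of_nonneg_left hpow (by positivity)
  have h10 : c * (H : ℝ) ^ s = c / 2 * (H : ℝ) ^ s + c / 2 * (H : ℝ) ^ s := by ring
  linarith

end Pool.Agent.Q123.MPPOSI
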