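import Mathlib
import Pool.Agent.Q2.PM.Stm

set_option autoImplicit false

/-!
# Project PM (helper2), job A6 (helper123)
-/

namespace Q123.PM_A6

open Q2.PM
open Q2.TN (IsPNil IsSyl IsChief Nm)
open Subgroup

/-- a `q`-subgroup that permutes with `H` normalizes `H ⊓ D` -/
theorem key {G : Type} [Group G] {H D Y : Subgroup G} {q : ℕ} (hq : q.Prime)
    (hq2 : q ≠ 2) (hH : IsPGroup 2 H) (hD : D.Normal) (hD2 : IsPGroup 2 D) (hY : IsPGroup q Y)
    (hPm : Pm H Y) : ∀ y ∈ Y, ∀ x ∈ H ⊓ D, y * x * y⁻¹ ∈ H ⊓ D := by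
  intro y hy x hx
  have h2 : IsPGroup 2 (H ⊔ D : Subgroup G) := hH.to_sup_of_normal_right hD2
  have hxD : y * x * y⁻¹ ∈ D := hD.conj_mem x hx.2 y
  obtain ⟨x', hx', h', hh', e⟩ := hPm x⁻¹ (H.inv_mem hx.1) y⁻¹ (Y.inv_mem hy)
  have e2 : y * x = h'⁻¹ * x'⁻¹ := by
    rw [← mul_inv_rev, ← e, mul_inv_rev, inv_inv, inv_inv]
  obtain ⟨z, hzd⟩ : ∃ z, z = x'⁻¹ * y⁻¹ := ⟨_, rfl⟩
  have hz : z ∈ Y := by
    rw [hzd]
    exact Y.mul_mem (Y.inv_mem hx') (Y.inv_mem hy)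
  have hz2 : z ∈ (H ⊔ D : Subgroup G) := by
    have e3 : z = h' * (y * x * y⁻¹) := by
      rw [e2, hzd]
      group
    rw [e3]
    exact mul_mem (mem_sup_left hh') (mem_sup_right hxD)
  have h1 : z = 1 := by
    obtain ⟨m, hm⟩ := hY ⟨z, hz⟩
    obtain ⟨k, hk⟩ := h2 ⟨z, hz2⟩
    have hm' : z ^ q ^ m = 1 := congrArg Subtype.val hm
    have hk' : z ^ 2 ^ k = 1 := congrArg Subtype.val hk
    have hcop : Nat.Coprime (q ^ m) (2 ^ k) :=
      Nat.Coprime.pow _ _ ((Nat.coprime_primes hq Nat.prime_two).2 hq2)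
    have hd := Nat.dvd_gcd (orderOf_dvd_of_pow_eq_one hm') (orderOf_dvd_of_pow_eq_one hk')
    rw [hcop.gcd_eq_one] at hd
    exact orderOf_eq_one_iff.1 (Nat.dvd_one.1 hd)
  have e4 : y * x * y⁻¹ = h'⁻¹ := by
    have : y * x * y⁻¹ = h'⁻¹ * z := by
      rw [e2, hzd]
      group
    rw [this, h1, mul_one]
  refine ⟨?_, hxD⟩
  rw [e4]
  exact H.inv_mem hh'

/-- if `G = S B` then `|G : S| = |B : B ∩ S|` -/
theorem index_eq {G : Type} [Group G] (S B : Subgroup G) (h : ∀ g : G, ∃ n ∈ S, ∃ b ∈ B, g = n * b) :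
    (S.subgroupOf B).index = S.index := by
  have hst : MulAction.stabilizer B ((1 : G) : G ⧸ S) = S.subgroupOf B := by
    ext b
    rw [MulAction.mem_stabilizer_iff, mem_subgroupOf]
    have h1 : b • ((1 : G) : G ⧸ S) = (((b : G) * 1 : G) : G ⧸ S) := rfl
    rw [h1, mul_one, QuotientGroup.eq, mul_one, inv_mem_iff]
  have htr : MulAction.IsPretransitive B (G ⧸ S) := by
    have hx : ∀ x : G ⧸ S, ∃ b : B, b • ((1 : G) : G ⧸ S) = x := by
      intro x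
      obtain ⟨g, rfl⟩ := QuotientGroup.mk_surjective x
      obtain ⟨n, hn, b, hb, e⟩ := h g⁻¹
      refine ⟨⟨b⁻¹, B.inv_mem hb⟩, ?_⟩
      have h1 : (⟨b⁻¹, B.inv_mem hb⟩ : B) • ((1 : G) : G ⧸ S) = ((b⁻¹ * 1 : G) : G ⧸ S) := rfl
      rw [h1, mul_one, QuotientGroup.eq, inv_inv]
      have h2 : b * g = n⁻¹ := by
        have h3 : g = b⁻¹ * n⁻¹ := by rw [← mul_inv_rev, ← e, inv_inv]
        rw [h3, mul_inv_cancel_left]
      rw [h2]
      exact S.inv_mem hn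
    refine ⟨fun x y => ?_⟩
    obtain ⟨b, hb⟩ := hx x
    obtain ⟨b', hb'⟩ := hx y
    exact ⟨b' * b⁻¹, by rw [← hb, ← hb', mul_smul, inv_smul_smul]⟩
  rw [← hst]
  exact MulAction.index_stabilizer_of_transitive B _

/-- JOB A6 -/
theorem a6 : S_A6 := by
  intro G _ _ H D P S hH hPro hD hD2 hP hPS hW
  obtain ⟨B, hB, hperm⟩ := hPro
  have hNm : ∀ n ∈ Nm H, n ∈ Nm (H ⊓ D) := by
    intro n hn
    have hn' : ∀ h : G, h ∈ H ↔ n * h * n⁻¹ ∈ H := mem_normalizer_iff.1 hn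
    refine mem_normalizer_iff.2 fun h => ?_
    rw [mem_inf, mem_inf, hn' h]
    refine and_congr_right fun _ => ⟨fun hh => hD.conj_mem h hh n, fun hh => ?_⟩
    have := hD.conj_mem _ hh n⁻¹
    have e : n⁻¹ * (n * h * n⁻¹) * n⁻¹⁻¹ = h := by group
    rwa [e] at this
  have hSB : ∀ g : G, ∃ n ∈ S, ∃ b ∈ B, g = n * b := by
    intro g
    obtain ⟨n, hn, b, hb, e⟩ := hB g
    exact ⟨n, hW (hNm n hn), b, hb, e⟩
  rw [← index_eq_one]
  by_contra hne
  obtain ⟨q, hq, hdvd⟩ := Nat.exists_prime_and_dvd hne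
  by_cases hq2 : q = 2
  · rw [hq2] at hdvd
    exact hP.2 (hdvd.trans (index_dvd_of_le hPS))
  · have : Fact q.Prime := ⟨hq⟩
    let Q : Sylow q B := default
    obtain ⟨Y, hYd⟩ : ∃ Y : Subgroup G, Y = (Q : Subgroup B).map B.subtype := ⟨_, rfl⟩
    have hYB : Y ≤ B := by
      rw [hYd]
      exact map_subtype_le _
    have hYq : IsPGroup q Y := by
      rw [hYd]
      exact Q.2.map _
    have hk := key hq hq2 hH hD hD2 hYq (hperm Y hYB)
    have hYS : Y ≤ S := by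
      intro y hy
      apply hW
      refine mem_normalizer_iff.2 fun h => ⟨fun hh => hk y hy h hh, fun hh => ?_⟩
      have := hk y⁻¹ (Y.inv_mem hy) _ hh
      have e : y⁻¹ * (y * h * y⁻¹) * y⁻¹⁻¹ = h := by group
      rwa [e] at this
    have hQS : (Q : Subgroup B) ≤ S.subgroupOf B := by
      intro b hb
      rw [mem_subgroupOf]
      apply hYS
      rw [hYd]
      exact ⟨b, hb, rfl⟩
    rw [← index_eq S B hSB] at hdvd
    exact Q.not_dvd_index (hdvd.trans (index_dvd_of_le hQS))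

end Q123.PM_A6
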