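import Mathlib

/-!
Loops in the torus which miss a horizontal and a vertical circle are null-homotopic.
-/

namespace Q123.Torus

open ContinuousMap Set

/-- A map to the circle that misses a point is null-homotopic. -/
lemma nullhomotopic_of_missing {X : Type*} [TopologicalSpace X] (f : C(X, UnitAddCircle))
    (a : UnitAddCircle) (ha : ∀ x, f x ≠ a) : f.Nullhomotopic := by
  obtain ⟨a, rfl⟩ := QuotientAddGroup.mk_surjective a
  have hcont : Continuous (fun x => ((AddCircle.equivIco (1 : ℝ) a (f x)) : ℝ)) := by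
    rw [continuous_iff_continuousAt]
    intro x
    have h1 := AddCircle.continuousAt_equivIco (1 : ℝ) a (ha x)
    exact (continuousAt_subtype_val.comp h1).comp f.continuous.continuousAt
  have hval : ∀ x, (((AddCircle.equivIco (1 : ℝ) a (f x)) : ℝ) : UnitAddCircle) = f x := fun x =>
    (AddCircle.equivIco (1 : ℝ) a).symm_apply_apply (f x)
  refine ⟨((0 : ℝ) : UnitAddCircle), ⟨⟨⟨fun p =>
    (((1 - (p.1 : ℝ)) * ((AddCircle.equivIco (1 : ℝ) a (f p.2)) : ℝ) : ℝ) : UnitAddCircle), ?_⟩,
    ?_, ?_⟩⟩⟩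
  · refine (AddCircle.continuous_mk' (1 : ℝ)).comp ?_
    exact (continuous_const.sub (continuous_subtype_val.comp continuous_fst)).mul
      (hcont.comp continuous_snd)
  · intro x
    simp [hval]
  · intro x
    simp

/-- A loop in the torus that misses a vertical and a horizontal circle is null-homotopic. -/
lemma nullhomotopic_torus {X : Type*} [TopologicalSpace X]
    (f : C(X, UnitAddCircle × UnitAddCircle)) (a b : UnitAddCircle)
    (ha : ∀ x, (f x).1 ≠ a) (hb : ∀ x, (f x).2 ≠ b) : f.Nullhomotopic := by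
  have h1 := nullhomotopic_of_missing (⟨fun x => (f x).1, by fun_prop⟩ : C(X, UnitAddCircle)) a ha
  have h2 := nullhomotopic_of_missing (⟨fun x => (f x).2, by fun_prop⟩ : C(X, UnitAddCircle)) b hb
  obtain ⟨y, ⟨H⟩⟩ := h1
  obtain ⟨z, ⟨K⟩⟩ := h2
  refine ⟨(y, z), ⟨?_⟩⟩
  exact (Homotopy.prod H K).cast (by ext x <;> rfl) (by ext x <;> rfl)

/-- If a set `S` of the torus contains `m` disjoint horizontal and `m` disjoint vertical circles,
then a loop meeting `S` in fewer than `m` points is null-homotopic. -/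
lemma nullhomotopic_of_few {X : Type*} [TopologicalSpace X]
    (f : C(X, UnitAddCircle × UnitAddCircle)) (S : Set (UnitAddCircle × UnitAddCircle)) (m : ℕ)
    (a : Fin m → UnitAddCircle) (ha : Function.Injective a)
    (hS1 : ∀ i p, p.1 = a i → p ∈ S) (hS2 : ∀ i p, p.2 = a i → p ∈ S)
    (hfew : (range f ∩ S).encard < m) : f.Nullhomotopic := by
  have key : ∀ c : UnitAddCircle × UnitAddCircle → UnitAddCircle,
      (∀ i p, c p = a i → p ∈ S) → ∃ i, ∀ x, c (f x) ≠ a i := by
    intro c hc
    by_contra hcon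
    push Not at hcon
    choose x hx using hcon
    have hinj : Function.Injective (fun i => f (x i)) := by
      intro i j hij
      apply ha
      rw [← hx i, ← hx j]
      exact congrArg c hij
    have hsub : range (fun i => f (x i)) ⊆ range f ∩ S := by
      rintro _ ⟨i, rfl⟩
      exact ⟨⟨x i, rfl⟩, hc i _ (hx i)⟩
    have h1 := Set.encard_le_encard hsub
    rw [← Set.image_univ, hinj.encard_image, Set.encard_univ] at h1
    simp only [ENat.card_eq_coe_fintype_card, Fintype.card_fin] at h1
    exact absurd (h1.trans_lt hfew) (lt_irrefl _)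
  obtain ⟨i, hi⟩ := key Prod.fst hS1
  obtain ⟨j, hj⟩ := key Prod.snd hS2
  exact nullhomotopic_torus f (a i) (a j) hi hj

/-- Equality of two points of the circle `ℝ/ℤ` given by `s/m` and `t/m`. -/
lemma coe_div_eq_iff {m : ℕ} (hm : 0 < m) (s t : ℝ) :
    ((s / m : ℝ) : UnitAddCircle) = ((t / m : ℝ) : UnitAddCircle) ↔ ∃ n : ℤ, s - t = n * m := by
  rw [← sub_eq_zero, ← AddCircle.coe_sub, AddCircle.coe_eq_zero_iff]
  have hm' : (m : ℝ) ≠ 0 := by positivity
  constructor
  · rintro ⟨n, hn⟩
    refine ⟨n, ?_⟩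
    rw [zsmul_eq_mul, mul_one] at hn
    rw [hn]
    field_simp
  · rintro ⟨n, hn⟩
    refine ⟨n, ?_⟩
    rw [zsmul_eq_mul, mul_one, ← sub_div, hn]
    field_simp

end Q123.Torus
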