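import Mathlib
import Pool.Agent.Q16.SQ.Stm5
import Pool.Agent.Helper549.Tri.Line
set_option autoImplicit false
noncomputable section
open scoped BigOperators
open MeasureTheory
open Pool.Agent.Helper549.Tri

namespace Q16.SQ
namespace LineH
open Pool.Agent.Helper549.Tri.Basic Pool.Agent.Helper549.Tri.Angles Pool.Agent.Helper549.Tri.Opp
open Pool.Agent.Helper549.Tri.Line

theorem cont_der (P : Polynomial ℝ) : Continuous (fun x => P.derivative.eval x) :=
  P.derivative.continuous

theorem ftc (P : Polynomial ℝ) (a b : ℝ) :
    ∫ x in a..b, P.derivative.eval x = P.eval b - P.eval a := by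
  apply intervalIntegral.integral_eq_sub_of_hasDerivAt
  · intro x _
    exact P.hasDerivAt x
  · exact (cont_der P).intervalIntegrable _ _

theorem ind_int (P : Polynomial ℝ) (a b c : ℝ) (hab : a ≤ b) :
    Integrable ((Set.Ioo a b).indicator (fun x => c * P.derivative.eval x)) ∧
    ∫ x, (Set.Ioo a b).indicator (fun x => c * P.derivative.eval x) x =
      c * (P.eval b - P.eval a) := by
  have hc : Continuous (fun x => c * P.derivative.eval x) := continuous_const.mul (cont_der P)
  constructor
  · rw [integrable_indicator_iff measurableSet_Ioo]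
    exact (hc.integrableOn_Icc (a := a) (b := b)).mono_set Set.Ioo_subset_Icc_self
  · rw [integral_indicator measurableSet_Ioo, ← integral_Ioc_eq_integral_Ioo,
      ← intervalIntegral.integral_of_le hab, intervalIntegral.integral_const_mul, ftc]

open Classical in
theorem side_int' (v : Fin 3 → ℂ) (hv : 0 < dd v) (k : Fin 3) (u : ℂ) (hu : ‖u‖ = 1) (s : ℝ)
    (P : Polynomial ℝ) (h : ℂ → ℝ) (hP : ∀ m a, v m = zl u s a → P.eval a = h (v m)) :
    Integrable (fun x : ℝ => (if onSide v k (zl u s x) then
      ((if dir v k = u then (1:ℝ) else 0) - (if dir v k = -u then 1 else 0)) else 0) *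
        P.derivative.eval x) ∧
    ∫ x : ℝ, (if onSide v k (zl u s x) then
      ((if dir v k = u then (1:ℝ) else 0) - (if dir v k = -u then 1 else 0)) else 0) *
        P.derivative.eval x
      = if (dir v k = u ∧ lev v k = s) ∨ (dir v k = -u ∧ lev v k = -s) then
          h (v (k + 2)) - h (v (k + 1)) else 0 := by
  have hu0 : u ≠ 0 := by
    intro h; rw [h, norm_zero] at hu; norm_num at hu
  have hne : u ≠ -u := by
    intro h
    apply hu0
    have : (2 : ℂ) * u = 0 := by linear_combination h
    exact (mul_eq_zero.1 this).resolve_left two_ne_zero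
  have hl := len_pos v hv k
  by_cases h1 : dir v k = u
  · have h1' : ¬ (dir v k = -u) := fun h => hne (h1 ▸ h)
    by_cases h2 : lev v k = s
    · obtain ⟨a, ha⟩ := zl_surj u hu s (v (k + 1)) (by rw [← h1, ← h2]; rfl)
      have hb : v (k + 2) = zl u s (a + len v k) := by
        rw [v_next v hv k, ha, h1, zl_add]
      have hset : ∀ x, onSide v k (zl u s x) ↔ x ∈ Set.Ioo a (a + len v k) := by
        intro x
        unfold onSide
        rw [ha, hb, zl_seg u hu, openSegment_eq_Ioo (by linarith)]
      have hfun : (fun x : ℝ => (if onSide v k (zl u s x) then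
          ((if dir v k = u then (1:ℝ) else 0) - (if dir v k = -u then 1 else 0)) else 0) *
            P.derivative.eval x)
          = (Set.Ioo a (a + len v k)).indicator (fun x => (1 : ℝ) * P.derivative.eval x) := by
        funext x
        rw [Set.indicator_apply, if_pos h1, if_neg h1', sub_zero]
        by_cases hx : x ∈ Set.Ioo a (a + len v k)
        · rw [if_pos ((hset x).2 hx), if_pos hx]
        · rw [if_neg (fun h => hx ((hset x).1 h)), if_neg hx, zero_mul]
      have hii := ind_int P a (a + len v k) 1 (by linarith)
      rw [hfun]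
      refine ⟨hii.1, ?_⟩
      rw [hii.2, if_pos (Or.inl ⟨h1, h2⟩), one_mul, hP _ _ hb, hP _ _ ha]
    · have hno : ∀ x, ¬ onSide v k (zl u s x) := by
        intro x hx
        apply h2
        rw [← onSide_lev v hv k _ hx, h1, cr_zl u hu]
      have hfun : (fun x : ℝ => (if onSide v k (zl u s x) then
          ((if dir v k = u then (1:ℝ) else 0) - (if dir v k = -u then 1 else 0)) else 0) *
            P.derivative.eval x)
          = fun _ => 0 := by
        funext x
        rw [if_neg (hno x), zero_mul]
      rw [hfun]
      refine ⟨integrable_zero _ _ _, ?_⟩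
      rw [integral_zero, if_neg]
      rintro (h | h)
      · exact h2 h.2
      · exact h1' h.1
  · by_cases h1' : dir v k = -u
    · by_cases h2 : lev v k = -s
      · have hcr : cr u (v (k + 1)) = s := by
          have h3 : cr (dir v k) (v (k + 1)) = -s := h2
          rw [h1', cr_neg] at h3
          linarith
        obtain ⟨a, ha⟩ := zl_surj u hu s (v (k + 1)) hcr
        have hb : v (k + 2) = zl u s (a - len v k) := by
          have h4 := zl_add u s a (-len v k)
          rw [v_next v hv k, ha, h1', sub_eq_add_neg, ← h4]
          push_cast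
          ring
        have hset : ∀ x, onSide v k (zl u s x) ↔ x ∈ Set.Ioo (a - len v k) a := by
          intro x
          unfold onSide
          rw [ha, hb, zl_seg u hu, openSegment_symm, openSegment_eq_Ioo (by linarith)]
        have hfun : (fun x : ℝ => (if onSide v k (zl u s x) then
            ((if dir v k = u then (1:ℝ) else 0) - (if dir v k = -u then 1 else 0)) else 0) *
              P.derivative.eval x)
            = (Set.Ioo (a - len v k) a).indicator (fun x => (-1 : ℝ) * P.derivative.eval x) := by
          funext x
          rw [Set.indicator_apply, if_neg h1, if_pos h1', zero_sub]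
          by_cases hx : x ∈ Set.Ioo (a - len v k) a
          · rw [if_pos ((hset x).2 hx), if_pos hx]
          · rw [if_neg (fun h => hx ((hset x).1 h)), if_neg hx, zero_mul]
        have hii := ind_int P (a - len v k) a (-1) (by linarith)
        rw [hfun]
        refine ⟨hii.1, ?_⟩
        rw [hii.2, if_pos (Or.inr ⟨h1', h2⟩), hP _ _ hb, hP _ _ ha]
        ring
      · have hno : ∀ x, ¬ onSide v k (zl u s x) := by
          intro x hx
          apply h2
          rw [← onSide_lev v hv k _ hx, h1', cr_neg, cr_zl u hu]
        have hfun : (fun x : ℝ => (if onSide v k (zl u s x) then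
            ((if dir v k = u then (1:ℝ) else 0) - (if dir v k = -u then 1 else 0)) else 0) *
              P.derivative.eval x)
            = fun _ => 0 := by
          funext x
          rw [if_neg (hno x), zero_mul]
        rw [hfun]
        refine ⟨integrable_zero _ _ _, ?_⟩
        rw [integral_zero, if_neg]
        rintro (h | h)
        · exact h1 h.1
        · exact h2 h.2
    · have hfun : (fun x : ℝ => (if onSide v k (zl u s x) then
          ((if dir v k = u then (1:ℝ) else 0) - (if dir v k = -u then 1 else 0)) else 0) *
            P.derivative.eval x)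
          = fun _ => 0 := by
        funext x
        rw [if_neg h1, if_neg h1', sub_zero, ite_self, zero_mul]
      rw [hfun]
      refine ⟨integrable_zero _ _ _, ?_⟩
      rw [integral_zero, if_neg]
      rintro (h | h)
      · exact h1 h.1
      · exact h1' h.1

theorem exists_poly (A : Set ℝ) (hA : A.Finite) (g : ℝ → ℝ) :
    ∃ P : Polynomial ℝ, ∀ a ∈ A, P.eval a = g a := by
  classical
  refine ⟨Lagrange.interpolate hA.toFinset id g, fun a ha => ?_⟩
  have hinj : Set.InjOn (id : ℝ → ℝ) (hA.toFinset : Set ℝ) := Function.injective_id.injOn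
  have h := Lagrange.eval_interpolate_at_node (s := hA.toFinset) (v := id) (r := g) (i := a) hinj
    (hA.mem_toFinset.2 ha)
  simpa using h

end LineH

open Pool.Agent.Helper549.Tri.Basic Pool.Agent.Helper549.Tri.Opp Pool.Agent.Helper549.Tri.Line
open LineH

/-- jump version of the line identity, by integrating the count of sides against the derivative of a polynomial
that interpolates h at the vertices on the line -/
theorem t_LINEH : S_LINEH := by
  intro N T t hD u s hu h
  classical
  have hu0 : u ≠ 0 := by
    intro h; rw [h, norm_zero] at hu; norm_num at hu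
  have hfin : (zl u s ⁻¹' ((⋃ i, Set.range (t i)) ∪ Set.range T)).Finite := by
    apply Set.Finite.preimage (zl_inj u hu s).injOn
    apply Set.Finite.union
    · exact Set.finite_iUnion (fun i => Set.finite_range _)
    · exact Set.finite_range _
  obtain ⟨P, hP⟩ := exists_poly _ hfin (fun x => h (zl u s x))
  have hP1 : ∀ i m a, t i m = zl u s a → P.eval a = h (t i m) := by
    intro i m a ha
    rw [hP a (by left; exact Set.mem_iUnion.2 ⟨i, ⟨m, ha⟩⟩), ha]
  have hP2 : ∀ m a, T m = zl u s a → P.eval a = h (T m) := by
    intro m a ha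
    rw [hP a (by right; exact ⟨m, ha⟩), ha]
  have hI1 := fun i k => side_int' (t i) (hD.ccwt i) k u hu s P h (hP1 i)
  have hI2 := fun k => side_int' T hD.ccwT k u hu s P h hP2
  have e1 : (∑ i, ∑ k : Fin 3, if (dir (t i) k = u ∧ lev (t i) k = s) ∨ (dir (t i) k = -u ∧ lev (t i) k = -s) then
      h (t i (k + 2)) - h (t i (k + 1)) else 0)
      = ∫ x : ℝ, ∑ i, ∑ k, (if onSide (t i) k (zl u s x) then
      ((if dir (t i) k = u then (1:ℝ) else 0) - (if dir (t i) k = -u then 1 else 0)) else 0) *
        P.derivative.eval x := by
    rw [integral_finsetSum _ (fun i _ => integrable_finsetSum _ (fun k _ => (hI1 i k).1))]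
    apply Finset.sum_congr rfl
    intro i _
    rw [integral_finsetSum _ (fun k _ => (hI1 i k).1)]
    apply Finset.sum_congr rfl
    intro k _
    exact (hI1 i k).2.symm
  have e2 : (∑ k : Fin 3, if (dir T k = u ∧ lev T k = s) ∨ (dir T k = -u ∧ lev T k = -s) then
      h (T (k + 2)) - h (T (k + 1)) else 0)
      = ∫ x : ℝ, ∑ k, (if onSide T k (zl u s x) then
      ((if dir T k = u then (1:ℝ) else 0) - (if dir T k = -u then 1 else 0)) else 0) *
        P.derivative.eval x := by
    rw [integral_finsetSum _ (fun k _ => (hI2 k).1)]
    apply Finset.sum_congr rfl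
    intro k _
    exact (hI2 k).2.symm
  rw [e1, e2]
  apply integral_congr_ae
  have hae : ∀ᵐ x : ℝ, x ∉ zl u s ⁻¹' ((⋃ i, Set.range (t i)) ∪ Set.range T) :=
    hfin.countable.ae_notMem _
  filter_upwards [hae] with x hx
  have hx1 : ∀ i k, zl u s x ≠ t i k := by
    intro i k hk
    apply hx
    left
    exact Set.mem_iUnion.2 ⟨i, ⟨k, hk.symm⟩⟩
  have hx2 : ∀ k, zl u s x ≠ T k := by
    intro k hk
    apply hx
    right
    exact ⟨k, hk.symm⟩
  have hsc := side_count hD (zl u s x) u hu0 hx1 hx2
  simp only [← Finset.sum_mul]
  rw [hsc]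

end Q16.SQ
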