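import Mathlib
import Pool.Agent.Q16.SQ.Stm5
import Pool.Agent.Helper549.Tri.Basic
set_option autoImplicit false
noncomputable section
open scoped BigOperators
open Pool.Agent.Helper549.Tri

namespace Q16.SQ
namespace LineSum
open Pool.Agent.Helper549.Tri.Basic

open Classical in
/-- a finite symmetric set of lines counts every side twice -/
theorem twice (D : Finset (ℂ × ℝ)) (d : ℂ) (l : ℝ) (hd : d ≠ 0) (h1 : (d, l) ∈ D)
    (h2 : (-d, -l) ∈ D) (H : ℂ → ℝ → ℂ → ℝ) (hH : ∀ u s z, H (-u) (-s) z = H u s z) (z1 z2 : ℂ) :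
    ∑ p ∈ D, (if (d = p.1 ∧ l = p.2) ∨ (d = -p.1 ∧ l = -p.2) then H p.1 p.2 z2 - H p.1 p.2 z1 else 0)
      = 2 * (H d l z2 - H d l z1) := by
  have hne : ((d, l) : ℂ × ℝ) ≠ (-d, -l) := by
    intro h
    apply hd
    have h3 : d = -d := congrArg Prod.fst h
    have : (2 : ℂ) * d = 0 := by linear_combination h3
    exact (mul_eq_zero.1 this).resolve_left two_ne_zero
  have hsub : ({(d, l), (-d, -l)} : Finset (ℂ × ℝ)) ⊆ D := by
    intro p hp
    simp only [Finset.mem_insert, Finset.mem_singleton] at hp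
    rcases hp with rfl | rfl
    · exact h1
    · exact h2
  rw [← Finset.sum_subset hsub]
  · rw [Finset.sum_pair hne]
    rw [if_pos (Or.inl ⟨rfl, rfl⟩), if_pos (Or.inr ⟨(neg_neg d).symm, (neg_neg l).symm⟩)]
    simp only [hH]
    ring
  · intro p _ hp
    rw [if_neg]
    rintro (⟨ha, hb⟩ | ⟨ha, hb⟩)
    · apply hp
      simp only [Finset.mem_insert, Finset.mem_singleton]
      left
      exact Prod.ext ha.symm hb.symm
    · apply hp
      simp only [Finset.mem_insert, Finset.mem_singleton]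
      right
      apply Prod.ext
      · show p.1 = -d
        rw [ha, neg_neg]
      · show p.2 = -l
        rw [hb, neg_neg]

end LineSum

open Pool.Agent.Helper549.Tri.Basic
open LineSum

theorem t_LINESUM (h : S_LINEH) : S_LINESUM := by
  intro N T t hD H hH
  classical
  let D1 : Finset (ℂ × ℝ) := (Finset.univ : Finset (Fin N × Fin 3)).image
    (fun q => (dir (t q.1) q.2, lev (t q.1) q.2))
  let D2 : Finset (ℂ × ℝ) := (Finset.univ : Finset (Fin N × Fin 3)).image
    (fun q => (-dir (t q.1) q.2, -lev (t q.1) q.2))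
  let D3 : Finset (ℂ × ℝ) := (Finset.univ : Finset (Fin 3)).image
    (fun k => (dir T k, lev T k))
  let D4 : Finset (ℂ × ℝ) := (Finset.univ : Finset (Fin 3)).image
    (fun k => (-dir T k, -lev T k))
  let D : Finset (ℂ × ℝ) := (D1 ∪ D2) ∪ (D3 ∪ D4)
  have hnt : ∀ i k, ‖dir (t i) k‖ = 1 := fun i k => norm_dir (t i) (hD.ccwt i) k
  have hnT : ∀ k, ‖dir T k‖ = 1 := fun k => norm_dir T hD.ccwT k
  have hn : ∀ p ∈ D, ‖p.1‖ = 1 := by
    intro p hp
    simp only [D, D1, D2, D3, D4, Finset.mem_union, Finset.mem_image, Finset.mem_univ, true_and] at hp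
    rcases hp with (⟨q, rfl⟩ | ⟨q, rfl⟩) | (⟨q, rfl⟩ | ⟨q, rfl⟩)
    · exact hnt _ _
    · show ‖-dir (t q.1) q.2‖ = 1
      rw [norm_neg]; exact hnt _ _
    · exact hnT _
    · show ‖-dir T q‖ = 1
      rw [norm_neg]; exact hnT _
  have hkey := Finset.sum_congr (rfl : D = D) (fun p hp => h hD p.1 p.2 (hn p hp) (H p.1 p.2))
  have hne0 : ∀ z : ℂ, ‖z‖ = 1 → z ≠ 0 := by
    intro z hz h0
    rw [h0, norm_zero] at hz; norm_num at hz
  have e1 : (∑ p ∈ D, ∑ i, ∑ k : Fin 3, if (dir (t i) k = p.1 ∧ lev (t i) k = p.2) ∨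
      (dir (t i) k = -p.1 ∧ lev (t i) k = -p.2) then
      H p.1 p.2 (t i (k + 2)) - H p.1 p.2 (t i (k + 1)) else 0) =
      2 * ∑ i, ∑ k : Fin 3, (H (dir (t i) k) (lev (t i) k) (t i (k + 2)) -
        H (dir (t i) k) (lev (t i) k) (t i (k + 1))) := by
    rw [Finset.sum_comm, Finset.mul_sum]
    apply Finset.sum_congr rfl
    intro i _
    rw [Finset.sum_comm, Finset.mul_sum]
    apply Finset.sum_congr rfl
    intro k _
    apply twice D _ _ (hne0 _ (hnt i k)) _ _ H hH
    · simp only [D, D1, Finset.mem_union, Finset.mem_image, Finset.mem_univ, true_and]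
      exact Or.inl (Or.inl ⟨(i, k), rfl⟩)
    · simp only [D, D2, Finset.mem_union, Finset.mem_image, Finset.mem_univ, true_and]
      exact Or.inl (Or.inr ⟨(i, k), rfl⟩)
  have e2 : (∑ p ∈ D, ∑ k : Fin 3, if (dir T k = p.1 ∧ lev T k = p.2) ∨
      (dir T k = -p.1 ∧ lev T k = -p.2) then
      H p.1 p.2 (T (k + 2)) - H p.1 p.2 (T (k + 1)) else 0) =
      2 * ∑ k : Fin 3, (H (dir T k) (lev T k) (T (k + 2)) -
        H (dir T k) (lev T k) (T (k + 1))) := by
    rw [Finset.sum_comm, Finset.mul_sum]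
    apply Finset.sum_congr rfl
    intro k _
    apply twice D _ _ (hne0 _ (hnT k)) _ _ H hH
    · simp only [D, D3, Finset.mem_union, Finset.mem_image, Finset.mem_univ, true_and]
      exact Or.inr (Or.inl ⟨k, rfl⟩)
    · simp only [D, D4, Finset.mem_union, Finset.mem_image, Finset.mem_univ, true_and]
      exact Or.inr (Or.inr ⟨k, rfl⟩)
  have e3 := e1.symm.trans (hkey.trans e2)
  linarith

end Q16.SQ
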