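import Mathlib
import Pool.Agent.Q16.SQ.Stm5
import Pool.Agent.Helper549.Tri.PermX
set_option autoImplicit false
noncomputable section
open scoped BigOperators
open Pool.Agent.Helper549.Tri

namespace Q16.SQ

theorem Data0.perm_types {N : ℕ} {ℓ θ S A : Fin 3 → ℝ} {κ β : Fin 3 → Fin 3 → ℕ}
    (h : Data0 N ℓ θ S A κ β) (σ : Equiv.Perm (Fin 3)) :
    Data0 N (fun k => ℓ (σ k)) (fun k => θ (σ k)) S A (fun j k => κ j (σ k))
      (fun j k => β j (σ k)) where
  lpos := fun k => h.lpos (σ k)
  Spos := h.Spos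
  tpos := fun k => h.tpos (σ k)
  tsum := by
    have h1 := Equiv.sum_comp σ θ
    rw [Fin.sum_univ_three, Fin.sum_univ_three, h.tsum] at h1
    exact h1
  Apos := h.Apos
  Asum := h.Asum
  sinet := fun j k => h.sinet (σ j) (σ k)
  sineT := h.sineT
  area := by
    have h1 := perm_area_aux ℓ (fun k => Real.sin (θ k)) (fun j k => h.sinet j k)
      (σ 0) (σ 1) (σ 2) (σ.injective.ne (by decide)) (σ.injective.ne (by decide))
      (σ.injective.ne (by decide))
    rw [h1]
    exact h.area
  angles := by
    intro j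
    rw [h.angles j]
    exact (Equiv.sum_comp σ (fun k => (κ j k : ℝ) * θ k)).symm
  kpos := by
    intro j
    obtain ⟨k, hk⟩ := h.kpos j
    exact ⟨σ.symm k, by rw [Equiv.apply_symm_apply]; exact hk⟩
  side := by
    intro j
    rw [h.side j]
    exact (Equiv.sum_comp σ (fun k => (β j k : ℝ) * ℓ k)).symm
  corner := by
    intro j k hjk
    obtain ⟨x, y, hxy, hx, hy⟩ := h.corner j k hjk
    refine ⟨σ.symm x, σ.symm y, σ.symm.injective.ne hxy, ?_, ?_⟩
    · rw [Equiv.apply_symm_apply]; exact hx
    · rw [Equiv.apply_symm_apply]; exact hy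

theorem Data0.perm_corners {N : ℕ} {ℓ θ S A : Fin 3 → ℝ} {κ β : Fin 3 → Fin 3 → ℕ}
    (h : Data0 N ℓ θ S A κ β) (π : Equiv.Perm (Fin 3)) :
    Data0 N ℓ θ (fun j => S (π j)) (fun j => A (π j)) (fun j => κ (π j)) (fun j => β (π j)) where
  lpos := h.lpos
  Spos := fun k => h.Spos (π k)
  tpos := h.tpos
  tsum := h.tsum
  Apos := fun k => h.Apos (π k)
  Asum := by
    have h1 := Equiv.sum_comp π A
    rw [Fin.sum_univ_three, Fin.sum_univ_three, h.Asum] at h1
    exact h1
  sinet := h.sinet
  sineT := fun j k => h.sineT (π j) (π k)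
  area := by
    have h1 := perm_area_aux S (fun k => Real.sin (A k)) (fun j k => h.sineT j k)
      (π 0) (π 1) (π 2) (π.injective.ne (by decide)) (π.injective.ne (by decide))
      (π.injective.ne (by decide))
    rw [h1]
    exact h.area
  angles := fun j => h.angles (π j)
  kpos := fun j => h.kpos (π j)
  side := fun j => h.side (π j)
  corner := by
    intro j k hjk
    exact h.corner (π j) (π k) (π.injective.ne hjk)

/-- permutation invariance of the numerical data -/
theorem t_PERM0 : S_PERM0 := by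
  intro N ℓ θ S A κ β h π σ
  exact (h.perm_corners π).perm_types σ

end Q16.SQ
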