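import Pool.Agent.Q16.XP.Stm

/-!
# Project XP, job D1 (helper123): additivity of the digit sums over pairs of consecutive nonzero digits
-/

set_option autoImplicit false

namespace Pool.Agent.Q123.XP_D1

open Q16.XP

theorem fz {p : ℕ} (hp : p.Prime) (v u : ℕ) (hu : ¬ p ∣ u) : (p ^ v * u).factorization p = v := by
  have hu0 : u ≠ 0 := fun h => hu (h ▸ dvd_zero p)
  rw [Nat.factorization_mul (pow_ne_zero _ hp.ne_zero) hu0, Finsupp.add_apply, hp.factorization_pow,
    Nat.factorization_eq_zero_of_not_dvd hu]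
  simp

theorem dgz {p : ℕ} (hp : p.Prime) (v u : ℕ) (hu : ¬ p ∣ u) : dg p (p ^ v * u) = u % p := by
  unfold dg
  rw [fz hp v u hu, Nat.mul_div_cancel_left _ (pow_pos hp.pos v)]

theorem rdz {p : ℕ} (hp : p.Prime) (v u : ℕ) (hu : ¬ p ∣ u) : rd p (p ^ v * u) = p ^ (v + 1) * (u / p) := by
  unfold rd
  rw [dgz hp v u hu, fz hp v u hu]
  have h1 : p ^ v * u = p ^ (v + 1) * (u / p) + u % p * p ^ v := by
    conv_lhs => rw [← Nat.div_add_mod u p]
    ring
  omega

theorem rep {p : ℕ} (hp : p.Prime) {n : ℕ} (hn : 0 < n) : ∃ v u : ℕ, ¬ p ∣ u ∧ n = p ^ v * u :=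
  ⟨n.factorization p, n / p ^ n.factorization p, Nat.not_dvd_ordCompl hp hn.ne',
    (Nat.ordProj_mul_ordCompl_eq_self n p).symm⟩

theorem rd_zero (p : ℕ) : rd p 0 = 0 := by unfold rd; exact Nat.zero_sub _

theorem rd_lt {p : ℕ} (hp : p.Prime) {n : ℕ} (hn : 0 < n) : rd p n < n := by
  obtain ⟨v, u, hu, rfl⟩ := rep hp hn
  rw [rdz hp v u hu]
  have h1 : p * (u / p) < u := by
    have h2 := Nat.div_add_mod u p
    have h3 : u % p ≠ 0 := fun h => hu (Nat.dvd_of_mod_eq_zero h)
    omega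
  calc p ^ (v + 1) * (u / p) = p ^ v * (p * (u / p)) := by ring
    _ < p ^ v * u := Nat.mul_lt_mul_of_pos_left h1 (pow_pos hp.pos v)

theorem fuel {p : ℕ} (hp : p.Prime) (G : ℕ → ℕ → ℕ → ℕ) : ∀ (n k : ℕ), n ≤ k → DSf p G k n = DSf p G n n := by
  intro n
  induction n using Nat.strong_induction_on with
  | _ n ih =>
    intro k hk
    rcases Nat.eq_zero_or_pos n with rfl | hn
    · cases k with
      | zero => rfl
      | succ k => simp only [DSf, rd_zero, if_true]
    · obtain ⟨k, rfl⟩ : ∃ k', k = k' + 1 := ⟨k - 1, by omega⟩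
      obtain ⟨m, rfl⟩ : ∃ m, n = m + 1 := ⟨n - 1, by omega⟩
      have hlt := rd_lt hp hn
      simp only [DSf]
      rw [ih (rd p (m + 1)) hlt k (by omega), ih (rd p (m + 1)) hlt m (by omega)]

theorem DS_eq {p : ℕ} (hp : p.Prime) (G : ℕ → ℕ → ℕ → ℕ) {n : ℕ} (hn : 0 < n) :
    DS p G n = if rd p n = 0 then 0 else G (n.factorization p) (dg p n) ((rd p n).factorization p) + DS p G (rd p n) := by
  obtain ⟨m, rfl⟩ : ∃ m, n = m + 1 := ⟨n - 1, by omega⟩
  have hlt := rd_lt hp hn
  unfold DS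
  conv_lhs => rw [DSf]
  rw [fuel hp G (rd p (m + 1)) m (by omega)]

theorem step {p : ℕ} (hp : p.Prime) {x y k : ℕ} (hx : 0 < x) (hk : p ^ k ∣ y) (hxk : x < p ^ k) :
    (x + y).factorization p = x.factorization p ∧ dg p (x + y) = dg p x ∧ rd p (x + y) = rd p x + y := by
  obtain ⟨v, u, hu, rfl⟩ := rep hp hx
  obtain ⟨w, rfl⟩ := hk
  have hu0 : 0 < u := Nat.pos_of_ne_zero (fun h => hu (h ▸ dvd_zero p))
  have hvk : v < k := by
    by_contra hc
    have h1 : p ^ k ≤ p ^ v := Nat.pow_le_pow_right hp.pos (by omega)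
    have h2 : p ^ v * 1 ≤ p ^ v * u := Nat.mul_le_mul_left _ hu0
    omega
  obtain ⟨m, rfl⟩ : ∃ m, k = v + (m + 1) := ⟨k - v - 1, by omega⟩
  have e : p ^ v * u + p ^ (v + (m + 1)) * w = p ^ v * (u + p * (p ^ m * w)) := by ring
  have hu' : ¬ p ∣ u + p * (p ^ m * w) := fun h => hu ((Nat.dvd_add_left (dvd_mul_right _ _)).1 h)
  refine ⟨?_, ?_, ?_⟩
  · rw [e, fz hp _ _ hu', fz hp _ _ hu]
  · rw [e, dgz hp _ _ hu', dgz hp _ _ hu, Nat.add_mul_mod_self_left]
  · rw [e, rdz hp _ _ hu', rdz hp _ _ hu, Nat.add_mul_div_left _ _ hp.pos]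
    ring

theorem t_D1 : S_D1 := by
  intro p hp G x y k hx hy hk hxk
  induction x using Nat.strong_induction_on with
  | _ x ih =>
    obtain ⟨s1, s2, s3⟩ := step hp hx hk hxk
    rw [DS_eq hp G (Nat.add_pos_left hx y), s1, s2, s3, if_neg (by omega), DS_eq hp G hx]
    obtain ⟨v, u, hu, hxe⟩ := rep hp hx
    have hu0 : 0 < u := Nat.pos_of_ne_zero (fun h => hu (h ▸ dvd_zero p))
    have hrd : rd p x = p ^ (v + 1) * (u / p) := by rw [hxe, rdz hp v u hu]
    have hdg : dg p x = u % p := by rw [hxe, dgz hp v u hu]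
    have hfz : x.factorization p = v := by rw [hxe, fz hp v u hu]
    by_cases h0 : rd p x = 0
    · rw [if_pos h0, h0, zero_add, zero_add]
      have hup : u / p = 0 := by
        rcases Nat.mul_eq_zero.1 (hrd ▸ h0) with h | h
        · exact absurd h (pow_ne_zero _ hp.ne_zero)
        · exact h
      have hulp : u < p := (Nat.div_eq_zero_iff.1 hup).resolve_left hp.ne_zero
      have hlog : Nat.log p x = v := by
        rw [hxe]
        refine Nat.log_eq_of_pow_le_of_lt_pow ?_ ?_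
        · exact Nat.le_mul_of_pos_right _ hu0
        · rw [pow_succ]; exact Nat.mul_lt_mul_of_pos_left hulp (pow_pos hp.pos v)
      rw [hlog, hfz, hdg, hxe, Nat.mul_div_cancel_left _ (pow_pos hp.pos v), Nat.mod_eq_of_lt hulp]
    · rw [if_neg h0]
      have hr0 : 0 < rd p x := Nat.pos_of_ne_zero h0
      have hrx : rd p x < x := rd_lt hp hx
      have h1 := ih (rd p x) hrx hr0 (hrx.trans hxk)
      obtain ⟨t1, _, _⟩ := step hp hr0 hk (hrx.trans hxk)
      rw [t1, h1]
      -- the truncation has the same leading digit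
      have htr : rd p x = p ^ (v + 1) * (x / p ^ (v + 1)) := by
        rw [hrd, hxe, pow_succ, Nat.mul_div_mul_left _ _ (pow_pos hp.pos v)]
      have hvl : v + 1 ≤ Nat.log p x := by
        refine Nat.le_log_of_pow_le hp.one_lt ?_
        have h2 : 0 < x / p ^ (v + 1) := by
          rcases Nat.eq_zero_or_pos (x / p ^ (v + 1)) with h | h
          · rw [h, mul_zero] at htr; omega
          · exact h
        exact (Nat.div_pos_iff.1 h2).2
      obtain ⟨m, hm⟩ : ∃ m, Nat.log p x = (v + 1) + m := ⟨Nat.log p x - (v + 1), by omega⟩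
      have hle : p ^ Nat.log p x ≤ rd p x := by
        rw [htr, hm, pow_add]
        refine Nat.mul_le_mul_left _ ?_
        rw [Nat.le_div_iff_mul_le (pow_pos hp.pos _), ← pow_add, add_comm m, ← hm]
        exact Nat.pow_log_le_self p hx.ne'
      have hlog : Nat.log p (rd p x) = Nat.log p x := by
        refine Nat.log_eq_of_pow_le_of_lt_pow hle ?_
        exact hrx.trans (Nat.lt_pow_succ_log_self hp.one_lt x)
      have hdiv : rd p x / p ^ Nat.log p x = x / p ^ Nat.log p x := by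
        rw [htr, hm, pow_add p (v + 1) m, Nat.mul_div_mul_left _ _ (pow_pos hp.pos _), Nat.div_div_eq_div_mul]
      rw [hlog, hdiv]
      ring

end Pool.Agent.Q123.XP_D1
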