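import Pool.Agent.Q16.XP.Stm2
import Pool.Agent.Q123.XP_D1

/-!
# Project XP, job E6 (helper123)
-/

set_option autoImplicit false

namespace Pool.Agent.Q123.XP_E6

open Q16.XP Pool.Agent.Q123.XP_D1

theorem sum_pow_mul {p : ℕ} (hp : p.Prime) (v m : ℕ) : (Nat.digits p (p ^ v * m)).sum = (Nat.digits p m).sum := by
  rcases Nat.eq_zero_or_pos m with rfl | hm
  · simp
  · rw [Nat.digits_base_pow_mul hp.one_lt hm]
    simp

theorem sum_rd {p : ℕ} (hp : p.Prime) {n : ℕ} (hn : 0 < n) :
    (Nat.digits p n).sum = dg p n + (Nat.digits p (rd p n)).sum ∧ 0 < dg p n := by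
  obtain ⟨v, u, hu, rfl⟩ := rep hp hn
  have hu0 : 0 < u := Nat.pos_of_ne_zero (fun h => hu (h ▸ dvd_zero p))
  rw [dgz hp v u hu, rdz hp v u hu, sum_pow_mul hp, sum_pow_mul hp, Nat.digits_def' hp.one_lt hu0]
  exact ⟨by simp, Nat.pos_of_ne_zero (fun h => hu (Nat.dvd_of_mod_eq_zero h))⟩

theorem DS_lt {p : ℕ} (hp : p.Prime) : ∀ (n : ℕ), 0 < n → DS p (G3 p) n + 1 ≤ (Nat.digits p n).sum := by
  intro n
  induction n using Nat.strong_induction_on with
  | _ n ih =>
    intro hn
    obtain ⟨h1, h2⟩ := sum_rd hp hn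
    rw [DS_eq hp (G3 p) hn]
    by_cases h0 : rd p n = 0
    · rw [if_pos h0]; omega
    · rw [if_neg h0]
      have h3 := ih (rd p n) (rd_lt hp hn) (Nat.pos_of_ne_zero h0)
      have h4 : G3 p (n.factorization p) (dg p n) ((rd p n).factorization p) ≤ 1 := by
        unfold G3; split_ifs <;> omega
      omega

theorem t_E6 : S_E6 := by
  intro J
  refine ⟨J + 1, fun n => ⟨min (DS n.minFac (G3 n.minFac) (ex n)) J, by omega⟩, ?_⟩
  intro p a b ha hb hpa hpb hJ
  have hp : p.Prime := hpb ▸ Nat.minFac_prime (by omega)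
  have ha0 : a ≠ 0 := by omega
  have hb0 : b ≠ 0 := by omega
  have hpda : p ∣ a := hpa ▸ Nat.minFac_dvd a
  have hpdb : p ∣ b := hpb ▸ Nat.minFac_dvd b
  have hexb : ex b = b.factorization p := by unfold ex; rw [hpb]
  have hbe : 0 < b.factorization p := hp.factorization_pos_of_dvd hb0 hpdb
  have hal : 0 < a.factorization p := hp.factorization_pos_of_dvd ha0 hpda
  have hab0 : a ^ b ≠ 0 := pow_ne_zero _ ha0
  -- the smallest prime factor of a ^ b * b
  have hmf : (a ^ b * b).minFac = p := by
    have h1 : a ^ b * b ≠ 1 := fun h => by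
      have := Nat.eq_one_of_mul_eq_one_left h
      omega
    have h2 := Nat.minFac_prime h1
    refine le_antisymm (Nat.minFac_le_of_dvd hp.two_le (dvd_mul_of_dvd_right hpdb _)) ?_
    rcases (h2.dvd_mul).1 (Nat.minFac_dvd (a ^ b * b)) with h | h
    · exact hpa ▸ Nat.minFac_le_of_dvd h2.two_le (h2.dvd_of_dvd_pow h)
    · exact hpb ▸ Nat.minFac_le_of_dvd h2.two_le h
  have hex : ex (a ^ b * b) = b.factorization p + b * a.factorization p := by
    unfold ex
    rw [hmf, Nat.factorization_mul hab0 hb0, Nat.factorization_pow]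
    simp only [Finsupp.add_apply, Finsupp.smul_apply, smul_eq_mul]
    ring
  have hd : p ^ b.factorization p ∣ b * a.factorization p := dvd_mul_of_dvd_left (Nat.ordProj_dvd b p) _
  have hlt : b.factorization p < p ^ b.factorization p := Nat.lt_pow_self hp.one_lt
  have hy : 0 < b * a.factorization p := Nat.mul_pos (by omega) hal
  have hD := t_D1 p hp (G3 p) (b.factorization p) (b * a.factorization p) (b.factorization p) hbe hy hd hlt
  have hG : G3 p (Nat.log p (b.factorization p)) (b.factorization p / p ^ Nat.log p (b.factorization p))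
      ((b * a.factorization p).factorization p) = 1 := by
    unfold G3
    rw [if_pos]
    refine (Nat.pow_log_le_self p hbe.ne').trans ?_
    rw [Nat.factorization_mul hb0 hal.ne', Finsupp.add_apply]
    omega
  rw [hG] at hD
  have hS := DS_lt hp (b.factorization p) hbe
  rw [hexb] at hJ
  intro hc
  have hc' := congrArg Fin.val hc
  simp only [hpb, hmf, hexb, hex] at hc'
  omega

end Pool.Agent.Q123.XP_E6
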